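import Mathlib

/-!
# Two facts of elementary calculus about `1 / (c + cosh x)`
-/

set_option autoImplicit false

open Real Set

namespace Pool.Agent.H66.OneArm

private lemma conv_num {c : ℝ} (hc : -1 < c) (hc' : c ≤ 1) {x : ℝ} (hx : 0 < x) :
    (x * cosh x - sinh x) * (c + cosh x) - 2 * x * sinh x ^ 2 ≤ 0 := by
  have h1 : 1 ≤ cosh x := Real.one_le_cosh x
  have h2 : x ≤ sinh x := Real.self_le_sinh_iff.2 hx.le
  have h3 : cosh x ^ 2 - sinh x ^ 2 = 1 := Real.cosh_sq_sub_sinh_sq x
  by_cases h : 0 ≤ x * cosh x - sinh x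
  · have h4 : (x * cosh x - sinh x) * (c + cosh x) ≤ (x * cosh x - sinh x) * (1 + cosh x) :=
      mul_le_mul_of_nonneg_left (by linarith) h
    have h5 : (x * cosh x - sinh x) * (1 + cosh x) - 2 * x * sinh x ^ 2 =
        (1 + cosh x) * (2 * x - x * cosh x - sinh x) := by
      have : sinh x ^ 2 = cosh x ^ 2 - 1 := by linarith
      rw [this]
      ring
    have h6 : (1 + cosh x) * (2 * x - x * cosh x - sinh x) ≤ 0 := by
      apply mul_nonpos_of_nonneg_of_nonpos (by linarith)
      nlinarith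
    linarith
  · push Not at h
    have h4 : (x * cosh x - sinh x) * (c + cosh x) ≤ 0 :=
      mul_nonpos_of_nonpos_of_nonneg h.le (by linarith)
    have h5 : 0 ≤ 2 * x * sinh x ^ 2 := by positivity
    linarith

private lemma conv_antitone {c : ℝ} (hc : -1 < c) (hc' : c ≤ 1) :
    AntitoneOn (fun x : ℝ => sinh x / (x * (c + cosh x) ^ 2)) (Ioi 0) := by
  have hpos : ∀ x : ℝ, 0 < c + cosh x := fun x => by linarith [Real.one_le_cosh x]
  have hder : ∀ x : ℝ, 0 < x → HasDerivAt (fun x : ℝ => sinh x / (x * (c + cosh x) ^ 2))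
      ((cosh x * (x * (c + cosh x) ^ 2) - sinh x * (1 * (c + cosh x) ^ 2 +
        x * (2 * (c + cosh x) * sinh x))) / (x * (c + cosh x) ^ 2) ^ 2) x := by
    intro x hx
    have h1 : HasDerivAt (fun x : ℝ => (c + cosh x) ^ 2) (2 * (c + cosh x) * sinh x) x := by
      have h0 := ((Real.hasDerivAt_cosh x).const_add c).pow 2
      refine (h0.congr_deriv (by simp)).congr_of_eventuallyEq ?_
      filter_upwards with y
      rfl
    have h2 : HasDerivAt (fun x : ℝ => x * (c + cosh x) ^ 2)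
        (1 * (c + cosh x) ^ 2 + x * (2 * (c + cosh x) * sinh x)) x := (hasDerivAt_id x).mul h1
    exact (Real.hasDerivAt_sinh x).div h2 (mul_pos hx (pow_pos (hpos x) 2)).ne'
  apply antitoneOn_of_deriv_nonpos (convex_Ioi 0)
  · intro x hx
    exact (hder x hx).continuousAt.continuousWithinAt
  · rw [interior_Ioi]
    intro x hx
    exact (hder x hx).differentiableAt.differentiableWithinAt
  · rw [interior_Ioi]
    intro x hx
    rw [(hder x hx).deriv]
    apply div_nonpos_of_nonpos_of_nonneg _ (sq_nonneg _)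
    have h1 := conv_num hc hc' hx
    have h2 : cosh x * (x * (c + cosh x) ^ 2) - sinh x * (1 * (c + cosh x) ^ 2 +
        x * (2 * (c + cosh x) * sinh x)) =
        (c + cosh x) * ((x * cosh x - sinh x) * (c + cosh x) - 2 * x * sinh x ^ 2) := by ring
    rw [h2]
    exact mul_nonpos_of_nonneg_of_nonpos (hpos x).le h1

theorem convexOn_inv_cosh {c : ℝ} (hc : -1 < c) (hc' : c ≤ 1) {a : ℝ} (ha : 0 ≤ a) : ConvexOn ℝ (Set.Ici 0) fun E : ℝ => 1 / (c + cosh (a * √E)) := by
  have hpos : ∀ x : ℝ, 0 < c + cosh x := fun x => by linarith [Real.one_le_cosh x]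
  rcases ha.eq_or_lt with rfl | ha
  · simp only [zero_mul]
    exact convexOn_const _ (convex_Ici 0)
  have hder : ∀ E : ℝ, 0 < E → HasDerivAt (fun E : ℝ => 1 / (c + cosh (a * √E)))
      (-(a ^ 2 / 2) * (sinh (a * √E) / (a * √E * (c + cosh (a * √E)) ^ 2))) E := by
    intro E hE
    have hs : 0 < √E := Real.sqrt_pos.2 hE
    have h1 : HasDerivAt (fun E : ℝ => a * √E) (a * (1 / (2 * √E))) E :=
      (Real.hasDerivAt_sqrt hE.ne').const_mul a
    have h2 : HasDerivAt (fun E : ℝ => c + cosh (a * √E))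
        (sinh (a * √E) * (a * (1 / (2 * √E)))) E := by
      have := (Real.hasDerivAt_cosh (a * √E)).comp E h1
      exact this.const_add c
    have h3 := h2.inv (hpos _).ne'
    simp only [one_div]
    refine h3.congr_deriv ?_
    have h4 := (hpos (a * √E)).ne'
    field_simp
  have hcont : ContinuousOn (fun E : ℝ => 1 / (c + cosh (a * √E))) (Set.Ici 0) := by
    apply Continuous.continuousOn
    apply Continuous.div continuous_const
    · exact continuous_const.add (Real.continuous_cosh.comp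
        (continuous_const.mul Real.continuous_sqrt))
    · intro E
      exact (hpos _).ne'
  apply MonotoneOn.convexOn_of_deriv (convex_Ici 0) hcont
  · rw [interior_Ici]
    intro E hE
    exact (hder E hE).differentiableAt.differentiableWithinAt
  · rw [interior_Ici]
    intro E hE F hF hEF
    rw [(hder E hE).deriv, (hder F hF).deriv]
    have hE' : (0 : ℝ) < E := hE
    have hF' : (0 : ℝ) < F := hF
    have h1 := conv_antitone hc hc' (show a * √E ∈ Ioi 0 from mul_pos ha (Real.sqrt_pos.2 hE'))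
      (show a * √F ∈ Ioi 0 from mul_pos ha (Real.sqrt_pos.2 hF'))
      (mul_le_mul_of_nonneg_left (Real.sqrt_le_sqrt hEF) ha.le)
    simp only at h1
    nlinarith [sq_nonneg a, mul_le_mul_of_nonneg_left h1 (show (0 : ℝ) ≤ a ^ 2 / 2 by positivity)]

private lemma sum_der {t : ℝ} (ht : 0 < t) (ht' : t < π) (m : ℝ) :
    HasDerivAt (fun m : ℝ => 2 * arctan (tan (t / 2) * tanh (m / 2)))
      (sin t / (cos t + cosh m)) m := by
  have hc : 0 < cos (t / 2) := Real.cos_pos_of_mem_Ioo ⟨by linarith, by linarith⟩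
  have hC : 0 < cosh (m / 2) := Real.cosh_pos _
  have h1 : HasDerivAt (fun m : ℝ => m / 2) (1 / 2) m := (hasDerivAt_id m).div_const 2
  have h2 : HasDerivAt (fun m : ℝ => tanh (m / 2))
      ((cosh (m / 2) * (1 / 2) * cosh (m / 2) - sinh (m / 2) * (sinh (m / 2) * (1 / 2))) /
        cosh (m / 2) ^ 2) m := by
    have hs := (Real.hasDerivAt_sinh (m / 2)).comp m h1
    have hcc := (Real.hasDerivAt_cosh (m / 2)).comp m h1
    have h3 := hs.div hcc hC.ne'
    refine h3.congr_of_eventuallyEq ?_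
    filter_upwards with x
    rw [Real.tanh_eq_sinh_div_cosh]
    rfl
  have h3 := (h2.const_mul (tan (t / 2))).arctan.const_mul 2
  refine h3.congr_deriv ?_
  rw [Real.tanh_eq_sinh_div_cosh, Real.tan_eq_sin_div_cos]
  have e1 : sin t = 2 * sin (t / 2) * cos (t / 2) := by
    rw [← Real.sin_two_mul]
    congr 1
    ring
  have e2 : cos t = 2 * cos (t / 2) ^ 2 - 1 := by
    rw [← Real.cos_two_mul]
    congr 1
    ring
  have e3 : cosh m = cosh (m / 2) ^ 2 + sinh (m / 2) ^ 2 := by
    rw [← Real.cosh_two_mul]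
    congr 1
    ring
  have e4 : cosh (m / 2) ^ 2 - sinh (m / 2) ^ 2 = 1 := Real.cosh_sq_sub_sinh_sq _
  have e5 : sin (t / 2) ^ 2 + cos (t / 2) ^ 2 = 1 := Real.sin_sq_add_cos_sq _
  have e6 : cos t + cosh m = 2 * (cos (t / 2) ^ 2 * cosh (m / 2) ^ 2 +
      sin (t / 2) ^ 2 * sinh (m / 2) ^ 2) := by
    rw [e2, e3]
    have : cosh (m / 2) ^ 2 = 1 + sinh (m / 2) ^ 2 := by linarith
    rw [this]
    have : sin (t / 2) ^ 2 = 1 - cos (t / 2) ^ 2 := by linarith
    rw [this]
    ring
  have hden : 0 < cos (t / 2) ^ 2 * cosh (m / 2) ^ 2 + sin (t / 2) ^ 2 * sinh (m / 2) ^ 2 := by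
    positivity
  rw [e6, e1]
  have hne : 1 + (sin (t / 2) / cos (t / 2) * (sinh (m / 2) / cosh (m / 2))) ^ 2 =
      (cos (t / 2) ^ 2 * cosh (m / 2) ^ 2 + sin (t / 2) ^ 2 * sinh (m / 2) ^ 2) /
        (cos (t / 2) ^ 2 * cosh (m / 2) ^ 2) := by
    field_simp
  have hnum : cosh (m / 2) * (1 / 2) * cosh (m / 2) - sinh (m / 2) * (sinh (m / 2) * (1 / 2)) =
      1 / 2 := by linarith
  rw [hne, hnum]
  field_simp

theorem sum_h_ge {t Δ : ℝ} (ht : 0 < t) (ht' : t < π) (hΔ : 0 < Δ) (a b : ℕ) (hab : a ≤ b) :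
    2 * arctan (tan (t / 2) * tanh ((b + 1) * Δ / 2)) -
      2 * arctan (tan (t / 2) * tanh ((a + 1) * Δ / 2)) ≤
      Δ * ∑ k ∈ Finset.Ico a b, sin t / (cos t + cosh ((k + 1) * Δ)) := by
  induction b, hab using Nat.le_induction with
  | base => simp
  | succ b hab ih =>
    rw [Finset.sum_Ico_succ_top hab, mul_add]
    have hstep : 2 * arctan (tan (t / 2) * tanh ((((b + 1 : ℕ) : ℝ) + 1) * Δ / 2)) -
        2 * arctan (tan (t / 2) * tanh (((b : ℝ) + 1) * Δ / 2)) ≤
        Δ * (sin t / (cos t + cosh (((b : ℝ) + 1) * Δ))) := by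
      have hst : 0 < sin t := Real.sin_pos_of_pos_of_lt_pi ht ht'
      have hb : (0 : ℝ) ≤ ((b : ℝ) + 1) * Δ := by positivity
      have hct : -1 < cos t := by
        have h1 : cos π < cos t := Real.cos_lt_cos_of_nonneg_of_le_pi ht.le le_rfl ht'
        rwa [Real.cos_pi] at h1
      have hmv := Convex.image_sub_le_mul_sub_of_deriv_le
        (D := Set.Icc (((b : ℝ) + 1) * Δ) (((b : ℝ) + 1) * Δ + Δ)) (convex_Icc _ _)
        (f := fun m : ℝ => 2 * arctan (tan (t / 2) * tanh (m / 2)))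
        (fun m _ => (sum_der ht ht' m).continuousAt.continuousWithinAt)
        (fun m _ => (sum_der ht ht' m).differentiableAt.differentiableWithinAt)
        (C := sin t / (cos t + cosh (((b : ℝ) + 1) * Δ)))
        (by
          intro m hm
          rw [interior_Icc] at hm
          rw [(sum_der ht ht' m).deriv]
          have hcm : cosh (((b : ℝ) + 1) * Δ) ≤ cosh m := by
            rw [Real.cosh_le_cosh, abs_of_nonneg hb, abs_of_nonneg (by linarith [hm.1])]
            exact hm.1.le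
          apply div_le_div_of_nonneg_left hst.le _ (by linarith)
          linarith [Real.one_le_cosh (((b : ℝ) + 1) * Δ)])
        (((b : ℝ) + 1) * Δ) ⟨le_rfl, by linarith⟩ (((b : ℝ) + 1) * Δ + Δ) ⟨by linarith, le_rfl⟩
        (by linarith)
      have e1 : (((b + 1 : ℕ) : ℝ) + 1) * Δ / 2 = (((b : ℝ) + 1) * Δ + Δ) / 2 := by
        push_cast
        ring
      rw [e1]
      have e2 : sin t / (cos t + cosh (((b : ℝ) + 1) * Δ)) *
          (((b : ℝ) + 1) * Δ + Δ - ((b : ℝ) + 1) * Δ) =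
          Δ * (sin t / (cos t + cosh (((b : ℝ) + 1) * Δ))) := by ring
      rw [e2] at hmv
      exact hmv
    linarith

end Pool.Agent.H66.OneArm
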