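import Mathlib

/-!
# The Pascal matrix and the commuting tridiagonal matrix
-/

open Matrix

namespace Pool.Agent.H66.OneArm

/-- The symmetric Pascal matrix. -/
def pasc (n : ℕ) : Matrix (Fin n) (Fin n) ℝ := fun i j => ((i + j : ℕ).choose i : ℝ)

/-- The lower triangular Pascal matrix. -/
def lowp (n : ℕ) : Matrix (Fin n) (Fin n) ℝ := fun i j => ((i : ℕ).choose j : ℝ)

/-- The off-diagonal entries of the commuting tridiagonal matrix. -/
def offd (n : ℕ) (i : ℕ) : ℝ := ((i : ℝ) + 1) * ((n : ℝ) ^ 2 - ((i : ℝ) + 1) ^ 2)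

/-- The diagonal entries of the commuting tridiagonal matrix. -/
def diag (n : ℕ) (i : ℕ) : ℝ := 2 * (i : ℝ) ^ 3 + 3 * (i : ℝ) ^ 2 + 2 * (i : ℝ) - (n : ℝ) ^ 2 * (i : ℝ)

/-- The commuting tridiagonal matrix. -/
def trid (n : ℕ) : Matrix (Fin n) (Fin n) ℝ := fun i j =>
  if (i : ℕ) = j then diag n i else if (j : ℕ) = i + 1 then offd n i
    else if (i : ℕ) = j + 1 then offd n j else 0

/-- The extension by zero of a vector. -/
def ext {n : ℕ} (v : Fin n → ℝ) (i : ℕ) : ℝ := if h : i < n then v ⟨i, h⟩ else 0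

lemma ext_of_lt {n : ℕ} (v : Fin n → ℝ) {i : ℕ} (h : i < n) : ext v i = v ⟨i, h⟩ := by
  simp [ext, h]

lemma ext_of_le {n : ℕ} (v : Fin n → ℝ) {i : ℕ} (h : n ≤ i) : ext v i = 0 := by
  simp [ext, not_lt.mpr h]

@[simp] lemma ext_val {n : ℕ} (v : Fin n → ℝ) (i : Fin n) : ext v i = v i := by
  simp [ext]

lemma offd_last {n : ℕ} (hn : 1 ≤ n) : offd n (n - 1) = 0 := by
  unfold offd
  rw [Nat.cast_sub hn]
  simp

/-- The action of the tridiagonal matrix. -/
lemma trid_mulVec {n : ℕ} (v : Fin n → ℝ) (i : Fin n) :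
    (trid n *ᵥ v) i = (if (i : ℕ) = 0 then 0 else offd n (i - 1) * ext v (i - 1)) +
      diag n i * v i + offd n i * ext v (i + 1) := by
  have hsum : (trid n *ᵥ v) i = ∑ j ∈ Finset.range n, (if (i : ℕ) = j then diag n i else
      if (j : ℕ) = i + 1 then offd n i else if (i : ℕ) = j + 1 then offd n j else 0) * ext v j := by
    rw [← Fin.sum_univ_eq_sum_range (fun j => (if (i : ℕ) = j then diag n i else
      if (j : ℕ) = i + 1 then offd n i else if (i : ℕ) = j + 1 then offd n j else 0) * ext v j) n]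
    simp only [mulVec, dotProduct, trid, ext_val]
  have hi := i.2
  rw [hsum]
  have hsplit : ∀ j ∈ Finset.range n, (if (i : ℕ) = j then diag n i else
      if (j : ℕ) = i + 1 then offd n i else if (i : ℕ) = j + 1 then offd n j else 0) * ext v j =
      (if (i : ℕ) = j then diag n i * ext v i else 0) +
      (if (i : ℕ) + 1 = j then offd n i * ext v (i + 1) else 0) +
      (if (i : ℕ) - 1 = j then (if (i : ℕ) = 0 then 0 else offd n (i - 1) * ext v (i - 1)) else 0) := by
    intro j _
    rcases Nat.lt_trichotomy (i : ℕ) j with h | h | h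
    · by_cases h1 : (i : ℕ) + 1 = j
      · rw [if_neg h.ne, if_pos h1.symm, if_neg h.ne, if_pos h1, if_neg (by omega), ← h1]
        ring
      · rw [if_neg h.ne, if_neg (by omega), if_neg (by omega), if_neg h.ne, if_neg h1,
          if_neg (by omega)]
        ring
    · rw [if_pos h, if_pos h, if_neg (by omega), ← h]
      by_cases h0 : (i : ℕ) = 0
      · rw [if_pos (by omega), if_pos h0]
        ring
      · rw [if_neg (by omega)]
        ring
    · by_cases h1 : (i : ℕ) = j + 1
      · rw [if_neg h.ne', if_neg (by omega), if_pos h1, if_neg h.ne', if_neg (by omega),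
          if_pos (by omega), if_neg (by omega)]
        have : (i : ℕ) - 1 = j := by omega
        rw [this]
        ring
      · rw [if_neg h.ne', if_neg (by omega), if_neg h1, if_neg h.ne', if_neg (by omega),
          if_neg (by omega)]
        ring
  have hm1 : (i : ℕ) - 1 ∈ Finset.range n := Finset.mem_range.mpr (by omega)
  rw [Finset.sum_congr rfl hsplit, Finset.sum_add_distrib, Finset.sum_add_distrib,
    Finset.sum_ite_eq, Finset.sum_ite_eq, Finset.sum_ite_eq, if_pos (Finset.mem_range.mpr hi),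
    if_pos hm1, ext_val]
  by_cases hlast : (i : ℕ) + 1 < n
  · rw [if_pos (Finset.mem_range.mpr hlast)]
    ring
  · have h1 : (i : ℕ) + 1 ∉ Finset.range n := by simpa using hlast
    rw [if_neg h1, ext_of_le v (not_lt.mp hlast)]
    ring

lemma trid_isSymm (n : ℕ) : (trid n).IsSymm := by
  ext i j
  simp only [transpose_apply, trid]
  by_cases h : (i : ℕ) = j
  · rw [if_pos h, if_pos h.symm, h]
  · rw [if_neg h, if_neg (Ne.symm h)]
    by_cases h1 : (j : ℕ) = i + 1
    · have h2 : ¬ ((i : ℕ) = j + 1) := by omega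
      rw [if_pos h1, if_neg h2, if_pos h1]
    · by_cases h2 : (i : ℕ) = j + 1
      · rw [if_pos h2, if_neg h1, if_pos h2]
      · rw [if_neg h2, if_neg h1, if_neg h1, if_neg h2]

lemma pasc_isSymm (n : ℕ) : (pasc n).IsSymm := by
  ext i j
  simp only [transpose_apply, pasc]
  rw [add_comm (j : ℕ) i]
  norm_cast
  exact (Nat.choose_symm_add).symm

/-- `B = L Lᵀ`. -/
lemma pasc_eq (n : ℕ) : pasc n = lowp n * (lowp n)ᵀ := by
  ext i j
  simp only [mul_apply, transpose_apply, pasc, lowp]
  rw [Fin.sum_univ_eq_sum_range (fun k => ((i : ℕ).choose k : ℝ) * ((j : ℕ).choose k : ℝ)) n]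
  rw [Nat.add_choose_eq, Finset.Nat.sum_antidiagonal_eq_sum_range_succ
    (fun a b => (i : ℕ).choose a * (j : ℕ).choose b), ← Finset.sum_range_reflect]
  push_cast
  have hi := i.2
  have h1 : Finset.range ((i : ℕ) + 1) ⊆ Finset.range n :=
    Finset.range_subset_range.mpr (by omega)
  rw [← Finset.sum_subset h1 (f := fun k => ((i : ℕ).choose k : ℝ) * ((j : ℕ).choose k : ℝ))]
  · refine Finset.sum_congr rfl fun k hk => ?_
    have hk' : k ≤ i := by
      have := Finset.mem_range.mp hk
      omega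
    have e2 : (i : ℕ) - (i - k) = k := by omega
    simp only [Nat.add_sub_cancel, e2, Nat.choose_symm hk']
  · intro k _ hk
    rw [Finset.mem_range, not_lt] at hk
    rw [Nat.choose_eq_zero_of_lt (by omega)]
    simp

lemma det_lowp (n : ℕ) : (lowp n).det = 1 := by
  rw [Matrix.det_of_isLowerTriangular]
  · exact Finset.prod_eq_one fun i _ => by simp [lowp]
  · intro i j hij
    have : (i : ℕ) < j := hij
    simp only [lowp]
    rw [Nat.choose_eq_zero_of_lt this]
    simp

lemma det_pasc (n : ℕ) : (pasc n).det = 1 := by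
  rw [pasc_eq, det_mul, det_transpose, det_lowp, one_mul]

end Pool.Agent.H66.OneArm
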