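import Pool.Agent.H66.OneArm.Defs

/-!
# The tridiagonal matrix commutes with the Pascal matrix, and common eigenvectors
-/

open Matrix

namespace Pool.Agent.H66.OneArm

/-- Row `i` of `T B`. -/
noncomputable def rowS (n i j : ℕ) : ℝ :=
  (if i = 0 then 0 else offd n (i - 1) * ((i - 1 + j).choose (i - 1) : ℝ)) +
    diag n i * ((i + j).choose i : ℝ) + offd n i * ((i + 1 + j).choose (i + 1) : ℝ)

lemma rowS_eq (n i j : ℕ) : ((i : ℝ) + j) * rowS n i j = ((i + j).choose i : ℝ) *
    ((i : ℝ) ^ 2 * ((n : ℝ) ^ 2 - (i : ℝ) ^ 2) + ((i : ℝ) + j) * diag n i +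
      ((i : ℝ) + j) * (((n : ℝ) ^ 2 - ((i : ℝ) + 1) ^ 2) * ((i : ℝ) + j + 1))) := by
  have h2 : ((i : ℝ) + 1) * ((i + 1 + j).choose (i + 1) : ℝ) =
      ((i : ℝ) + j + 1) * ((i + j).choose i : ℝ) := by
    have h := Nat.add_one_mul_choose_eq (i + j) i
    have e : i + 1 + j = i + j + 1 := by omega
    rw [e]
    have h' : (((i + j + 1 : ℕ) : ℝ)) * ((i + j).choose i : ℝ) =
        ((i + j + 1).choose (i + 1) : ℝ) * ((i + 1 : ℕ) : ℝ) := by exact_mod_cast h
    push_cast at h' ⊢
    linarith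
  unfold rowS
  rcases Nat.eq_zero_or_pos i with h0 | h0
  · subst h0
    rw [if_pos rfl]
    unfold offd
    have : ((0 : ℕ) : ℝ) = 0 := Nat.cast_zero
    simp only [this] at h2 ⊢
    linear_combination ((j : ℝ) * ((n : ℝ) ^ 2 - (0 + 1) ^ 2)) * h2
  · rw [if_neg (by omega)]
    obtain ⟨k, rfl⟩ : ∃ k, i = k + 1 := ⟨i - 1, by omega⟩
    have h1 : ((k : ℝ) + 1 + j) * ((k + j).choose k : ℝ) =
        ((k : ℝ) + 1) * ((k + 1 + j).choose (k + 1) : ℝ) := by
      have h := Nat.add_one_mul_choose_eq (k + j) k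
      have e : k + 1 + j = k + j + 1 := by omega
      rw [e]
      have h' : (((k + j + 1 : ℕ) : ℝ)) * ((k + j).choose k : ℝ) =
          ((k + j + 1).choose (k + 1) : ℝ) * ((k + 1 : ℕ) : ℝ) := by exact_mod_cast h
      push_cast at h' ⊢
      linarith
    rw [Nat.add_sub_cancel]
    unfold offd
    push_cast at h2 ⊢
    linear_combination (((k : ℝ) + 1) * ((n : ℝ) ^ 2 - ((k : ℝ) + 1) ^ 2)) * h1 +
      (((k : ℝ) + 1 + j) * ((n : ℝ) ^ 2 - ((k : ℝ) + 1 + 1) ^ 2)) * h2

lemma rowS_symm (n i j : ℕ) : rowS n i j = rowS n j i := by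
  rcases Nat.eq_zero_or_pos (i + j) with h | h
  · have hi : i = 0 := by omega
    have hj : j = 0 := by omega
    rw [hi, hj]
  · have hpos : ((i : ℝ) + j) ≠ 0 := by
      have : (0 : ℝ) < ((i + j : ℕ) : ℝ) := by exact_mod_cast h
      push_cast at this
      exact this.ne'
    apply mul_left_cancel₀ hpos
    have e : ((i : ℝ) + j) * rowS n j i = ((j : ℝ) + i) * rowS n j i := by ring
    rw [e, rowS_eq, rowS_eq, add_comm j i, Nat.choose_symm_add]
    unfold diag
    ring

lemma trid_mul_pasc_apply {n : ℕ} (i j : Fin n) : (trid n * pasc n) i j = rowS n i j := by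
  have h1 : (trid n * pasc n) i j = (trid n *ᵥ fun k => pasc n k j) i := rfl
  have hi := i.2
  rw [h1, trid_mulVec]
  unfold rowS
  congr 1
  · congr 1
    by_cases h0 : (i : ℕ) = 0
    · rw [if_pos h0, if_pos h0]
    · rw [if_neg h0, if_neg h0, ext_of_lt _ (show (i : ℕ) - 1 < n by omega)]
      rfl
  · by_cases hlast : (i : ℕ) + 1 < n
    · rw [ext_of_lt _ hlast]
      rfl
    · have e : (i : ℕ) = n - 1 := by omega
      rw [e, offd_last (by omega)]
      ring

/-- The tridiagonal matrix commutes with the Pascal matrix. -/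
theorem trid_comm (n : ℕ) : trid n * pasc n = pasc n * trid n := by
  have h : (trid n * pasc n)ᵀ = pasc n * trid n := by
    rw [transpose_mul, (trid_isSymm n).eq, (pasc_isSymm n).eq]
  rw [← h]
  ext i j
  rw [transpose_apply, trid_mul_pasc_apply, trid_mul_pasc_apply, rowS_symm]

lemma offd_pos {n i : ℕ} (h : i + 1 < n) : 0 < offd n i := by
  unfold offd
  have h1 : (i : ℝ) + 1 < n := by exact_mod_cast h
  have h2 : (0 : ℝ) ≤ i := Nat.cast_nonneg i
  refine mul_pos (by linarith) ?_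
  nlinarith

/-- An eigenvector of the tridiagonal matrix is determined by its first component. -/
lemma eq_zero_of_first {n : ℕ} (v : Fin n → ℝ) (τ : ℝ) (hv : trid n *ᵥ v = τ • v)
    (h0 : ext v 0 = 0) : v = 0 := by
  have key : ∀ i, ext v i = 0 ∧ ext v (i + 1) = 0 := by
    intro i
    induction i with
    | zero =>
      refine ⟨h0, ?_⟩
      by_cases h1 : 0 + 1 < n
      · have h := congrFun hv ⟨0, by omega⟩
        rw [trid_mulVec] at h
        simp only [Pi.smul_apply, smul_eq_mul] at h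
        rw [ext_of_lt v (show 0 < n by omega)] at h0
        rw [if_pos trivial, h0] at h
        have h2 : offd n 0 * ext v (0 + 1) = 0 := by linarith
        rcases mul_eq_zero.mp h2 with h3 | h3
        · exact absurd h3 (offd_pos h1).ne'
        · exact h3
      · exact ext_of_le v (by omega)
    | succ i ih =>
      refine ⟨ih.2, ?_⟩
      by_cases h1 : i + 1 + 1 < n
      · have h := congrFun hv ⟨i + 1, by omega⟩
        rw [trid_mulVec] at h
        simp only [Pi.smul_apply, smul_eq_mul] at h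
        have e1 : v ⟨i + 1, by omega⟩ = 0 := by
          rw [← ext_of_lt v (show i + 1 < n by omega)]
          exact ih.2
        rw [if_neg (by omega), Nat.add_sub_cancel, ih.1, e1] at h
        have h2 : offd n (i + 1) * ext v (i + 1 + 1) = 0 := by linarith
        rcases mul_eq_zero.mp h2 with h3 | h3
        · exact absurd h3 (offd_pos h1).ne'
        · exact h3
      · exact ext_of_le v (by omega)
  ext i
  have := (key i).1
  rw [ext_val] at this
  exact this

/-- An eigenvector of the tridiagonal matrix is an eigenvector of the Pascal matrix. -/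
theorem pasc_mulVec {n : ℕ} (v : Fin n → ℝ) (τ : ℝ) (hv : trid n *ᵥ v = τ • v) (hv0 : v ≠ 0) :
    ext v 0 ≠ 0 ∧ pasc n *ᵥ v = ((∑ j, v j) / ext v 0) • v := by
  have h0 : ext v 0 ≠ 0 := fun h => hv0 (eq_zero_of_first v τ hv h)
  refine ⟨h0, ?_⟩
  have hn : 0 < n := by
    by_contra hcon
    exact h0 (ext_of_le v (by omega))
  set w : Fin n → ℝ := pasc n *ᵥ v - ((∑ j, v j) / ext v 0) • v with hw
  have h1 : trid n *ᵥ w = τ • w := by
    rw [hw, mulVec_sub, mulVec_smul, mulVec_mulVec, trid_comm, ← mulVec_mulVec, hv, mulVec_smul,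
      smul_sub, smul_comm]
  have h2 : ext w 0 = 0 := by
    rw [ext_of_lt w hn, hw]
    simp only [Pi.sub_apply, Pi.smul_apply, smul_eq_mul]
    have h3 : (pasc n *ᵥ v) ⟨0, hn⟩ = ∑ j, v j := by
      simp only [mulVec, dotProduct, pasc]
      exact Finset.sum_congr rfl fun j _ => by simp
    rw [h3, ← ext_of_lt v hn, div_mul_cancel₀ _ h0, sub_self]
  have h3 := eq_zero_of_first w τ h1 h2
  rw [hw] at h3
  exact sub_eq_zero.mp h3

lemma dot_self_nonneg {n : ℕ} (v : Fin n → ℝ) : 0 ≤ v ⬝ᵥ v :=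
  Finset.sum_nonneg fun i _ => mul_self_nonneg (v i)

/-- The eigenvalues of the Pascal matrix are positive. -/
lemma eigenvalue_pos {n : ℕ} (v : Fin n → ℝ) (lam : ℝ) (hv : pasc n *ᵥ v = lam • v)
    (hv0 : v ≠ 0) : 0 < lam := by
  have h1 : v ⬝ᵥ (pasc n *ᵥ v) = ((lowp n)ᵀ *ᵥ v) ⬝ᵥ ((lowp n)ᵀ *ᵥ v) := by
    rw [pasc_eq, ← mulVec_mulVec, dotProduct_mulVec, mulVec_transpose]
  rw [hv, dotProduct_smul, smul_eq_mul] at h1
  have hpos : 0 < v ⬝ᵥ v := by
    refine lt_of_le_of_ne (dot_self_nonneg v) fun h => hv0 ?_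
    exact (dotProduct_self_eq_zero.mp h.symm)
  have hpos2 : 0 < ((lowp n)ᵀ *ᵥ v) ⬝ᵥ ((lowp n)ᵀ *ᵥ v) := by
    refine lt_of_le_of_ne (dot_self_nonneg _) fun h => hv0 ?_
    have h2 := dotProduct_self_eq_zero.mp h.symm
    have hdet : IsUnit ((lowp n)ᵀ).det := by
      rw [det_transpose, det_lowp]
      exact isUnit_one
    exact (Matrix.mulVec_injective_iff_isUnit.mpr ((Matrix.isUnit_iff_isUnit_det _).mpr hdet))
      (by rw [h2, mulVec_zero])
  rw [← h1] at hpos2
  exact (pos_iff_pos_of_mul_pos hpos2).mpr hpos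

end Pool.Agent.H66.OneArm
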