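import Mathlib

/-!
# A squeeze argument for sums over a spectrum
-/

set_option autoImplicit false

open Real Filter Topology

namespace Pool.Agent.H66.OneArm

/-- Geometry of the interval `[π / 3, 2 π / 3]`. -/
private lemma squeeze_sin_ge {t : ℝ} (h1 : π / 3 ≤ t) (h2 : t ≤ 2 * π / 3) : 1 / 2 ≤ sin t := by
  have hπ := Real.pi_pos
  rcases le_total t (π / 2) with h | h
  · have : sin (π / 6) ≤ sin t :=
      Real.sin_le_sin_of_le_of_le_pi_div_two (by linarith) h (by linarith)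
    rwa [Real.sin_pi_div_six] at this
  · have : sin (π / 6) ≤ sin (π - t) :=
      Real.sin_le_sin_of_le_of_le_pi_div_two (by linarith) (by linarith) (by linarith)
    rwa [Real.sin_pi_div_six, Real.sin_pi_sub] at this

private lemma squeeze_cos_ge {t : ℝ} (h1 : π / 3 ≤ t) (h2 : t ≤ 2 * π / 3) :
    -(1 / 2) ≤ cos t := by
  have hπ := Real.pi_pos
  have h : cos (2 * π / 3) ≤ cos t :=
    Real.cos_le_cos_of_nonneg_of_le_pi (by linarith) (by linarith) h2
  have e : cos (2 * π / 3) = -(1 / 2) := by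
    have : 2 * π / 3 = π - π / 3 := by ring
    rw [this, Real.cos_pi_sub, Real.cos_pi_div_three]
  rwa [e] at h

/-- The elementary lower bound for the difference of cosines. -/
private lemma squeeze_cos_diff {s h : ℝ} (h1 : π / 3 ≤ s) (h2 : s ≤ 2 * π / 3) (hh : 0 < h)
    (hh1 : h ≤ 1) : (h - 2 * h ^ 2) * sin s ≤ cos s - cos (s + h) := by
  have hs := squeeze_sin_ge h1 h2
  have hc := squeeze_cos_ge h1 h2
  rw [Real.cos_add]
  have f1 : 1 - h ^ 2 / 2 ≤ cos h := Real.one_sub_sq_div_two_le_cos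
  have f2 : h - h ^ 3 / 4 < sin h := by
    have f0 := Real.sin_gt_sub_cube hh
    have f00 : 0 < h ^ 3 := by positivity
    linarith
  have f3 : cos h ≤ 1 := Real.cos_le_one h
  have g1 : -(sin s * (h ^ 2 / 2)) ≤ cos s * (1 - cos h) := by
    have a1 : -(sin s) * (1 - cos h) ≤ cos s * (1 - cos h) :=
      mul_le_mul_of_nonneg_right (by linarith) (by linarith)
    have a2 : sin s * (1 - cos h) ≤ sin s * (h ^ 2 / 2) :=
      mul_le_mul_of_nonneg_left (by linarith) (by linarith)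
    linarith
  have g2 : sin s * (h - h ^ 3 / 4) ≤ sin s * sin h :=
    mul_le_mul_of_nonneg_left f2.le (by linarith)
  have g3 : (h - 2 * h ^ 2) * sin s ≤ sin s * (h - h ^ 3 / 4) - sin s * (h ^ 2 / 2) := by
    have : 0 ≤ sin s * (h ^ 2 * (3 / 2 - h / 4)) := by
      apply mul_nonneg (by linarith)
      apply mul_nonneg (sq_nonneg h)
      linarith
    nlinarith [this]
  have e : cos s - (cos s * cos h - sin s * sin h) = cos s * (1 - cos h) + sin s * sin h := by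
    ring
  rw [e]
  linarith

/-- The sum of logarithms. -/
private noncomputable def FF {κ : Type} [Fintype κ] (μ : κ → ℝ) (t : ℝ) : ℝ :=
  ∑ k, log (2 * cos t + 2 * cosh (μ k))

private lemma squeeze_pos {t : ℝ} (h1 : π / 3 ≤ t) (h2 : t ≤ 2 * π / 3) (x : ℝ) :
    0 < cos t + cosh x := by
  have := squeeze_cos_ge h1 h2
  have := Real.one_le_cosh x
  linarith

/-- One step. -/
private lemma squeeze_step {κ : Type} [Fintype κ] (μ : κ → ℝ) {s h δ Lg : ℝ} (h1 : π / 3 ≤ s)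
    (h2 : s + h ≤ 2 * π / 3) (hh : 0 < h) (hh1 : h ≤ 1 / 2) (hδ0 : 0 ≤ δ)
    (hδ1 : δ ≤ 1 / 4)
    (hL : 0 ≤ Lg)
    (hS : (3 * s / π ^ 2 - δ) * Lg ≤ ∑ k, sin s / (cos s + cosh (μ k))) :
    (3 / (2 * π ^ 2) * ((s + h) ^ 2 - s ^ 2) - h * (δ + 2 * h)) * Lg ≤
      FF μ s - FF μ (s + h) := by
  have hπ := Real.pi_pos
  have hπ3 := Real.pi_gt_three
  have hπ4 := Real.pi_lt_four
  have hs2 : s ≤ 2 * π / 3 := by linarith
  have hs0 : 0 < s := by linarith
  have hsin := squeeze_sin_ge h1 hs2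
  have hcd := squeeze_cos_diff h1 hs2 hh (by linarith)
  have hκ0 : 0 ≤ (h - 2 * h ^ 2) * sin s := by
    apply mul_nonneg _ (by linarith)
    nlinarith
  -- termwise
  have hterm : ∀ k, (cos s - cos (s + h)) / sin s * (sin s / (cos s + cosh (μ k))) ≤
      log (2 * cos s + 2 * cosh (μ k)) - log (2 * cos (s + h) + 2 * cosh (μ k)) := by
    intro k
    have p1 := squeeze_pos h1 hs2 (μ k)
    have p2 := squeeze_pos (t := s + h) (by linarith) h2 (μ k)
    have hx : 0 < 2 * cos s + 2 * cosh (μ k) := by linarith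
    have hy : 0 < 2 * cos (s + h) + 2 * cosh (μ k) := by linarith
    have hlog := Real.log_le_sub_one_of_pos (div_pos hy hx)
    rw [Real.log_div hy.ne' hx.ne'] at hlog
    have e1 : (cos s - cos (s + h)) / sin s * (sin s / (cos s + cosh (μ k))) =
        1 - (2 * cos (s + h) + 2 * cosh (μ k)) / (2 * cos s + 2 * cosh (μ k)) := by
      have : sin s ≠ 0 := by linarith
      field_simp
      ring
    rw [e1]
    linarith
  have hsum : (cos s - cos (s + h)) / sin s * ∑ k, sin s / (cos s + cosh (μ k)) ≤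
      FF μ s - FF μ (s + h) := by
    unfold FF
    rw [Finset.mul_sum, ← Finset.sum_sub_distrib]
    exact Finset.sum_le_sum fun k _ => hterm k
  have hκ : h - 2 * h ^ 2 ≤ (cos s - cos (s + h)) / sin s := by
    rw [le_div_iff₀ (by linarith)]
    exact hcd
  have hκ1 : 0 ≤ h - 2 * h ^ 2 := by nlinarith
  have hden : 0 ≤ 3 * s / π ^ 2 - δ := by
    have : 1 / 4 ≤ 3 * s / π ^ 2 := by
      rw [div_le_div_iff₀ (by norm_num) (by positivity)]
      nlinarith
    linarith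
  have hstep : (h - 2 * h ^ 2) * ((3 * s / π ^ 2 - δ) * Lg) ≤ FF μ s - FF μ (s + h) := by
    calc (h - 2 * h ^ 2) * ((3 * s / π ^ 2 - δ) * Lg)
        ≤ (cos s - cos (s + h)) / sin s * ((3 * s / π ^ 2 - δ) * Lg) :=
          mul_le_mul_of_nonneg_right hκ (mul_nonneg hden hL)
      _ ≤ (cos s - cos (s + h)) / sin s * ∑ k, sin s / (cos s + cosh (μ k)) :=
          mul_le_mul_of_nonneg_left hS (hκ1.trans hκ)
      _ ≤ _ := hsum
  refine le_trans ?_ hstep
  rw [← mul_assoc]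
  apply mul_le_mul_of_nonneg_right _ hL
  -- numeric comparison
  have hq : 0 < π ^ 2 := by positivity
  have e1 : 3 / (2 * π ^ 2) * ((s + h) ^ 2 - s ^ 2) = 3 * s / π ^ 2 * h + 3 / (2 * π ^ 2) * h ^ 2 := by
    field_simp
    ring
  have e2 : 3 / (2 * π ^ 2) ≤ 1 / 6 := by
    rw [div_le_div_iff₀ (by positivity) (by norm_num)]
    nlinarith
  have e3 : 3 * s / π ^ 2 ≤ 2 / 3 := by
    rw [div_le_div_iff₀ (by positivity) (by norm_num)]
    nlinarith
  have e4 : 3 / (2 * π ^ 2) * h ^ 2 ≤ 1 / 6 * h ^ 2 :=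
    mul_le_mul_of_nonneg_right e2 (sq_nonneg h)
  have e5 : 3 * s / π ^ 2 * (2 * h ^ 2) ≤ 2 / 3 * (2 * h ^ 2) :=
    mul_le_mul_of_nonneg_right e3 (by positivity)
  have e6 : 0 ≤ δ * h ^ 2 := by positivity
  rw [e1]
  have key : (h - 2 * h ^ 2) * (3 * s / π ^ 2 - δ) = 3 * s / π ^ 2 * h - 3 * s / π ^ 2 * (2 * h ^ 2)
      - δ * h + 2 * (δ * h ^ 2) := by ring
  rw [key]
  nlinarith [sq_nonneg h]

/-- The lower bound for the difference over an interval. -/
private lemma squeeze_lower {ι : ℕ → Type} [∀ n, Fintype (ι n)] (μ : ∀ n, ι n → ℝ)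
    (hlow : ∀ t, 0 < t → t < π → ∀ ε > 0, ∀ᶠ n : ℕ in atTop,
      (3 * t / π ^ 2 - ε) * log n ≤ ∑ k, sin t / (cos t + cosh (μ n k)))
    {a b : ℝ} (ha : π / 3 ≤ a) (hab : a ≤ b) (hb : b ≤ 2 * π / 3) {ε : ℝ} (hε : 0 < ε) :
    ∀ᶠ n : ℕ in atTop, (3 / (2 * π ^ 2) * (b ^ 2 - a ^ 2) - ε) * log n ≤
      FF (μ n) a - FF (μ n) b := by
  have hπ := Real.pi_pos
  have hπ4 := Real.pi_lt_four
  rcases hab.eq_or_lt with rfl | hlt
  · filter_upwards [eventually_ge_atTop 1] with n hn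
    have : 0 ≤ log (n : ℝ) := Real.log_nonneg (by exact_mod_cast hn)
    nlinarith
  -- the partition
  set D := b - a with hD
  have hD0 : 0 < D := by linarith
  have hD2 : D ≤ 2 := by linarith
  obtain ⟨N, hN⟩ := exists_nat_gt (max (2 * D) (8 * D / ε))
  have hN1 : 2 * D < N := lt_of_le_of_lt (le_max_left _ _) hN
  have hN2 : 8 * D / ε < N := lt_of_le_of_lt (le_max_right _ _) hN
  have hN0 : (0 : ℝ) < N := by linarith
  set h := D / N with hh
  have hh0 : 0 < h := by positivity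
  have hh1 : h ≤ 1 / 2 := by
    rw [hh, div_le_div_iff₀ hN0 (by norm_num)]
    linarith
  have hh2 : h ≤ ε / 8 := by
    rw [hh, div_le_div_iff₀ hN0 (by norm_num)]
    rw [div_lt_iff₀ hε] at hN2
    linarith
  have hNh : N * h = D := by
    rw [hh]
    field_simp
  set δ := min (1 / 4) (ε / 4) with hδ
  have hδ0 : 0 < δ := lt_min (by norm_num) (by linarith)
  have hδ1 : δ ≤ 1 / 4 := min_le_left _ _
  have hδ2 : δ ≤ ε / 4 := min_le_right _ _
  have ht : ∀ i : ℕ, i < N → a + (i + 1 : ℕ) * h ≤ b := by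
    intro i hi
    have : ((i + 1 : ℕ) : ℝ) ≤ N := by exact_mod_cast hi
    have := mul_le_mul_of_nonneg_right this hh0.le
    linarith
  have hev : ∀ᶠ n : ℕ in atTop, ∀ i ∈ Finset.range N,
      (3 * (a + i * h) / π ^ 2 - δ) * log n ≤
        ∑ k, sin (a + i * h) / (cos (a + i * h) + cosh (μ n k)) := by
    rw [Filter.eventually_all_finset]
    intro i hi
    rw [Finset.mem_range] at hi
    have h1 : (0 : ℝ) ≤ i * h := by positivity
    have h2 := ht i hi
    push_cast at h2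
    exact hlow (a + i * h) (by linarith) (by linarith) δ hδ0
  filter_upwards [hev, eventually_ge_atTop 1] with n hn hn1
  have hL : 0 ≤ log (n : ℝ) := Real.log_nonneg (by exact_mod_cast hn1)
  have hstep : ∀ i ∈ Finset.range N,
      (3 / (2 * π ^ 2) * ((a + (i + 1 : ℕ) * h) ^ 2 - (a + i * h) ^ 2) - h * (δ + 2 * h)) *
        log n ≤ FF (μ n) (a + i * h) - FF (μ n) (a + (i + 1 : ℕ) * h) := by
    intro i hi
    have hi' := Finset.mem_range.1 hi
    have h1 : (0 : ℝ) ≤ i * h := by positivity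
    have h2 := ht i hi'
    have e : a + ((i + 1 : ℕ) : ℝ) * h = a + i * h + h := by push_cast; ring
    rw [e] at h2 ⊢
    exact squeeze_step (μ n) (by linarith) (by linarith) hh0 hh1 hδ0.le hδ1 hL (hn i hi)
  have hsum := Finset.sum_le_sum hstep
  rw [← Finset.sum_mul, Finset.sum_range_sub' (fun i : ℕ => FF (μ n) (a + i * h)),
    Finset.sum_sub_distrib, ← Finset.mul_sum,
    Finset.sum_range_sub (fun i : ℕ => (a + i * h) ^ 2)] at hsum
  simp only [Nat.cast_zero, zero_mul, add_zero, Finset.sum_const, Finset.card_range,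
    nsmul_eq_mul] at hsum
  have e1 : a + (N : ℝ) * h = b := by rw [hNh, hD]; ring
  rw [e1] at hsum
  refine le_trans ?_ hsum
  apply mul_le_mul_of_nonneg_right _ hL
  have e2 : (N : ℝ) * (h * (δ + 2 * h)) = D * (δ + 2 * h) := by rw [← mul_assoc, hNh]
  rw [e2]
  have e3 : D * (δ + 2 * h) ≤ 2 * (ε / 4 + 2 * (ε / 8)) := by
    apply mul_le_mul hD2 (by linarith) (by positivity) (by norm_num)
  linarith

/-- The difference of the sums of logarithms as a sum of logarithms of quotients. -/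
private lemma squeeze_FF_sub {κ : Type} [Fintype κ] (μ : κ → ℝ) {a b : ℝ} (ha : π / 3 ≤ a)
    (ha' : a ≤ 2 * π / 3) (hb : π / 3 ≤ b) (hb' : b ≤ 2 * π / 3) :
    ∑ k, log ((2 * cos a + 2 * cosh (μ k)) / (2 * cos b + 2 * cosh (μ k))) =
      FF μ a - FF μ b := by
  unfold FF
  rw [← Finset.sum_sub_distrib]
  refine Finset.sum_congr rfl fun k _ => ?_
  have p1 := squeeze_pos ha ha' (μ k)
  have p2 := squeeze_pos hb hb' (μ k)
  rw [Real.log_div (by linarith) (by linarith)]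

theorem squeeze {ν : ℕ → ℕ} (hν : Tendsto ν atTop atTop) {ι : ℕ → Type} [∀ n, Fintype (ι n)] (μ : ∀ n, ι n → ℝ)
    (hlow : ∀ t, 0 < t → t < π → ∀ ε > 0, ∀ᶠ n : ℕ in atTop, (3 * t / π ^ 2 - ε) * log n ≤ ∑ k, sin t / (cos t + cosh (μ n k)))
    (htot : Tendsto (fun m => (∑ k, log ((1 + 2 * cosh (μ (ν m) k)) / (-1 + 2 * cosh (μ (ν m) k)))) / log (ν m)) atTop (𝓝 (1 / 2)))
    {θ : ℝ} (hθ : π / 3 ≤ θ) (hθ' : θ ≤ 2 * π / 3) :
    Tendsto (fun m => (∑ k, log ((1 + 2 * cosh (μ (ν m) k)) / (2 * cos θ + 2 * cosh (μ (ν m) k)))) / log (ν m)) atTop (𝓝 (3 / (2 * π ^ 2) * (θ ^ 2 - π ^ 2 / 9))) := by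
  have hπ := Real.pi_pos
  have c1 : (1 : ℝ) = 2 * cos (π / 3) := by rw [Real.cos_pi_div_three]; norm_num
  have c2 : (-1 : ℝ) = 2 * cos (2 * π / 3) := by
    have : 2 * π / 3 = π - π / 3 := by ring
    rw [this, Real.cos_pi_sub, Real.cos_pi_div_three]
    norm_num
  have A0 : π / 3 ≤ π / 3 := le_rfl
  have A1 : π / 3 ≤ 2 * π / 3 := by linarith
  have A2 : 2 * π / 3 ≤ 2 * π / 3 := le_rfl
  have E1 : ∀ n : ℕ, ∑ k, log ((1 + 2 * cosh (μ n k)) / (-1 + 2 * cosh (μ n k))) =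
      FF (μ n) (π / 3) - FF (μ n) (2 * π / 3) := by
    intro n
    rw [← squeeze_FF_sub (μ n) A0 A1 A1 A2, ← c1, ← c2]
  have E2 : ∀ n : ℕ, ∑ k, log ((1 + 2 * cosh (μ n k)) / (2 * cos θ + 2 * cosh (μ n k))) =
      FF (μ n) (π / 3) - FF (μ n) θ := by
    intro n
    rw [← squeeze_FF_sub (μ n) A0 A1 hθ hθ', ← c1]
  simp only [E1] at htot
  simp only [E2]
  rw [Metric.tendsto_atTop] at htot ⊢
  intro ε hε
  obtain ⟨N1, hN1⟩ := htot (ε / 4) (by linarith)
  have L1 := hν.eventually (squeeze_lower μ hlow A0 hθ hθ' (ε := ε / 4) (by linarith))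
  have L2 := hν.eventually (squeeze_lower μ hlow hθ hθ' A2 (ε := ε / 4) (by linarith))
  have L3 := hν.eventually (eventually_ge_atTop 2)
  obtain ⟨N2, hN2⟩ := ((L1.and L2).and L3).exists_forall_of_atTop
  refine ⟨max N1 N2, fun m hm => ?_⟩
  have h1 := hN1 m ((le_max_left _ _).trans hm)
  obtain ⟨⟨h2, h3⟩, h4⟩ := hN2 m ((le_max_right _ _).trans hm)
  have hlog : 0 < log (ν m : ℝ) := Real.log_pos (by exact_mod_cast h4)
  rw [Real.dist_eq, abs_lt] at h1 ⊢
  set X := FF (μ (ν m)) (π / 3)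
  set Y := FF (μ (ν m)) θ
  set Z := FF (μ (ν m)) (2 * π / 3)
  have e1 : (X - Z) / log (ν m : ℝ) = (X - Y) / log (ν m : ℝ) + (Y - Z) / log (ν m : ℝ) := by
    rw [← add_div]; congr 1; ring
  have f2 := (le_div_iff₀ hlog).2 h2
  have f3 := (le_div_iff₀ hlog).2 h3
  have e2 : 3 / (2 * π ^ 2) * ((2 * π / 3) ^ 2 - θ ^ 2) =
      1 / 2 - 3 / (2 * π ^ 2) * (θ ^ 2 - π ^ 2 / 9) := by
    field_simp
    ring
  have e3 : 3 / (2 * π ^ 2) * (θ ^ 2 - (π / 3) ^ 2) = 3 / (2 * π ^ 2) * (θ ^ 2 - π ^ 2 / 9) := by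
    ring
  rw [e2] at f3
  rw [e3] at f2
  rw [e1] at h1
  obtain ⟨h5, h6⟩ := h1
  constructor <;> linarith

end Pool.Agent.H66.OneArm
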