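import Pool.Agent.H66.OneArm.LowerB
import Pool.Agent.H66.OneArm.Squeeze

/-!
# The one-arm exponent
-/

open Filter Topology Real Matrix

namespace Pool.Agent.H66.OneArm

lemma factor_pos {w : ℝ} (hw : -2 < w) (m : ℝ) : 0 < w + 2 * cosh m := by
  linarith [one_le_cosh m]

lemma det_pos {w : ℝ} (hw : -2 < w) (n : ℕ) : 0 < (1 + w • pasc n + pasc n ^ 2).det := by
  rw [det_eq_prod_cosh]
  exact Finset.prod_pos fun k _ => factor_pos hw _

lemma log_det_div {w w' : ℝ} (hw : -2 < w) (hw' : -2 < w') (n : ℕ) :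
    log ((1 + w • pasc n + pasc n ^ 2).det / (1 + w' • pasc n + pasc n ^ 2).det) =
      ∑ k, log ((w + 2 * cosh (mu n k)) / (w' + 2 * cosh (mu n k))) := by
  rw [det_eq_prod_cosh, det_eq_prod_cosh, ← Finset.prod_div_distrib,
    Real.log_prod fun k _ => (div_pos (factor_pos hw _) (factor_pos hw' _)).ne']

/-- **The asymptotics of the determinants** `det (1 + 2 cos θ B + B²)` along a sequence of sizes on which
the ratio at `θ = π/3, 2π/3` is known. -/
theorem tendsto_log_det {ν : ℕ → ℕ} (hν : Tendsto ν atTop atTop)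
    (htot : Tendsto (fun m => log ((1 + (1 : ℝ) • pasc (ν m) + pasc (ν m) ^ 2).det /
      (1 + (-1 : ℝ) • pasc (ν m) + pasc (ν m) ^ 2).det) / log (ν m)) atTop (𝓝 (1 / 2)))
    {θ : ℝ} (hθ : π / 3 ≤ θ) (hθ' : θ ≤ 2 * π / 3) :
    Tendsto (fun m => log ((1 + (1 : ℝ) • pasc (ν m) + pasc (ν m) ^ 2).det /
      (1 + (2 * cos θ) • pasc (ν m) + pasc (ν m) ^ 2).det) / log (ν m)) atTop
      (𝓝 (3 / (2 * π ^ 2) * (θ ^ 2 - π ^ 2 / 9))) := by
  have hπ := pi_pos
  have hcos : -2 < 2 * cos θ := by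
    have := neg_one_lt_cos (t := θ) (by linarith) (by linarith)
    linarith
  have h := squeeze hν (ι := fun n => Fin n) (fun n k => mu n k)
    (fun t h0 h1 ε hε => lower_bound h0 h1 hε) (by
      refine htot.congr fun m => ?_
      rw [log_det_div (by norm_num) (by norm_num)]) hθ hθ'
  refine h.congr fun m => ?_
  rw [log_det_div (by norm_num) hcos]

/-- **The one-arm exponent** `5/48` from the four-arm type exponent of the total. -/
theorem oneArm_exponent {ν : ℕ → ℕ} (hν : Tendsto ν atTop atTop)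
    (htot : Tendsto (fun m => log ((1 + pasc (ν m) + pasc (ν m) ^ 2).det /
      (1 - pasc (ν m) + pasc (ν m) ^ 2).det) / log (ν m)) atTop (𝓝 (1 / 2))) :
    Tendsto (fun m => log (√((1 + pasc (ν m) ^ 2).det / (1 + pasc (ν m) + pasc (ν m) ^ 2).det)) /
      log (ν m)) atTop (𝓝 (-(5 / 48))) := by
  have hπ := pi_pos
  have h := tendsto_log_det hν (by
    refine htot.congr fun m => ?_
    rw [one_smul, neg_one_smul, ← sub_eq_add_neg]) (θ := π / 2) (by linarith) (by linarith)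
  have e : 3 / (2 * π ^ 2) * ((π / 2) ^ 2 - π ^ 2 / 9) = 5 / 24 := by
    field_simp
    ring
  rw [e] at h
  have h2 := h.const_mul (-(1 / 2))
  have e2 : -(1 / 2) * (5 / 24 : ℝ) = -(5 / 48) := by norm_num
  rw [e2] at h2
  refine h2.congr fun m => ?_
  have e3 : (2 * cos (π / 2)) • pasc (ν m) = 0 := by simp
  rw [e3, add_zero, one_smul]
  have p1 := det_pos (w := 1) (by norm_num) (ν m)
  have p0 := det_pos (w := 0) (by norm_num) (ν m)
  rw [one_smul] at p1
  rw [zero_smul, add_zero] at p0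
  rw [Real.log_sqrt (div_pos p0 p1).le, Real.log_div p1.ne' p0.ne', Real.log_div p0.ne' p1.ne']
  ring

/-- The same as a two-sided bound. -/
theorem oneArm_bounds {ν : ℕ → ℕ} (hν : Tendsto ν atTop atTop)
    (htot : Tendsto (fun m => log ((1 + pasc (ν m) + pasc (ν m) ^ 2).det /
      (1 - pasc (ν m) + pasc (ν m) ^ 2).det) / log (ν m)) atTop (𝓝 (1 / 2))) {ε : ℝ} (hε : 0 < ε) :
    ∀ᶠ m in atTop, (ν m : ℝ) ^ (-(5 / 48) - ε) ≤
        √((1 + pasc (ν m) ^ 2).det / (1 + pasc (ν m) + pasc (ν m) ^ 2).det) ∧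
      √((1 + pasc (ν m) ^ 2).det / (1 + pasc (ν m) + pasc (ν m) ^ 2).det) ≤
        (ν m : ℝ) ^ (-(5 / 48) + ε) := by
  have h := oneArm_exponent hν htot
  have hν' : Tendsto (fun m => (ν m : ℝ)) atTop atTop := tendsto_natCast_atTop_atTop.comp hν
  have hl : ∀ᶠ m in atTop, 0 < log (ν m : ℝ) :=
    (tendsto_log_atTop.comp hν').eventually_gt_atTop 0
  filter_upwards [h.eventually (eventually_ge_nhds (show -(5 / 48) - ε < -(5 / 48) by linarith)),
    h.eventually (eventually_le_nhds (show -(5 / 48) < -(5 / 48) + ε by linarith)), hl,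
    hν'.eventually_gt_atTop 0] with m h1 h2 h3 h4
  have p1 := det_pos (w := 1) (by norm_num) (ν m)
  have p0 := det_pos (w := 0) (by norm_num) (ν m)
  rw [one_smul] at p1
  rw [zero_smul, add_zero] at p0
  have hs : 0 < √((1 + pasc (ν m) ^ 2).det / (1 + pasc (ν m) + pasc (ν m) ^ 2).det) :=
    Real.sqrt_pos.mpr (div_pos p0 p1)
  rw [le_div_iff₀ h3] at h1
  rw [div_le_iff₀ h3] at h2
  constructor
  · rw [← Real.exp_log hs, Real.rpow_def_of_pos h4]
    exact Real.exp_le_exp.mpr (by linarith)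
  · rw [← Real.exp_log hs, Real.rpow_def_of_pos h4]
    exact Real.exp_le_exp.mpr (by linarith)

end Pool.Agent.H66.OneArm
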