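import Pool.Agent.H66.OneArm.Convex

/-!
# The functions `h` and `H`
-/

open Filter Topology Real

namespace Pool.Agent.H66.OneArm

/-- `sin t / (cos t + cosh m)`. -/
noncomputable def hh (t m : ℝ) : ℝ := sin t / (cos t + cosh m)

/-- The truncated function of the energy. -/
noncomputable def HH (t X E : ℝ) : ℝ := max (hh t (2 * π / 3 * √(E / 3)) - hh t (2 * π * X / 3)) 0

lemma neg_one_lt_cos {t : ℝ} (h0 : 0 < t) (h1 : t < π) : -1 < cos t := by
  rw [← cos_pi]
  exact cos_lt_cos_of_nonneg_of_le_pi h0.le le_rfl h1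

lemma den_pos {t : ℝ} (h0 : 0 < t) (h1 : t < π) (m : ℝ) : 0 < cos t + cosh m := by
  linarith [neg_one_lt_cos h0 h1, one_le_cosh m]

lemma hh_pos {t : ℝ} (h0 : 0 < t) (h1 : t < π) (m : ℝ) : 0 < hh t m :=
  div_pos (sin_pos_of_pos_of_lt_pi h0 h1) (den_pos h0 h1 m)

lemma hh_anti {t : ℝ} (h0 : 0 < t) (h1 : t < π) {m m' : ℝ} (h : |m| ≤ |m'|) :
    hh t m' ≤ hh t m := by
  have h2 := Real.cosh_le_cosh.mpr h
  exact div_le_div_of_nonneg_left (sin_pos_of_pos_of_lt_pi h0 h1).le (den_pos h0 h1 m) (by linarith)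

lemma HH_nonneg (t X E : ℝ) : 0 ≤ HH t X E := le_max_right _ _

lemma HH_anti {t X : ℝ} (h0 : 0 < t) (h1 : t < π) {E E' : ℝ} (h : E ≤ E') :
    HH t X E' ≤ HH t X E := by
  unfold HH
  apply max_le_max _ le_rfl
  have h2 : √(E / 3) ≤ √(E' / 3) := Real.sqrt_le_sqrt (by linarith)
  have h3 : hh t (2 * π / 3 * √(E' / 3)) ≤ hh t (2 * π / 3 * √(E / 3)) := by
    apply hh_anti h0 h1
    have := pi_pos
    rw [abs_of_nonneg (by positivity), abs_of_nonneg (by positivity)]
    exact mul_le_mul_of_nonneg_left h2 (by positivity)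
  linarith

lemma HH_convex {t X : ℝ} (h0 : 0 < t) (h1 : t < π) : ConvexOn ℝ (Set.Ici 0) (HH t X) := by
  have hπ := pi_pos
  have h2 := convexOn_inv_cosh (c := cos t) (neg_one_lt_cos h0 h1) (cos_le_one t)
    (a := 2 * π / 3 / √3) (by positivity)
  have h3 := (h2.smul (sin_pos_of_pos_of_lt_pi h0 h1).le).add
    (convexOn_const (-hh t (2 * π * X / 3)) (convex_Ici (0 : ℝ)))
  have h4 := h3.sup (convexOn_const (0 : ℝ) (convex_Ici (0 : ℝ)))
  have e : HH t X = ((sin t • (fun E : ℝ => 1 / (cos t + cosh (2 * π / 3 / √3 * √E)))) +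
      fun _ => -hh t (2 * π * X / 3)) ⊔ fun _ => 0 := by
    funext E
    simp only [Pi.sup_apply, Pi.add_apply, Pi.smul_apply, smul_eq_mul]
    unfold HH
    have h5 : 2 * π / 3 * √(E / 3) = 2 * π / 3 / √3 * √E := by
      rw [Real.sqrt_div' E (by norm_num)]
      ring
    rw [h5]
    unfold hh
    rw [mul_one_div, ← sub_eq_add_neg]
  rw [e]
  exact h4

lemma HH_ge {t X : ℝ} {a : ℝ} (ha : 0 ≤ a) :
    hh t (2 * π / 3 * a) - hh t (2 * π * X / 3) ≤ HH t X (3 * a ^ 2) := by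
  unfold HH
  have : 3 * a ^ 2 / 3 = a ^ 2 := by ring
  rw [this, Real.sqrt_sq ha]
  exact le_max_left _ _

/-! ### The hyperbolic tangent -/

lemma tanh_mono {x y : ℝ} (h : x ≤ y) : tanh x ≤ tanh y := by
  rw [Real.tanh_eq_sinh_div_cosh, Real.tanh_eq_sinh_div_cosh, div_le_div_iff₀ (cosh_pos x) (cosh_pos y)]
  have h1 : 0 ≤ sinh (y - x) := Real.sinh_nonneg_iff.mpr (by linarith)
  rw [Real.sinh_sub] at h1
  linarith

lemma tanh_nonneg' {x : ℝ} (h : 0 ≤ x) : 0 ≤ tanh x := by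
  have := tanh_mono h
  rwa [Real.tanh_zero] at this

lemma tanh_ge {x : ℝ} (hx : 0 ≤ x) : 1 - exp (-x) ≤ tanh x := by
  rw [Real.tanh_eq_sinh_div_cosh, le_div_iff₀ (cosh_pos x)]
  have h1 : cosh x - sinh x = exp (-x) := Real.cosh_sub_sinh x
  have h2 := one_le_cosh x
  have h3 := exp_pos (-x)
  nlinarith

lemma tendsto_tanh : Tendsto tanh atTop (𝓝 1) := by
  have h1 : Tendsto (fun x : ℝ => 1 - exp (-x)) atTop (𝓝 (1 - 0)) :=
    tendsto_const_nhds.sub (tendsto_exp_neg_atTop_nhds_zero)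
  rw [sub_zero] at h1
  refine tendsto_of_tendsto_of_tendsto_of_le_of_le' h1 tendsto_const_nhds ?_ ?_
  · filter_upwards [eventually_ge_atTop (0 : ℝ)] with x hx using tanh_ge hx
  · exact Eventually.of_forall fun x => (tanh_lt_one x).le

lemma tan_half_pos {t : ℝ} (h0 : 0 < t) (h1 : t < π) : 0 < tan (t / 2) :=
  tan_pos_of_pos_of_lt_pi_div_two (by linarith) (by linarith)

/-- The choice of the cut-off. -/
lemma exists_X {t κ : ℝ} (h0 : 0 < t) (h1 : t < π) (hκ : 0 < κ) :
    ∃ X : ℝ, 0 < X ∧ t - κ ≤ 2 * arctan (tan (t / 2) * tanh (π * X / 3)) ∧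
      2 * π / 3 * X * hh t (2 * π * X / 3) ≤ κ := by
  have hπ := pi_pos
  have h2 : Tendsto (fun X : ℝ => 2 * arctan (tan (t / 2) * tanh (π * X / 3))) atTop (𝓝 t) := by
    have h3 : Tendsto (fun X : ℝ => π * X / 3) atTop atTop := by
      have : (fun X : ℝ => π * X / 3) = fun X => (π / 3) * X := by
        funext X
        ring
      rw [this]
      exact tendsto_id.const_mul_atTop (by positivity)
    have h4 := ((continuous_arctan.tendsto _).comp
      ((tendsto_tanh.comp h3).const_mul (tan (t / 2)))).const_mul 2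
    rw [mul_one, arctan_tan (by linarith) (by linarith)] at h4
    have e : 2 * (t / 2) = t := by ring
    rw [e] at h4
    exact h4
  have h5 : ∀ᶠ X : ℝ in atTop, t - κ ≤ 2 * arctan (tan (t / 2) * tanh (π * X / 3)) :=
    h2.eventually (eventually_ge_nhds (by linarith))
  obtain ⟨X, hX1, hX2⟩ := (h5.and (eventually_ge_atTop (max 1 (1 / κ)))).exists
  have hX3 : 1 ≤ X := (le_max_left _ _).trans hX2
  have hX4 : 1 / κ ≤ X := (le_max_right _ _).trans hX2
  refine ⟨X, by linarith, hX1, ?_⟩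
  have hX0 : 0 < X := by linarith
  -- `hh ≤ 2 / m²`
  set m := 2 * π * X / 3 with hm
  have hm0 : 0 < m := by positivity
  have h6 : hh t m ≤ 2 / m ^ 2 := by
    have h7 : m ^ 2 / 2 ≤ cos t + cosh m := by
      have := neg_one_lt_cos h0 h1
      have h8 : 1 + m ^ 2 / 2 ≤ cosh m := by
        have h9 := Real.cosh_eq m
        have h10 := Real.quadratic_le_exp_of_nonneg hm0.le
        have h11 : cosh m = 1 + 2 * sinh (m / 2) ^ 2 := by
          have := Real.cosh_two_mul (m / 2)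
          have h12 := Real.cosh_sq (m / 2)
          rw [show 2 * (m / 2) = m by ring] at this
          rw [this, h12]
          ring
        have h13 : m / 2 ≤ sinh (m / 2) := Real.self_le_sinh_iff.mpr (by linarith)
        have h14 : (m / 2) ^ 2 ≤ sinh (m / 2) ^ 2 := pow_le_pow_left₀ (by linarith) h13 2
        rw [h11]
        linarith
      linarith
    unfold hh
    rw [div_le_div_iff₀ (den_pos h0 h1 m) (by positivity)]
    have := sin_le_one t
    nlinarith [sq_nonneg m, sin_pos_of_pos_of_lt_pi h0 h1]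
  have e : 2 * π / 3 * X = m := by rw [hm]; ring
  rw [e]
  calc m * hh t m ≤ m * (2 / m ^ 2) := mul_le_mul_of_nonneg_left h6 hm0.le
    _ = 2 / m := by field_simp
    _ ≤ 1 / X := by
      rw [div_le_div_iff₀ hm0 hX0, hm]
      have : (3 : ℝ) ≤ π := pi_gt_three.le
      nlinarith
    _ ≤ κ := by
      rw [div_le_iff₀ hκ] at hX4
      rw [div_le_iff₀ hX0]
      linarith

/-- The choice of the lower cut-off. -/
lemma exists_s {t κ : ℝ} (hκ : 0 < κ) :
    ∃ s : ℝ, 0 < s ∧ 2 * arctan (tan (t / 2) * tanh s) ≤ κ := by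
  have h2 : Tendsto (fun s : ℝ => 2 * arctan (tan (t / 2) * tanh s)) (𝓝 0) (𝓝 0) := by
    have h3 : Continuous fun s : ℝ => 2 * arctan (tan (t / 2) * (sinh s / cosh s)) := by
      have : Continuous fun s : ℝ => sinh s / cosh s :=
        continuous_sinh.div₀ continuous_cosh fun s => (cosh_pos s).ne'
      exact (continuous_arctan.comp (this.const_mul _)).const_mul _
    have h4 := h3.tendsto 0
    simp only [sinh_zero, zero_div, mul_zero, arctan_zero] at h4
    simpa only [Real.tanh_eq_sinh_div_cosh] using h4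
  have h5 : ∀ᶠ s : ℝ in 𝓝[>] 0, 2 * arctan (tan (t / 2) * tanh s) ≤ κ :=
    (h2.mono_left nhdsWithin_le_nhds).eventually (eventually_le_nhds hκ)
  obtain ⟨s, hs1, hs2⟩ := (h5.and self_mem_nhdsWithin).exists
  exact ⟨s, hs2, hs1⟩

end Pool.Agent.H66.OneArm
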