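import Pool.Agent.H66.OneArm.QuasiJ

/-!
# Existence of the quasi-modes
-/

open Matrix Filter Topology Real

namespace Pool.Agent.H66.OneArm

/-- M4 (quasi-modes). -/
theorem exists_quasi {X δ η : ℝ} (hX : 0 < X) (hδ : 0 < δ) (hδ' : δ < 1 / 4) (hη : 0 < η) :
    ∀ᶠ n : ℕ in atTop, ∃ (l : ℝ) (K : ℕ) (u : Fin K → Bool → Fin n → ℝ),
      (1 - 3 * δ) * log n ≤ l ∧ l ≤ log n ∧ X * l / π - 1 ≤ K ∧ (K : ℝ) ≤ X * l / π ∧
      (∀ k b k' b', |u k b ⬝ᵥ u k' b' - (if k = k' ∧ b = b' then 1 else 0)| ≤ η / (2 * log n)) ∧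
      ∀ k b, (((n : ℝ) ^ 2)⁻¹ • (trid n *ᵥ u k b) - (1 / 2 : ℝ) • u k b) ⬝ᵥ
          (((n : ℝ) ^ 2)⁻¹ • (trid n *ᵥ u k b) - (1 / 2 : ℝ) • u k b) ≤
            3 * (π * ((k : ℕ) + 1) / l) ^ 2 + η := by
  have hcast : Tendsto (fun n : ℕ => (n : ℝ)) atTop atTop := tendsto_natCast_atTop_atTop
  set η' : ℝ := η / (9 * X ^ 2) with hη'
  have hη'0 : 0 < η' := by positivity
  set Ca : ℝ := (1 + η') * (48 * X ^ 2 * (1 + 2 * X)) with hCa
  set Cb : ℝ := (1 + 1 / η') * (16000 * (18 * (1 + X) ^ 2) ^ 2) with hCb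
  have hCa0 : 0 ≤ Ca := by positivity
  have hCb0 : 0 ≤ Cb := by positivity
  -- limits
  have ht : Tendsto (fun n : ℕ => (n : ℝ) ^ (-δ)) atTop (𝓝 0) :=
    (tendsto_rpow_neg_atTop hδ).comp hcast
  have htlog : Tendsto (fun n : ℕ => log (n : ℝ) / (n : ℝ) ^ δ) atTop (𝓝 0) :=
    (isLittleO_log_rpow_atTop hδ).tendsto_div_nhds_zero.comp hcast
  have hlog : Tendsto (fun n : ℕ => log (n : ℝ)) atTop atTop := tendsto_log_atTop.comp hcast
  have hpow : Tendsto (fun n : ℕ => (n : ℝ) ^ (1 - δ)) atTop atTop :=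
    (tendsto_rpow_atTop (by linarith)).comp hcast
  have E1 : ∀ᶠ n : ℕ in atTop, (n : ℝ) ^ (-δ) ≤ 1 / 4 :=
    ht.eventually (eventually_le_nhds (by norm_num))
  have E2 : ∀ᶠ n : ℕ in atTop, (n : ℝ) ^ (-δ) ≤ η / (3 * (Ca + 1)) :=
    ht.eventually (eventually_le_nhds (by positivity))
  have E3 : ∀ᶠ n : ℕ in atTop, (n : ℝ) ^ (-δ) ≤ η / (6 * (Cb + 1)) :=
    ht.eventually (eventually_le_nhds (by positivity))
  have E4 : ∀ᶠ n : ℕ in atTop, log (n : ℝ) / (n : ℝ) ^ δ ≤ η / (32 * (1 + 2 * X)) :=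
    htlog.eventually (eventually_le_nhds (by positivity))
  have E5 : ∀ᶠ n : ℕ in atTop, max (4 / δ) 8 ≤ log (n : ℝ) := hlog.eventually_ge_atTop _
  have E6 : ∀ᶠ n : ℕ in atTop, (2 : ℝ) ≤ (n : ℝ) ^ (1 - δ) := hpow.eventually_ge_atTop _
  filter_upwards [E1, E2, E3, E4, E5, E6, eventually_ge_atTop 8] with n e1 e2 e3 e4 e5 e6 e7
  have hn8 : (8 : ℝ) ≤ n := by exact_mod_cast e7
  have hn0 : (0 : ℝ) < n := by linarith
  have hn1 : (1 : ℝ) ≤ n := by linarith
  set t : ℝ := (n : ℝ) ^ (-δ) with htdef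
  have ht0 : 0 < t := Real.rpow_pos_of_pos hn0 _
  have htinv : (n : ℝ) ^ δ = 1 / t := by
    rw [htdef, Real.rpow_neg hn0.le]
    simp
  have hnt : (n : ℝ) ^ (1 - δ) = n * t := by
    rw [htdef, sub_eq_add_neg, Real.rpow_add hn0, Real.rpow_one]
  set N₀ : ℕ := ⌈(n : ℝ) ^ δ⌉₊ with hN0
  set N₁ : ℕ := ⌊(n : ℝ) ^ (1 - δ)⌋₊ with hN1
  have hδ1 : (1 : ℝ) ≤ (n : ℝ) ^ δ := Real.one_le_rpow hn1 hδ.le
  have hN0a : (n : ℝ) ^ δ ≤ N₀ := Nat.le_ceil _
  have hN0b : (N₀ : ℝ) ≤ 2 * (n : ℝ) ^ δ := by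
    have := (Nat.ceil_lt_add_one (show (0 : ℝ) ≤ (n : ℝ) ^ δ by linarith)).le
    linarith
  have hN1a : (N₁ : ℝ) ≤ (n : ℝ) ^ (1 - δ) := Nat.floor_le (by linarith)
  have hN1b : (n : ℝ) ^ (1 - δ) / 2 ≤ N₁ := by
    have := (Nat.lt_floor_add_one ((n : ℝ) ^ (1 - δ))).le
    linarith
  have hN0pos : (0 : ℝ) < N₀ := by linarith
  have hN1pos : (0 : ℝ) < N₁ := by linarith
  have h0 : 1 ≤ N₀ := by
    have : (1 : ℝ) ≤ N₀ := by linarith
    exact_mod_cast this
  have hlogn : 0 < log (n : ℝ) := Real.log_pos (by linarith)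
  have e5a : 4 / δ ≤ log (n : ℝ) := (le_max_left _ _).trans e5
  have e5b : 8 ≤ log (n : ℝ) := (le_max_right _ _).trans e5
  have hlog2 : log 2 ≤ 1 := by
    have := Real.log_le_sub_one_of_pos (show (0 : ℝ) < 2 by norm_num)
    linarith
  have l1 : (1 - δ) * log n - 1 ≤ log N₁ := by
    have h1 := Real.log_le_log (by positivity) hN1b
    rw [Real.log_div (by positivity) (by norm_num), Real.log_rpow hn0] at h1
    linarith
  have l0 : log N₀ ≤ δ * log n + 1 := by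
    have h1 := Real.log_le_log hN0pos hN0b
    rw [Real.log_mul (by norm_num) (by positivity), Real.log_rpow hn0] at h1
    linarith
  have l1' : log N₁ ≤ (1 - δ) * log n := by
    have h1 := Real.log_le_log hN1pos hN1a
    rwa [Real.log_rpow hn0] at h1
  have l0' : 0 ≤ log N₀ := Real.log_natCast_nonneg _
  set l : ℝ := log N₁ - log N₀ with hl
  have hδlog : 4 ≤ δ * log n := by
    rw [div_le_iff₀ hδ] at e5a
    linarith
  have hl1 : (1 - 3 * δ) * log n ≤ l := by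
    rw [hl]
    nlinarith only [l1, l0, hδlog]
  have hl2 : l ≤ log n := by
    rw [hl]
    nlinarith only [l1', l0', hδlog]
  have hlge : 1 ≤ l := by
    have : (1 / 4 : ℝ) * log n ≤ (1 - 3 * δ) * log n := mul_le_mul_of_nonneg_right (by linarith) hlogn.le
    linarith
  have h : N₀ < N₁ := by
    have h1 : log N₀ < log N₁ := by linarith
    have h2 : (N₀ : ℝ) < N₁ := (Real.log_lt_log_iff hN0pos hN1pos).mp h1
    exact_mod_cast h2
  have hnN : (N₁ : ℝ) + 2 ≤ n / 2 := by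
    rw [hnt] at hN1a
    have : (n : ℝ) * t ≤ n * (1 / 4) := mul_le_mul_of_nonneg_left e1 hn0.le
    linarith
  have hXl : 0 ≤ X * l / π := by
    have := pi_pos
    positivity
  set K : ℕ := ⌊X * l / π⌋₊ with hK
  have hKle : (K : ℝ) ≤ X * l / π := Nat.floor_le hXl
  have hKge : X * l / π - 1 ≤ K := by
    have := (Nat.lt_floor_add_one (X * l / π)).le
    linarith
  have hlpos : 0 < l := by linarith
  have hfr : ∀ k : Fin K, fr N₀ N₁ k ≤ X := by
    intro k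
    unfold fr
    rw [← hl, div_le_iff₀ hlpos]
    have h1 : ((k : ℕ) : ℝ) + 1 ≤ K := by exact_mod_cast k.2
    have h2 : ((k : ℕ) : ℝ) + 1 ≤ X * l / π := h1.trans hKle
    rw [le_div_iff₀ pi_pos] at h2
    linarith
  have hinvN : 1 / (N₀ : ℝ) ≤ t := by
    rw [htinv] at hN0a
    rw [div_le_iff₀ hN0pos]
    have := mul_le_mul_of_nonneg_left hN0a ht0.le
    have h3 : t * (1 / t) = 1 := by field_simp
    linarith
  refine ⟨l, K, fun k b => uu (2 / √(log N₁ - log N₀)) (AA (fr N₀ N₁ k) (log N₀) N₀ N₁) n b,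
    hl1, hl2, hKge, hKle, ?_, ?_⟩
  · intro k b k' b'
    have hg := gram_bound h0 h hnN k k' b b' (hfr k) (hfr k')
    have e : (if k = k' ∧ b = b' then (1 : ℝ) else 0) =
        (if (k : ℕ) = k' ∧ b = b' then (1 : ℝ) else 0) := by
      simp only [Fin.ext_iff]
    rw [e]
    refine hg.trans ?_
    rw [← hl]
    have h3 : 16 * (1 + 2 * X) / (l * N₀) ≤ 16 * (1 + 2 * X) * t := by
      have h4 : 1 / l ≤ 1 := by
        rw [div_le_one hlpos]
        exact hlge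
      calc 16 * (1 + 2 * X) / (l * N₀) = 16 * (1 + 2 * X) * (1 / N₀) * (1 / l) := by field_simp
        _ ≤ 16 * (1 + 2 * X) * (1 / N₀) * 1 := mul_le_mul_of_nonneg_left h4 (by positivity)
        _ = 16 * (1 + 2 * X) * (1 / N₀) := mul_one _
        _ ≤ _ := mul_le_mul_of_nonneg_left hinvN (by positivity)
    refine h3.trans ?_
    rw [htinv] at e4
    have e4' : log n * t ≤ η / (32 * (1 + 2 * X)) := by
      have : log n / (1 / t) = log n * t := by field_simp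
      linarith
    rw [le_div_iff₀ (by positivity)] at e4' ⊢
    linarith
  · intro k b
    have hE := energy_bound h0 h hnN k b (hfr k) hη'0 hlge
    have hop : ∀ v : Fin n → ℝ, ((n : ℝ) ^ 2)⁻¹ • (trid n *ᵥ v) - (1 / 2 : ℝ) • v = opT n v :=
      fun v => rfl
    rw [hop]
    refine hE.trans ?_
    have hfrk : fr N₀ N₁ k = π * ((k : ℕ) + 1) / l := rfl
    rw [hfrk]
    have hα : (π * (((k : ℕ) : ℝ) + 1) / l) ^ 2 ≤ X ^ 2 := by
      have h1 := hfr k
      have h2 := fr_nonneg h0 h k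
      rw [hfrk] at h1 h2
      exact pow_le_pow_left₀ h2 h1 2
    set α2 := (π * (((k : ℕ) : ℝ) + 1) / l) ^ 2 with hα2
    have hr1 : ((N₁ : ℝ) / n) ^ 4 ≤ t := by
      have h1 : (N₁ : ℝ) / n ≤ t := by
        rw [div_le_iff₀ hn0]
        rw [hnt] at hN1a
        linarith only [hN1a]
      have h2 : ((N₁ : ℝ) / n) ^ 4 ≤ t ^ 4 := pow_le_pow_left₀ (by positivity) h1 4
      have h3 : t ^ 4 ≤ t := by
        have : t ^ 4 ≤ t ^ 1 := pow_le_pow_of_le_one ht0.le (by linarith only [e1]) (by norm_num)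
        simpa using this
      linarith only [h2, h3]
    have g1 : (1 + η') * (48 * X ^ 2 * (1 + 2 * X) / N₀) ≤ η / 3 := by
      calc (1 + η') * (48 * X ^ 2 * (1 + 2 * X) / N₀) = Ca * (1 / N₀) := by
            rw [hCa]
            ring
        _ ≤ Ca * t := mul_le_mul_of_nonneg_left hinvN hCa0
        _ ≤ (Ca + 1) * t := mul_le_mul_of_nonneg_right (by linarith only []) ht0.le
        _ ≤ (Ca + 1) * (η / (3 * (Ca + 1))) := mul_le_mul_of_nonneg_left e2 (by positivity)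
        _ = η / 3 := by field_simp
    have g2 : (1 + 1 / η') * (16000 * (18 * (1 + X) ^ 2) ^ 2 * (1 / N₀ + ((N₁ : ℝ) / n) ^ 4)) ≤ η / 3 := by
      calc (1 + 1 / η') * (16000 * (18 * (1 + X) ^ 2) ^ 2 * (1 / N₀ + ((N₁ : ℝ) / n) ^ 4)) =
            Cb * (1 / N₀ + ((N₁ : ℝ) / n) ^ 4) := by
            rw [hCb]
            ring
        _ ≤ Cb * (t + t) := mul_le_mul_of_nonneg_left (add_le_add hinvN hr1) hCb0
        _ ≤ (Cb + 1) * (t + t) := mul_le_mul_of_nonneg_right (by linarith only []) (by linarith)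
        _ = 2 * (Cb + 1) * t := by ring
        _ ≤ 2 * (Cb + 1) * (η / (6 * (Cb + 1))) := mul_le_mul_of_nonneg_left e3 (by positivity)
        _ = η / 3 := by
          field_simp
          norm_num
    have g3 : η' * (3 * α2) ≤ η / 3 := by
      calc η' * (3 * α2) ≤ η' * (3 * X ^ 2) := mul_le_mul_of_nonneg_left (by linarith only [hα]) hη'0.le
        _ = η / 3 := by
          rw [hη']
          field_simp
          norm_num
    nlinarith

end Pool.Agent.H66.OneArm
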