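import Pool.Agent.H66.OneArm.Ratio

/-!
# The eigenvalues of the Pascal matrix in terms of those of the tridiagonal matrix, main result
-/

open Matrix Finset Real Set

namespace Pool.Agent.H66.OneArm

lemma abs_psi_le {x X t : ℝ} (hx : |x| ≤ X) (ht : t ∈ Icc (0 : ℝ) 1) : |psi x t| ≤ 1 / 2 + π * X := by
  unfold psi
  have hX : 0 ≤ X := (abs_nonneg x).trans hx
  refine (abs_add_le _ _).trans (add_le_add ?_ ?_)
  · rw [abs_mul, abs_neg, abs_of_pos (show (0 : ℝ) < 1 / 2 by norm_num)]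
    have h1 : qf t ≤ 1 := by
      unfold qf
      nlinarith [ht.1, ht.2]
    have h2 : log (qf t) ≤ 0 := log_nonpos (qf_pos t).le h1
    have h3 : 1 - (qf t)⁻¹ ≤ log (qf t) := one_sub_inv_le_log_of_pos (qf_pos t)
    have h4 : (qf t)⁻¹ ≤ 4 / 3 := by
      rw [inv_le_comm₀ (qf_pos t) (by norm_num)]
      have := qf_ge t
      norm_num
      linarith
    rw [abs_of_nonpos h2]
    linarith
  · rw [abs_mul, abs_mul, abs_two]
    have h1 : |arctan ((2 * t - 1) / √3)| ≤ π / 2 := (abs_arctan_lt_pi_div_two' _).le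
    have h2 : 2 * |x| * |arctan ((2 * t - 1) / √3)| ≤ 2 * X * (π / 2) := by gcongr
    linarith
where
  abs_arctan_lt_pi_div_two' (y : ℝ) : |arctan y| < π / 2 := by
    rw [abs_lt]
    exact ⟨neg_pi_div_two_lt_arctan y, arctan_lt_pi_div_two y⟩

/-- The eigenvalue of the Pascal matrix is close to `exp (2 π x / 3)`. -/
theorem ratio_bound (X : ℝ) : ∃ C : ℝ, 0 < C ∧ ∀ (n : ℕ) (x : ℝ) (v : Fin n → ℝ),
    C ≤ (n : ℝ) ^ 2 → |x| ≤ X → trid n *ᵥ v = ((n : ℝ) ^ 2 * (1 / 2 + √3 * x)) • v →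
    ext v 0 ≠ 0 → |(∑ j, v j) / ext v 0 * exp (-(2 * π * x / 3)) - 1| ≤ C / (n : ℝ) ^ 2 := by
  obtain ⟨b, hb0, hb⟩ := exists_coef_bound (1 / 2 + √3 * |X|)
  set E := exp (1 / 2 + π * |X|) with hE
  have hE1 : 1 ≤ E := by
    rw [hE]
    exact one_le_exp (by positivity)
  refine ⟨4 * b * E ^ 2, by positivity, fun n x v hn hx hv hv0 => ?_⟩
  have hn1 : 1 ≤ n := by
    by_contra hcon
    have : n = 0 := by omega
    rw [this] at hn
    have h4 : 0 < 4 * b * E ^ 2 := by positivity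
    norm_num at hn
    linarith
  have hn0 : (0 : ℝ) < (n : ℝ) ^ 2 := by positivity
  have hx' : |x| ≤ |X| := hx.trans (le_abs_self X)
  set c := 1 / 2 + √3 * x with hc
  have hcK : |c| ≤ 1 / 2 + √3 * |X| := by
    rw [hc]
    refine (abs_add_le _ _).trans ?_
    rw [abs_mul, abs_of_nonneg (sqrt_nonneg 3), abs_of_pos (show (0 : ℝ) < 1 / 2 by norm_num)]
    gcongr
  have hE2 : 1 ≤ E ^ 2 := one_le_pow₀ hE1
  have hnb : b / (n : ℝ) ^ 2 ≤ 1 / 4 := by
    rw [div_le_iff₀ hn0]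
    nlinarith
  have hexp : ∀ t ∈ Icc (0 : ℝ) 1, exp (psi x t) ≤ E ∧ exp (-psi x t) ≤ E := by
    intro t ht
    have h1 := abs_le.mp (abs_psi_le hx' ht)
    rw [hE]
    constructor
    · exact exp_le_exp.mpr h1.2
    · exact exp_le_exp.mpr (by linarith)
  -- the normalised solution
  set W : ℝ → ℝ := fun t => exp (-psi x t) * V0 v t with hW
  have hWd : ∀ t, HasDerivAt W (exp (-psi x t) * (V1 v t - rho c t * V0 v t)) t := by
    intro t
    have h := ((hasDerivAt_psi x t).neg.exp).mul (hasDerivAt_V0 v t)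
    refine h.congr_deriv ?_
    simp only [Pi.neg_apply]
    rw [hc]
    ring
  have hWc : Continuous W := continuous_iff_continuousAt.mpr fun t => (hWd t).continuousAt
  obtain ⟨ts, hts, hmax⟩ := isCompact_Icc.exists_isMaxOn (nonempty_Icc.mpr zero_le_one)
    (hWc.abs.continuousOn (s := Icc (0 : ℝ) 1))
  set M := |W ts| with hM
  have hmax' : ∀ t ∈ Icc (0 : ℝ) 1, |W t| ≤ M := fun t ht => hmax ht
  have hM0 : 0 ≤ M := abs_nonneg _
  have hV : ∀ t ∈ Icc (0 : ℝ) 1, |V0 v t| ≤ E * M := by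
    intro t ht
    have h1 : V0 v t = exp (psi x t) * W t := by
      rw [hW]
      simp only
      rw [← mul_assoc, ← exp_add, add_neg_cancel, exp_zero, one_mul]
    rw [h1, abs_mul, abs_of_pos (exp_pos _)]
    exact mul_le_mul (hexp t ht).1 (hmax' t ht) (abs_nonneg _) (by positivity)
  have hdef := defect_bound hn1 v hv hcK hb hnb hV
  set κ := 2 * b * E ^ 2 / (n : ℝ) ^ 2 with hκ
  have hκ1 : κ ≤ 1 / 2 := by
    rw [hκ, div_le_iff₀ hn0]
    linarith
  have hκ0 : 0 ≤ κ := by positivity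
  have hWd' : ∀ t ∈ Icc (0 : ℝ) 1, ‖exp (-psi x t) * (V1 v t - rho c t * V0 v t)‖ ≤ κ * M := by
    intro t ht
    rw [Real.norm_eq_abs, abs_mul, abs_of_pos (exp_pos _)]
    calc exp (-psi x t) * |V1 v t - rho c t * V0 v t|
        ≤ E * (2 * b * (E * M) / (n : ℝ) ^ 2) :=
          mul_le_mul (hexp t ht).2 (hdef t ht) (abs_nonneg _) (by positivity)
      _ = κ * M := by rw [hκ]; ring
  have hdiff : ∀ t ∈ Icc (0 : ℝ) 1, |W t - W 0| ≤ κ * M := by
    intro t ht
    have h := (convex_Icc (0 : ℝ) 1).norm_image_sub_le_of_norm_hasDerivWithin_le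
      (fun s _ => (hWd s).hasDerivWithinAt) hWd' (x := 0) (y := t) ⟨le_rfl, zero_le_one⟩ ht
    rw [Real.norm_eq_abs, Real.norm_eq_abs, sub_zero, abs_of_nonneg ht.1] at h
    refine h.trans ?_
    have := mul_le_mul_of_nonneg_left ht.2 (mul_nonneg hκ0 hM0)
    linarith
  have hM2 : M ≤ 2 * |W 0| := by
    have h1 := hdiff ts hts
    have h2 : M ≤ |W 0| + |W ts - W 0| := by
      rw [hM]
      have := abs_add_le (W 0) (W ts - W 0)
      rwa [add_sub_cancel] at this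
    nlinarith
  have h1 := hdiff 1 ⟨zero_le_one, le_rfl⟩
  have h2 : |W 1 - W 0| ≤ 2 * κ * |W 0| := h1.trans (by nlinarith)
  have hW0 : W 0 = exp (-psi x 0) * ext v 0 := by
    rw [hW]
    simp only
    rw [V0_zero]
  have hW1 : W 1 = exp (-psi x 1) * ∑ j, v j := by
    rw [hW]
    simp only
    rw [V0_one]
  have hW0' : W 0 ≠ 0 := by
    rw [hW0]
    exact mul_ne_zero (exp_pos _).ne' hv0
  have h3 : (∑ j, v j) / ext v 0 * exp (-(2 * π * x / 3)) - 1 = (W 1 - W 0) / W 0 := by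
    rw [sub_div, div_self hW0', hW0, hW1, ← psi_one_sub_zero x, neg_sub, sub_eq_add_neg,
      sub_eq_add_neg, exp_add]
    have he : exp (-psi x 0) ≠ 0 := (exp_pos _).ne'
    have he' : exp (psi x 0) * exp (-psi x 0) = 1 := by rw [← exp_add, add_neg_cancel, exp_zero]
    field_simp
    linear_combination (exp (-psi x 1) * ∑ j, v j) * he'
  rw [h3, abs_div, div_le_iff₀ (abs_pos.mpr hW0')]
  refine h2.trans (le_of_eq ?_)
  rw [hκ]
  ring

end Pool.Agent.H66.OneArm
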