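import Mathlib

/-!
# A trace inequality

If the vectors `u i` are nearly orthonormal and `H` is convex, then the sum of `H` over the squared
distances of the eigenvalues of a symmetric matrix from `c` is at least about the sum of `H` over the
squared errors of the quasi-modes `u i`.
-/

open Matrix Finset

namespace Pool.Agent.H66.OneArm

variable {n : ℕ}

lemma dot_eq_inner (v w : EuclideanSpace ℝ (Fin n)) :
    inner ℝ v w = (v : Fin n → ℝ) ⬝ᵥ (w : Fin n → ℝ) := by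
  rw [EuclideanSpace.inner_eq_star_dotProduct]
  simp [dotProduct_comm]

/-- Bessel inequality for nearly orthonormal vectors. -/
lemma bessel {ι : Type} [Fintype ι] [DecidableEq ι] (u : ι → Fin n → ℝ) {η : ℝ}
    (h : ∀ i j, |u i ⬝ᵥ u j - (if i = j then 1 else 0)| ≤ η) (v : Fin n → ℝ) :
    ∑ i, (u i ⬝ᵥ v) ^ 2 ≤ (1 + η * Fintype.card ι) * (v ⬝ᵥ v) := by
  set c : ι → ℝ := fun i => u i ⬝ᵥ v with hc
  set S := ∑ i, c i ^ 2 with hS
  set y : Fin n → ℝ := ∑ i, c i • u i with hy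
  have hS0 : 0 ≤ S := sum_nonneg fun i _ => sq_nonneg _
  have h1 : S = y ⬝ᵥ v := by
    rw [hy, sum_dotProduct]
    refine sum_congr rfl fun i _ => ?_
    rw [smul_dotProduct, smul_eq_mul, hc, sq]
  have h2 : y ⬝ᵥ y ≤ (1 + η * Fintype.card ι) * S := by
    have h3 : y ⬝ᵥ y = ∑ i, ∑ j, c i * c j * (u i ⬝ᵥ u j) := by
      rw [hy, sum_dotProduct]
      refine sum_congr rfl fun i _ => ?_
      rw [smul_dotProduct, dotProduct_sum, smul_eq_mul, mul_sum]
      refine sum_congr rfl fun j _ => ?_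
      rw [dotProduct_smul, smul_eq_mul]
      ring
    have h4 : ∀ i j, c i * c j * (u i ⬝ᵥ u j) ≤ (if i = j then c i ^ 2 else 0) +
        η * (|c i| * |c j|) := by
      intro i j
      have h5 := h i j
      have h6 : c i * c j * (u i ⬝ᵥ u j) = c i * c j * (u i ⬝ᵥ u j - (if i = j then 1 else 0)) +
          (if i = j then c i ^ 2 else 0) := by
        split_ifs with hij
        · rw [hij]
          ring
        · ring
      rw [h6]
      have h7 : c i * c j * (u i ⬝ᵥ u j - (if i = j then 1 else 0)) ≤ η * (|c i| * |c j|) := by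
        refine (le_abs_self _).trans ?_
        rw [abs_mul, abs_mul]
        have := mul_le_mul_of_nonneg_left h5 (mul_nonneg (abs_nonneg (c i)) (abs_nonneg (c j)))
        linarith
      linarith
    rw [h3]
    calc ∑ i, ∑ j, c i * c j * (u i ⬝ᵥ u j)
        ≤ ∑ i, ∑ j, ((if i = j then c i ^ 2 else 0) + η * (|c i| * |c j|)) :=
          sum_le_sum fun i _ => sum_le_sum fun j _ => h4 i j
      _ = S + η * (∑ i, |c i|) ^ 2 := by
          simp only [sum_add_distrib, sum_ite_eq, mem_univ, if_true]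
          rw [hS]
          congr 1
          simp only [← mul_sum]
          rw [sq, sum_mul]
      _ ≤ S + η * (Fintype.card ι * S) := by
          have hη : 0 ≤ η ∨ IsEmpty ι := by
            by_cases he : IsEmpty ι
            · exact Or.inr he
            · rw [not_isEmpty_iff] at he
              obtain ⟨i⟩ := he
              exact Or.inl ((abs_nonneg _).trans (h i i))
          rcases hη with hη | he
          · have h8 : (∑ i, |c i|) ^ 2 ≤ Fintype.card ι * S := by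
              have := sq_sum_le_card_mul_sum_sq (s := (univ : Finset ι)) (f := fun i => |c i|)
              simpa [sq_abs] using this
            have := mul_le_mul_of_nonneg_left h8 hη
            linarith
          · simp
      _ = (1 + η * Fintype.card ι) * S := by ring
  have h5 : (y ⬝ᵥ v) ^ 2 ≤ (y ⬝ᵥ y) * (v ⬝ᵥ v) := by
    have := sum_mul_sq_le_sq_mul_sq (univ : Finset (Fin n)) y v
    simp only [dotProduct]
    simpa only [sq] using this
  have hv0 : 0 ≤ v ⬝ᵥ v := sum_nonneg fun i _ => mul_self_nonneg _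
  rcases eq_or_lt_of_le hS0 with h0 | h0
  · rw [← h0] at h2 ⊢
    have hy0 : 0 ≤ y ⬝ᵥ y := sum_nonneg fun i _ => mul_self_nonneg _
    by_cases he : IsEmpty ι
    · have : Fintype.card ι = 0 := Fintype.card_eq_zero
      rw [this]
      simpa using hv0
    · rw [not_isEmpty_iff] at he
      obtain ⟨i⟩ := he
      have hη : 0 ≤ η := (abs_nonneg _).trans (h i i)
      positivity
  · have h6 : S ^ 2 ≤ (1 + η * Fintype.card ι) * S * (v ⬝ᵥ v) := by
      calc S ^ 2 = (y ⬝ᵥ v) ^ 2 := by rw [h1]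
        _ ≤ (y ⬝ᵥ y) * (v ⬝ᵥ v) := h5
        _ ≤ (1 + η * Fintype.card ι) * S * (v ⬝ᵥ v) := mul_le_mul_of_nonneg_right h2 hv0
    have h7 : S * S ≤ S * ((1 + η * Fintype.card ι) * (v ⬝ᵥ v)) := by nlinarith
    exact le_of_mul_le_mul_left h7 h0

/-- **Trace inequality.** -/
theorem trace_lower (T : Matrix (Fin n) (Fin n) ℝ) (hT : T.IsHermitian) {ι : Type} [Fintype ι]
    (u : ι → Fin n → ℝ) {A : ℝ} (hA : 0 ≤ A)
    (hbessel : ∀ v : Fin n → ℝ, ∑ i, (u i ⬝ᵥ v) ^ 2 ≤ A * (v ⬝ᵥ v))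
    (H : ℝ → ℝ) (hH : ConvexOn ℝ (Set.Ici 0) H) (hH0 : ∀ E, 0 ≤ E → 0 ≤ H E) (c : ℝ)
    (hu : ∀ i, 0 < u i ⬝ᵥ u i) :
    ∑ i, (u i ⬝ᵥ u i) * H (((T *ᵥ u i - c • u i) ⬝ᵥ (T *ᵥ u i - c • u i)) / (u i ⬝ᵥ u i)) ≤
      A * ∑ k, H ((hT.eigenvalues k - c) ^ 2) := by
  set b := hT.eigenvectorBasis with hb
  have hbT : ∀ k, T *ᵥ (b k : Fin n → ℝ) = hT.eigenvalues k • (b k : Fin n → ℝ) := by
    intro k
    exact hT.mulVec_eigenvectorBasis k
  have hsym : ∀ x y : Fin n → ℝ, (T *ᵥ x) ⬝ᵥ y = x ⬝ᵥ (T *ᵥ y) := by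
    intro x y
    have hTt : Tᵀ = T := by
      have := hT.eq
      rwa [conjTranspose_eq_transpose_of_trivial] at this
    rw [dotProduct_mulVec, ← mulVec_transpose, hTt]
  have hparseval : ∀ x : Fin n → ℝ, ∑ k, (x ⬝ᵥ (b k : Fin n → ℝ)) ^ 2 = x ⬝ᵥ x := by
    intro x
    have h1 := b.sum_sq_norm_inner_right (WithLp.toLp 2 x)
    rw [← real_inner_self_eq_norm_sq, dot_eq_inner] at h1
    simp only [dot_eq_inner, Real.norm_eq_abs, sq_abs] at h1
    rw [← h1]
    refine sum_congr rfl fun k _ => ?_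
    rw [dotProduct_comm]
  have hcoef : ∀ (x : Fin n → ℝ) (k), (T *ᵥ x - c • x) ⬝ᵥ (b k : Fin n → ℝ) =
      (hT.eigenvalues k - c) * (x ⬝ᵥ (b k : Fin n → ℝ)) := by
    intro x k
    rw [sub_dotProduct, hsym, hbT, dotProduct_smul, smul_dotProduct, smul_eq_mul, smul_eq_mul]
    ring
  have hjensen : ∀ i, (u i ⬝ᵥ u i) *
      H (((T *ᵥ u i - c • u i) ⬝ᵥ (T *ᵥ u i - c • u i)) / (u i ⬝ᵥ u i)) ≤
        ∑ k, (u i ⬝ᵥ (b k : Fin n → ℝ)) ^ 2 * H ((hT.eigenvalues k - c) ^ 2) := by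
    intro i
    have hpos := hu i
    have h1 := hH.map_sum_le (t := univ) (w := fun k => (u i ⬝ᵥ (b k : Fin n → ℝ)) ^ 2 / (u i ⬝ᵥ u i))
      (p := fun k => (hT.eigenvalues k - c) ^ 2) (fun k _ => by positivity)
      (by rw [← sum_div, hparseval, div_self hpos.ne']) (fun k _ => Set.mem_Ici.mpr (sq_nonneg _))
    have h2 : ∑ k, ((u i ⬝ᵥ (b k : Fin n → ℝ)) ^ 2 / (u i ⬝ᵥ u i)) • (hT.eigenvalues k - c) ^ 2 =
        ((T *ᵥ u i - c • u i) ⬝ᵥ (T *ᵥ u i - c • u i)) / (u i ⬝ᵥ u i) := by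
      rw [← hparseval (T *ᵥ u i - c • u i), sum_div]
      refine sum_congr rfl fun k _ => ?_
      rw [hcoef, smul_eq_mul]
      ring
    rw [h2] at h1
    have h3 := mul_le_mul_of_nonneg_left h1 hpos.le
    refine h3.trans (le_of_eq ?_)
    rw [mul_sum]
    refine sum_congr rfl fun k _ => ?_
    rw [smul_eq_mul]
    field_simp
  calc ∑ i, (u i ⬝ᵥ u i) * H (((T *ᵥ u i - c • u i) ⬝ᵥ (T *ᵥ u i - c • u i)) / (u i ⬝ᵥ u i))
      ≤ ∑ i, ∑ k, (u i ⬝ᵥ (b k : Fin n → ℝ)) ^ 2 * H ((hT.eigenvalues k - c) ^ 2) :=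
        sum_le_sum fun i _ => hjensen i
    _ = ∑ k, (∑ i, (u i ⬝ᵥ (b k : Fin n → ℝ)) ^ 2) * H ((hT.eigenvalues k - c) ^ 2) := by
        rw [sum_comm]
        exact sum_congr rfl fun k _ => by rw [sum_mul]
    _ ≤ ∑ k, A * H ((hT.eigenvalues k - c) ^ 2) := by
        refine sum_le_sum fun k _ => mul_le_mul_of_nonneg_right ?_ (hH0 _ (sq_nonneg _))
        refine (hbessel _).trans (le_of_eq ?_)
        have : (b k : Fin n → ℝ) ⬝ᵥ (b k : Fin n → ℝ) = 1 := by
          rw [← dot_eq_inner, real_inner_self_eq_norm_sq, b.norm_eq_one]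
          norm_num
        rw [this, mul_one]
    _ = A * ∑ k, H ((hT.eigenvalues k - c) ^ 2) := by rw [mul_sum]

end Pool.Agent.H66.OneArm
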