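import Pool.Agent.H66.OneArm.Eigen
import Pool.Agent.H66.OneArm.Trace

/-!
# Spectral description of the Pascal matrix
-/

open Matrix Finset Real

namespace Pool.Agent.H66.OneArm

/-- The rescaled tridiagonal matrix. -/
noncomputable def TT (n : ℕ) : Matrix (Fin n) (Fin n) ℝ := ((n : ℝ) ^ 2)⁻¹ • trid n

lemma TT_herm (n : ℕ) : (TT n).IsHermitian := by
  unfold Matrix.IsHermitian
  rw [conjTranspose_eq_transpose_of_trivial]
  unfold TT
  rw [transpose_smul, (trid_isSymm n).eq]

/-- The eigenvectors. -/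
noncomputable def evec (n : ℕ) (k : Fin n) : Fin n → ℝ := ((TT_herm n).eigenvectorBasis k : Fin n → ℝ)

/-- The eigenvalues of the Pascal matrix. -/
noncomputable def lam (n : ℕ) (k : Fin n) : ℝ := (∑ j, evec n k j) / ext (evec n k) 0

noncomputable def mu (n : ℕ) (k : Fin n) : ℝ := log (lam n k)

lemma evec_ne_zero (n : ℕ) (k : Fin n) : evec n k ≠ 0 := by
  intro h
  have h1 := (TT_herm n).eigenvectorBasis.norm_eq_one k
  have h2 : ((TT_herm n).eigenvectorBasis k) = 0 := by
    ext i
    exact congrFun h i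
  rw [h2, norm_zero] at h1
  exact zero_ne_one h1

lemma TT_mulVec (n : ℕ) (k : Fin n) :
    TT n *ᵥ evec n k = (TT_herm n).eigenvalues k • evec n k :=
  (TT_herm n).mulVec_eigenvectorBasis k

lemma trid_mulVec_evec (n : ℕ) (k : Fin n) :
    trid n *ᵥ evec n k = ((n : ℝ) ^ 2 * (TT_herm n).eigenvalues k) • evec n k := by
  have hn : (n : ℝ) ^ 2 ≠ 0 := by
    have : 0 < n := Fin.pos k
    positivity
  have h := TT_mulVec n k
  have e : TT n *ᵥ evec n k = ((n : ℝ) ^ 2)⁻¹ • (trid n *ᵥ evec n k) := by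
    unfold TT
    rw [smul_mulVec]
  rw [← smul_smul, ← h, e, smul_smul, mul_inv_cancel₀ hn, one_smul]

lemma pasc_mulVec_evec (n : ℕ) (k : Fin n) :
    ext (evec n k) 0 ≠ 0 ∧ pasc n *ᵥ evec n k = lam n k • evec n k :=
  pasc_mulVec (evec n k) _ (trid_mulVec_evec n k) (evec_ne_zero n k)

lemma lam_pos (n : ℕ) (k : Fin n) : 0 < lam n k :=
  eigenvalue_pos (evec n k) _ (pasc_mulVec_evec n k).2 (evec_ne_zero n k)

lemma exp_mu (n : ℕ) (k : Fin n) : exp (mu n k) = lam n k := Real.exp_log (lam_pos n k)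

/-- The matrix of eigenvectors. -/
noncomputable def UU (n : ℕ) : Matrix (Fin n) (Fin n) ℝ := fun i k => evec n k i

lemma UU_orth (n : ℕ) : (UU n)ᵀ * UU n = 1 := by
  ext i j
  rw [mul_apply]
  have h := orthonormal_iff_ite.mp (TT_herm n).eigenvectorBasis.orthonormal i j
  rw [dot_eq_inner] at h
  rw [one_apply]
  simp only [dotProduct] at h
  exact h

lemma det_UU_ne (n : ℕ) : (UU n).det ≠ 0 := by
  intro h
  have h1 := congrArg det (UU_orth n)
  rw [det_mul, det_transpose, h, det_one, zero_mul] at h1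
  exact zero_ne_one h1

lemma pasc_mul_UU (n : ℕ) : pasc n * UU n = UU n * diagonal (lam n) := by
  ext i k
  rw [mul_diagonal]
  have h := congrFun (pasc_mulVec_evec n k).2 i
  rw [Pi.smul_apply, smul_eq_mul] at h
  have h2 : (pasc n * UU n) i k = (pasc n *ᵥ evec n k) i := rfl
  rw [h2, h, mul_comm]
  rfl

/-- The characteristic determinant. -/
theorem det_eq_prod (n : ℕ) (w : ℝ) :
    (1 + w • pasc n + pasc n ^ 2).det = ∏ k, (1 + w * lam n k + lam n k ^ 2) := by
  have h1 : (1 + w • pasc n + pasc n ^ 2) * UU n =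
      UU n * diagonal (fun k => 1 + w * lam n k + lam n k ^ 2) := by
    have h2 : pasc n ^ 2 * UU n = UU n * diagonal (fun k => lam n k ^ 2) := by
      rw [pow_two, mul_assoc, pasc_mul_UU, ← mul_assoc, pasc_mul_UU, mul_assoc, diagonal_mul_diagonal]
      simp only [pow_two]
    have h3 : (diagonal (fun k => 1 + w * lam n k + lam n k ^ 2) : Matrix (Fin n) (Fin n) ℝ) =
        1 + w • diagonal (lam n) + diagonal (fun k => lam n k ^ 2) := by
      ext i j
      by_cases hij : i = j
      · subst hij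
        simp
      · simp [hij]
    rw [h3, add_mul, add_mul, one_mul, smul_mul_assoc, pasc_mul_UU, h2, mul_add, mul_add, mul_one,
      mul_smul_comm]
  have h4 := congrArg det h1
  rw [det_mul, det_mul, mul_comm, det_diagonal] at h4
  exact mul_left_cancel₀ (det_UU_ne n) h4

lemma prod_lam (n : ℕ) : ∏ k, lam n k = 1 := by
  have h4 := congrArg det (pasc_mul_UU n)
  rw [det_mul, det_mul, mul_comm, det_diagonal, det_pasc] at h4
  exact (mul_left_cancel₀ (det_UU_ne n) h4).symm

theorem det_eq_prod_cosh (n : ℕ) (w : ℝ) :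
    (1 + w • pasc n + pasc n ^ 2).det = ∏ k, (w + 2 * cosh (mu n k)) := by
  rw [det_eq_prod]
  have h : ∀ k ∈ (univ : Finset (Fin n)), 1 + w * lam n k + lam n k ^ 2 =
      lam n k * (w + 2 * cosh (mu n k)) := by
    intro k _
    rw [cosh_eq, exp_neg, exp_mu]
    have := (lam_pos n k).ne'
    field_simp
    ring
  rw [Finset.prod_congr rfl h, Finset.prod_mul_distrib, prod_lam, one_mul]

end Pool.Agent.H66.OneArm
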