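import Pool.Agent.H66.OneArm.LowerA
import Pool.Agent.H66.OneArm.Spectral
import Pool.Agent.H66.OneArm.RatioMain
import Pool.Agent.H66.OneArm.QuasiK

/-!
# The lower bound
-/

open Filter Topology Real Matrix

namespace Pool.Agent.H66.OneArm

/-- Comparison of the eigenvalues of the two matrices. -/
theorem HH_le_hh {t X : ℝ} (h0 : 0 < t) (h1 : t < π) (hX : 0 < X) :
    ∀ᶠ n : ℕ in atTop, ∀ k : Fin n,
      HH t X (((TT_herm n).eigenvalues k - 1 / 2) ^ 2) ≤ hh t (mu n k) := by
  have hπ := pi_pos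
  obtain ⟨C, hC, hrat⟩ := ratio_bound X
  have hc := neg_one_lt_cos h0 h1
  set b := hh t (2 * π * X / 3) with hb
  have hb0 : 0 < b := hh_pos h0 h1 _
  set D := 2 * cosh (2 * π * X / 3) / (1 + cos t) ^ 2 with hD
  have hD0 : 0 < D := by
    have := cosh_pos (2 * π * X / 3)
    have h2 : 0 < 1 + cos t := by linarith
    positivity
  have hcast : Tendsto (fun n : ℕ => (n : ℝ) ^ 2) atTop atTop :=
    (tendsto_pow_atTop (by norm_num)).comp tendsto_natCast_atTop_atTop
  filter_upwards [hcast.eventually_ge_atTop C, hcast.eventually_ge_atTop (2 * C),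
    hcast.eventually_ge_atTop (C * D / b), eventually_ge_atTop 1] with n e1 e2 e3 hn k
  have hn0 : (0 : ℝ) < (n : ℝ) ^ 2 := by
    have : (0 : ℝ) < n := by exact_mod_cast hn
    positivity
  have h3 : 0 < √3 := Real.sqrt_pos.mpr (by norm_num)
  have h33 : √3 ^ 2 = 3 := Real.sq_sqrt (by norm_num)
  set τ := (TT_herm n).eigenvalues k with hτ
  set x := (τ - 1 / 2) / √3 with hx
  have hτx : τ = 1 / 2 + √3 * x := by
    rw [hx]
    field_simp
    ring
  have hE : (τ - 1 / 2) ^ 2 = 3 * |x| ^ 2 := by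
    rw [hτx, sq_abs]
    have : (1 / 2 + √3 * x - 1 / 2) ^ 2 = √3 ^ 2 * x ^ 2 := by ring
    rw [this, h33]
  rw [hE]
  unfold HH
  have e4 : 3 * |x| ^ 2 / 3 = |x| ^ 2 := by ring
  rw [e4, Real.sqrt_sq (abs_nonneg x)]
  apply max_le _ (hh_pos h0 h1 _).le
  rw [← hb]
  by_cases hxX : X ≤ |x|
  · have h4 : hh t (2 * π / 3 * |x|) ≤ b := by
      apply hh_anti h0 h1
      rw [abs_of_nonneg (by positivity), abs_of_nonneg (by positivity)]
      calc 2 * π * X / 3 = 2 * π / 3 * X := by ring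
        _ ≤ _ := mul_le_mul_of_nonneg_left hxX (by positivity)
    have := (hh_pos h0 h1 (mu n k)).le
    linarith
  · push Not at hxX
    have hv : trid n *ᵥ evec n k = ((n : ℝ) ^ 2 * (1 / 2 + √3 * x)) • evec n k := by
      rw [← hτx]
      exact trid_mulVec_evec n k
    have hr := hrat n x (evec n k) e1 hxX.le hv (pasc_mulVec_evec n k).1
    have hlam : (∑ j, evec n k j) / ext (evec n k) 0 = lam n k := rfl
    rw [hlam] at hr
    set ε := C / (n : ℝ) ^ 2 with hε
    have hε0 : 0 < ε := by positivity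
    have hε1 : ε ≤ 1 / 2 := by
      rw [hε, div_le_iff₀ hn0]
      linarith
    have hεD : ε * D ≤ b := by
      rw [div_le_iff₀ hb0] at e3
      rw [hε, div_mul_eq_mul_div, div_le_iff₀ hn0]
      linarith
    set y := 2 * π * x / 3 with hy
    have hyabs : |y| = 2 * π / 3 * |x| := by
      rw [hy]
      have : 2 * π * x / 3 = 2 * π / 3 * x := by ring
      rw [this, abs_mul, abs_of_pos (by positivity)]
    have hhy : hh t (2 * π / 3 * |x|) = hh t y := by
      unfold hh
      rw [← hyabs, cosh_abs]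
    rw [hhy]
    obtain ⟨r1, r2⟩ := abs_le.mp hr
    have hlp := lam_pos n k
    set r := lam n k * exp (-y) with hrdef
    have hr0 : 0 < r := by positivity
    have hlr : lam n k = r * exp y := by
      rw [hrdef, mul_assoc, ← Real.exp_add]
      simp
    -- `cosh μ ≤ cosh y / (1 - ε)`
    have hcosh : cosh (mu n k) * (1 - ε) ≤ cosh y := by
      have h5 : cosh (mu n k) = (r * exp y + r⁻¹ * exp (-y)) / 2 := by
        rw [Real.cosh_eq, Real.exp_neg, exp_mu, hlr, mul_inv, ← Real.exp_neg]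
      have h6 : r * (1 - ε) ≤ 1 := by nlinarith
      have h7 : r⁻¹ * (1 - ε) ≤ 1 := by
        rw [inv_mul_le_iff₀ hr0]
        linarith
      rw [h5, Real.cosh_eq]
      have h8 := mul_le_mul_of_nonneg_right h6 (exp_pos y).le
      have h9 := mul_le_mul_of_nonneg_right h7 (exp_pos (-y)).le
      linarith
    have hy2 : cosh y ≤ cosh (2 * π * X / 3) := by
      apply Real.cosh_le_cosh.mpr
      have hXabs : |2 * π * X / 3| = 2 * π * X / 3 := abs_of_nonneg (by positivity)
      rw [hyabs, hXabs]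
      calc 2 * π / 3 * |x| ≤ 2 * π / 3 * X := mul_le_mul_of_nonneg_left hxX.le (by positivity)
        _ = _ := by ring
    have hdiff : cosh (mu n k) - cosh y ≤ ε * (2 * cosh (2 * π * X / 3)) := by
      have h10 : cosh (mu n k) ≤ 2 * cosh y := by
        have := cosh_pos (mu n k)
        nlinarith
      have h11 : cosh (mu n k) - cosh y ≤ ε * cosh (mu n k) := by nlinarith
      have h12 : ε * cosh (mu n k) ≤ ε * (2 * cosh (2 * π * X / 3)) :=
        mul_le_mul_of_nonneg_left (by linarith) hε0.le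
      linarith
    have hd1 := den_pos h0 h1 y
    have hd2 := den_pos h0 h1 (mu n k)
    have hd1' : 1 + cos t ≤ cos t + cosh y := by linarith [one_le_cosh y]
    have hd2' : 1 + cos t ≤ cos t + cosh (mu n k) := by linarith [one_le_cosh (mu n k)]
    have hcpos : 0 < 1 + cos t := by linarith
    have hs1 := sin_le_one t
    have hs0 := sin_pos_of_pos_of_lt_pi h0 h1
    have e5 : hh t y - hh t (mu n k) =
        sin t * (cosh (mu n k) - cosh y) / ((cos t + cosh y) * (cos t + cosh (mu n k))) := by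
      unfold hh
      field_simp
      ring
    have e6 : hh t y - hh t (mu n k) ≤ ε * D := by
      rw [e5]
      have hnum : sin t * (cosh (mu n k) - cosh y) ≤ ε * (2 * cosh (2 * π * X / 3)) := by
        have h13 : sin t * (cosh (mu n k) - cosh y) ≤ sin t * (ε * (2 * cosh (2 * π * X / 3))) :=
          mul_le_mul_of_nonneg_left hdiff hs0.le
        have h14 : 0 ≤ ε * (2 * cosh (2 * π * X / 3)) := by
          have := cosh_pos (2 * π * X / 3)
          positivity
        nlinarith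
      have h15 : (1 + cos t) ^ 2 ≤ (cos t + cosh y) * (cos t + cosh (mu n k)) := by
        rw [sq]
        exact mul_le_mul hd1' hd2' hcpos.le hd1.le
      calc sin t * (cosh (mu n k) - cosh y) / ((cos t + cosh y) * (cos t + cosh (mu n k))) ≤
            ε * (2 * cosh (2 * π * X / 3)) / ((cos t + cosh y) * (cos t + cosh (mu n k))) :=
            div_le_div_of_nonneg_right hnum (by positivity)
        _ ≤ ε * (2 * cosh (2 * π * X / 3)) / (1 + cos t) ^ 2 := by
            apply div_le_div_of_nonneg_left _ (by positivity) h15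
            have := cosh_pos (2 * π * X / 3)
            positivity
        _ = ε * D := by
            rw [hD]
            ring
    linarith

/-- The lower bound for the sums of `h`. -/
theorem lower_bound {t : ℝ} (h0 : 0 < t) (h1 : t < π) {ε : ℝ} (hε : 0 < ε) :
    ∀ᶠ n : ℕ in atTop, (3 * t / π ^ 2 - ε) * log n ≤ ∑ k : Fin n, sin t / (cos t + cosh (mu n k)) := by
  have hπ := pi_pos
  have hlogt : Tendsto (fun n : ℕ => log (n : ℝ)) atTop atTop :=
    tendsto_log_atTop.comp tendsto_natCast_atTop_atTop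
  by_cases hneg : 3 * t / π ^ 2 - ε ≤ 0
  · filter_upwards [hlogt.eventually_ge_atTop 0] with n hn
    have h2 : 0 ≤ ∑ k : Fin n, sin t / (cos t + cosh (mu n k)) :=
      Finset.sum_nonneg fun k _ => (hh_pos h0 h1 (mu n k)).le
    exact (mul_nonpos_of_nonpos_of_nonneg hneg hn).trans h2
  push Not at hneg
  set ρ : ℝ := 1 - ε * π ^ 2 / (3 * t) with hρ
  have hρt : 3 * t / π ^ 2 - ε = ρ * (3 * t / π ^ 2) := by
    rw [hρ]
    field_simp
  have hρ1 : ρ < 1 := by
    rw [hρ]
    have : 0 < ε * π ^ 2 / (3 * t) := by positivity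
    linarith
  have hρ0 : 0 < ρ := by
    rw [hρt] at hneg
    exact pos_of_mul_pos_left hneg (by positivity)
  set r : ℝ := 1 - (1 - ρ) / 4 with hr
  have hr1 : r < 1 := by
    rw [hr]
    linarith
  have hr34 : 3 / 4 < r := by
    rw [hr]
    linarith
  have hr0 : 0 < r := by linarith
  have hrρ : ρ ≤ r ^ 4 := by
    have h2 := one_add_mul_le_pow (a := r - 1) (by linarith) 4
    have e : 1 + (r - 1) = r := by ring
    rw [e] at h2
    refine le_trans (le_of_eq ?_) h2
    rw [hr]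
    push_cast
    ring
  -- parameters
  obtain ⟨X, hX, hX1, hX2⟩ := exists_X h0 h1 (κ := (1 - r) * t / 3) (by
    have : 0 < 1 - r := by linarith
    positivity)
  obtain ⟨s, hs, hs1⟩ := exists_s (t := t) (κ := (1 - r) * t / 3) (by
    have : 0 < 1 - r := by linarith
    positivity)
  set σ : ℝ := s / π with hσ
  have hσ0 : 0 < σ := by positivity
  set δ : ℝ := (1 - r) / 3 with hδ
  have hδ0 : 0 < δ := by
    rw [hδ]
    linarith
  have hδ1 : δ < 1 / 4 := by
    rw [hδ]
    linarith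
  set η : ℝ := min (3 * σ ^ 2 / (1 + 3 * X ^ 2 + 3 * σ ^ 2)) (min (1 - r) ((1 / r - 1) * π / X)) with hη
  have hrinv : 0 < 1 / r - 1 := by
    rw [sub_pos, lt_div_iff₀ hr0]
    linarith
  have hη0 : 0 < η := by
    rw [hη]
    refine lt_min (by positivity) (lt_min (by linarith) (by positivity))
  have hη1 : η ≤ 3 * σ ^ 2 / (1 + 3 * X ^ 2 + 3 * σ ^ 2) := min_le_left _ _
  have hη2 : η ≤ 1 - r := (min_le_right _ _).trans (min_le_left _ _)
  have hη3 : η ≤ (1 / r - 1) * π / X := (min_le_right _ _).trans (min_le_right _ _)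
  have hη4 : η * (1 + 3 * X ^ 2 + 3 * σ ^ 2) ≤ 3 * σ ^ 2 := by
    rwa [le_div_iff₀ (by positivity)] at hη1
  have hη5 : η * X ≤ (1 / r - 1) * π := by
    rwa [le_div_iff₀ hX] at hη3
  filter_upwards [exists_quasi hX hδ0 hδ1 hη0, HH_le_hh h0 h1 hX, hlogt.eventually_ge_atTop 1,
    hlogt.eventually_ge_atTop (π ^ 2 / (s * r))] with n hq hH hn1 hn2
  obtain ⟨l, K, u, hl1, hl2, hK1, hK2, hG, hEn⟩ := hq
  have hlogn : 0 < log (n : ℝ) := by linarith
  have hlr : r * log n ≤ l := by
    have : 1 - 3 * δ = r := by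
      rw [hδ]
      ring
    rw [← this]
    exact hl1
  have hl0 : 0 < l := lt_of_lt_of_le (by positivity) hlr
  have hls : π ^ 2 ≤ s * l := by
    rw [div_le_iff₀ (mul_pos hs hr0)] at hn2
    calc π ^ 2 ≤ log n * (s * r) := hn2
      _ = s * (r * log n) := by ring
      _ ≤ s * l := mul_le_mul_of_nonneg_left hlr hs.le
  -- Bessel
  set ηn : ℝ := η / (2 * log n) with hηn
  have hηn0 : 0 ≤ ηn := by positivity
  have hηn1 : ηn ≤ η := by
    rw [hηn, div_le_iff₀ (mul_pos two_pos hlogn)]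
    exact le_mul_of_one_le_right hη0.le (by linarith only [hn1])
  set uι : Fin K × Bool → Fin n → ℝ := fun i => u i.1 i.2 with huι
  have hG' : ∀ i j, |uι i ⬝ᵥ uι j - (if i = j then 1 else 0)| ≤ ηn := by
    intro i j
    have h2 := hG i.1 i.2 j.1 j.2
    have e : (if i = j then (1 : ℝ) else 0) = if i.1 = j.1 ∧ i.2 = j.2 then 1 else 0 := by
      simp only [Prod.ext_iff]
    rw [e]
    exact h2
  set A : ℝ := 1 + ηn * Fintype.card (Fin K × Bool) with hA
  have hAr : A ≤ 1 / r := by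
    have hcard : (Fintype.card (Fin K × Bool) : ℝ) = 2 * K := by
      simp [mul_comm]
    rw [hA, hcard, hηn]
    have h2 : η / (2 * log n) * (2 * K) = η * (K / log n) := by field_simp
    rw [h2]
    have h3 : (K : ℝ) / log n ≤ X / π := by
      rw [div_le_div_iff₀ hlogn hπ]
      rw [le_div_iff₀ hπ] at hK2
      exact hK2.trans (mul_le_mul_of_nonneg_left hl2 hX.le)
    have h4 : η * (K / log n) ≤ η * (X / π) := mul_le_mul_of_nonneg_left h3 hη0.le
    have h5 : η * (X / π) ≤ 1 / r - 1 := by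
      rw [mul_div_assoc', div_le_iff₀ hπ]
      exact hη5
    linarith
  have hA0 : 0 ≤ A := by positivity
  have hself : ∀ i, 1 - η ≤ uι i ⬝ᵥ uι i ∧ uι i ⬝ᵥ uι i ≤ 1 + η := by
    intro i
    have h2 := hG' i i
    rw [if_pos rfl, abs_le] at h2
    constructor <;> linarith
  have hηlt : η < 1 := by linarith
  have htr := trace_lower (TT n) (TT_herm n) uι hA0 (bessel uι hG') (HH t X) (HH_convex h0 h1)
    (fun E _ => HH_nonneg t X E) (1 / 2) (fun i => by linarith [(hself i).1])
  -- lower bound of the left side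
  set Δ : ℝ := 2 * π ^ 2 / (3 * l) with hΔ
  have hΔ0 : 0 < Δ := by positivity
  set a : ℕ := ⌈σ * l / π⌉₊ with ha
  have ha1 : σ * l / π ≤ a := Nat.le_ceil _
  have ha2 : (a : ℝ) ≤ σ * l / π + 1 := (Nat.ceil_lt_add_one (by positivity)).le
  have hterm : ∀ i : Fin K × Bool, (1 - η) * (hh t (((i.1 : ℕ) + a + 1) * Δ) - hh t (2 * π * X / 3)) ≤
      (uι i ⬝ᵥ uι i) * HH t X (((TT n *ᵥ uι i - (1 / 2 : ℝ) • uι i) ⬝ᵥ
        (TT n *ᵥ uι i - (1 / 2 : ℝ) • uι i)) / (uι i ⬝ᵥ uι i)) := by
    intro i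
    set α : ℝ := π * ((i.1 : ℕ) + 1) / l with hα
    have hα0 : 0 ≤ α := by positivity
    have hαX : α ≤ X := by
      rw [hα, div_le_iff₀ hl0]
      have h2 : ((i.1 : ℕ) : ℝ) + 1 ≤ K := by exact_mod_cast i.1.2
      have h3 := h2.trans hK2
      rw [le_div_iff₀ hπ] at h3
      linarith
    have hE := hEn i.1 i.2
    have hTT : TT n *ᵥ uι i = ((n : ℝ) ^ 2)⁻¹ • (trid n *ᵥ uι i) := by
      unfold TT
      rw [smul_mulVec]
    have hE' : (TT n *ᵥ uι i - (1 / 2 : ℝ) • uι i) ⬝ᵥ (TT n *ᵥ uι i - (1 / 2 : ℝ) • uι i) ≤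
        3 * α ^ 2 + η := by
      rw [hTT]
      exact hE
    obtain ⟨hs1, hs2⟩ := hself i
    have hpos : 0 < uι i ⬝ᵥ uι i := by linarith
    have hquot : ((TT n *ᵥ uι i - (1 / 2 : ℝ) • uι i) ⬝ᵥ (TT n *ᵥ uι i - (1 / 2 : ℝ) • uι i)) /
        (uι i ⬝ᵥ uι i) ≤ 3 * (α + σ) ^ 2 := by
      rw [div_le_iff₀ hpos]
      have h4 : α ^ 2 ≤ X ^ 2 := pow_le_pow_left₀ hα0 hαX 2
      have h5 : 3 * α ^ 2 + η ≤ (3 * (α ^ 2 + σ ^ 2)) * (1 - η) := by
        have h5a := mul_le_mul_of_nonneg_left h4 hη0.le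
        have e1 : η * (1 + 3 * X ^ 2 + 3 * σ ^ 2) = η + 3 * (η * X ^ 2) + 3 * (η * σ ^ 2) := by ring
        have e2 : (3 * (α ^ 2 + σ ^ 2)) * (1 - η) =
          3 * α ^ 2 + 3 * σ ^ 2 - 3 * (η * α ^ 2) - 3 * (η * σ ^ 2) := by ring
        rw [e1] at hη4
        rw [e2]
        linarith only [h5a, hη4]
      have h6 : (3 * (α ^ 2 + σ ^ 2)) * (1 - η) ≤ 3 * (α + σ) ^ 2 * (uι i ⬝ᵥ uι i) := by
        have e3 : 3 * (α + σ) ^ 2 = 3 * (α ^ 2 + σ ^ 2) + 6 * (α * σ) := by ring
        have h6a := mul_nonneg hα0 hσ0.le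
        refine mul_le_mul ?_ hs1 (by linarith only [hηlt]) (by positivity)
        rw [e3]
        linarith only [h6a]
      linarith
    have hHm := HH_anti (X := X) h0 h1 hquot
    have hge := HH_ge (t := t) (X := X) (a := α + σ) (by positivity)
    have hshift : hh t (((i.1 : ℕ) + a + 1) * Δ) ≤ hh t (2 * π / 3 * (α + σ)) := by
      apply hh_anti h0 h1
      rw [abs_of_nonneg (by positivity), abs_of_nonneg (by positivity)]
      have h7 : 2 * π / 3 * (α + σ) = ((i.1 : ℕ) + σ * l / π + 1) * Δ := by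
        rw [hα, hΔ]
        field_simp
        ring
      rw [h7]
      apply mul_le_mul_of_nonneg_right _ hΔ0.le
      linarith
    have hHH0 := HH_nonneg t X (((TT n *ᵥ uι i - (1 / 2 : ℝ) • uι i) ⬝ᵥ
      (TT n *ᵥ uι i - (1 / 2 : ℝ) • uι i)) / (uι i ⬝ᵥ uι i))
    calc (1 - η) * (hh t (((i.1 : ℕ) + a + 1) * Δ) - hh t (2 * π * X / 3)) ≤
          (1 - η) * HH t X (((TT n *ᵥ uι i - (1 / 2 : ℝ) • uι i) ⬝ᵥ
      (TT n *ᵥ uι i - (1 / 2 : ℝ) • uι i)) / (uι i ⬝ᵥ uι i)) := by
            apply mul_le_mul_of_nonneg_left _ (by linarith)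
            linarith
      _ ≤ _ := mul_le_mul_of_nonneg_right hs1 hHH0
  have hsum := Finset.sum_le_sum fun i (_ : i ∈ (Finset.univ : Finset (Fin K × Bool))) => hterm i
  have hsumeq : ∑ i : Fin K × Bool, (1 - η) * (hh t (((i.1 : ℕ) + a + 1) * Δ) - hh t (2 * π * X / 3)) =
      2 * (1 - η) * (∑ k ∈ Finset.Ico a (a + K), sin t / (cos t + cosh ((k + 1) * Δ)) -
        K * hh t (2 * π * X / 3)) := by
    rw [Fintype.sum_prod_type]
    simp only [Finset.sum_const, Finset.card_univ, Fintype.card_bool, nsmul_eq_mul]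
    rw [← Finset.mul_sum, ← Finset.mul_sum, Finset.sum_sub_distrib,
      Fin.sum_univ_eq_sum_range (fun k : ℕ => hh t (((k : ℝ) + a + 1) * Δ)) K]
    simp only [Finset.sum_const, Finset.card_univ, Fintype.card_fin, nsmul_eq_mul]
    rw [Finset.sum_Ico_eq_sum_range, Nat.add_sub_cancel_left]
    have e : ∀ k ∈ Finset.range K, hh t (((k : ℝ) + a + 1) * Δ) =
        sin t / (cos t + cosh ((((a + k : ℕ) : ℝ) + 1) * Δ)) := by
      intro k _
      unfold hh
      push_cast
      rw [add_comm (a : ℝ) k]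
    rw [Finset.sum_congr rfl e]
    push_cast
    ring
  have hint := sum_h_ge h0 h1 hΔ0 a (a + K) (Nat.le_add_right _ _)
  have htan := tan_half_pos h0 h1
  have hup : 2 * arctan (tan (t / 2) * tanh (π * X / 3)) ≤
      2 * arctan (tan (t / 2) * tanh ((((a + K : ℕ) : ℝ) + 1) * Δ / 2)) := by
    apply mul_le_mul_of_nonneg_left _ (by norm_num)
    apply arctan_mono
    apply mul_le_mul_of_nonneg_left _ htan.le
    apply tanh_mono
    push_cast
    have h8 : X * l / π ≤ a + K + 1 := by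
      have : (0 : ℝ) ≤ a := by positivity
      linarith
    calc π * X / 3 = (X * l / π) * Δ / 2 := by
          rw [hΔ]
          field_simp
      _ ≤ (a + K + 1) * Δ / 2 := by
          apply div_le_div_of_nonneg_right _ (by norm_num)
          exact mul_le_mul_of_nonneg_right h8 hΔ0.le
  have hlo : 2 * arctan (tan (t / 2) * tanh (((a : ℝ) + 1) * Δ / 2)) ≤
      2 * arctan (tan (t / 2) * tanh s) := by
    apply mul_le_mul_of_nonneg_left _ (by norm_num)
    apply arctan_mono
    apply mul_le_mul_of_nonneg_left _ htan.le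
    apply tanh_mono
    calc ((a : ℝ) + 1) * Δ / 2 ≤ (σ * l / π + 2) * Δ / 2 := by
          apply div_le_div_of_nonneg_right _ (by norm_num)
          exact mul_le_mul_of_nonneg_right (by linarith) hΔ0.le
      _ = s / 3 + 2 * π ^ 2 / (3 * l) := by
          rw [hΔ, hσ]
          field_simp
      _ ≤ s := by
          have : 2 * π ^ 2 / (3 * l) ≤ 2 / 3 * s := by
            rw [div_le_iff₀ (mul_pos three_pos hl0)]
            have e4 : 2 / 3 * s * (3 * l) = 2 * (s * l) := by ring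
            rw [e4]
            linarith only [hls]
          linarith only [this]
  have hKb : Δ * (K * hh t (2 * π * X / 3)) ≤ (1 - r) * t / 3 := by
    have hhp := (hh_pos h0 h1 (2 * π * X / 3)).le
    calc Δ * (K * hh t (2 * π * X / 3)) ≤ Δ * ((X * l / π) * hh t (2 * π * X / 3)) := by
          apply mul_le_mul_of_nonneg_left _ hΔ0.le
          exact mul_le_mul_of_nonneg_right hK2 hhp
      _ = 2 * π / 3 * X * hh t (2 * π * X / 3) := by
          rw [hΔ]
          field_simp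
      _ ≤ _ := hX2
  set S₀ := ∑ k ∈ Finset.Ico a (a + K), sin t / (cos t + cosh (((k : ℝ) + 1) * Δ)) with hS₀
  have hmain : r * t ≤ Δ * (S₀ - K * hh t (2 * π * X / 3)) := by
    rw [mul_sub]
    linarith only [hint, hup, hlo, hX1, hs1, hKb]
  have hmain2 : 3 * l / (2 * π ^ 2) * (r * t) ≤ S₀ - K * hh t (2 * π * X / 3) := by
    calc 3 * l / (2 * π ^ 2) * (r * t) ≤
          3 * l / (2 * π ^ 2) * (Δ * (S₀ - K * hh t (2 * π * X / 3))) :=
          mul_le_mul_of_nonneg_left hmain (by positivity)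
      _ = _ := by
          rw [hΔ]
          field_simp
  -- conclusion
  have hfin : 2 * (1 - η) * (3 * l / (2 * π ^ 2) * (r * t)) ≤
      A * ∑ k, HH t X (((TT_herm n).eigenvalues k - 1 / 2) ^ 2) := by
    refine le_trans ?_ ((hsumeq.symm.le.trans hsum).trans htr)
    exact mul_le_mul_of_nonneg_left hmain2 (by linarith)
  have hHsum : ∑ k, HH t X (((TT_herm n).eigenvalues k - 1 / 2) ^ 2) ≤
      ∑ k : Fin n, sin t / (cos t + cosh (mu n k)) := Finset.sum_le_sum fun k _ => hH k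
  set SS := ∑ k : Fin n, sin t / (cos t + cosh (mu n k)) with hSS
  have hSS0 : 0 ≤ SS := Finset.sum_nonneg fun k _ => (hh_pos h0 h1 (mu n k)).le
  have hA2 : A * ∑ k, HH t X (((TT_herm n).eigenvalues k - 1 / 2) ^ 2) ≤ 1 / r * SS := by
    calc _ ≤ A * SS := mul_le_mul_of_nonneg_left hHsum hA0
      _ ≤ _ := mul_le_mul_of_nonneg_right hAr hSS0
  have hfin2 : 2 * (1 - η) * (3 * l / (2 * π ^ 2) * (r * t)) ≤ 1 / r * SS := hfin.trans hA2
  have hfin3 : r * (2 * (1 - η) * (3 * l / (2 * π ^ 2) * (r * t))) ≤ SS := by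
    have := mul_le_mul_of_nonneg_left hfin2 hr0.le
    have e : r * (1 / r * SS) = SS := by field_simp
    linarith
  have hlow : r ^ 4 * (3 * t / π ^ 2) * log n ≤ r * (2 * (1 - η) * (3 * l / (2 * π ^ 2) * (r * t))) := by
    have e : r * (2 * (1 - η) * (3 * l / (2 * π ^ 2) * (r * t))) =
        (1 - η) * l * (r ^ 2 * (3 * t / π ^ 2)) := by
      field_simp
    have e2 : r ^ 4 * (3 * t / π ^ 2) * log n = (r * (r * log n)) * (r ^ 2 * (3 * t / π ^ 2)) := by ring
    rw [e, e2]
    apply mul_le_mul_of_nonneg_right _ (by positivity)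
    exact mul_le_mul (by linarith) hlr (by positivity) (by linarith)
  rw [hρt]
  have hρr : ρ * (3 * t / π ^ 2) * log n ≤ r ^ 4 * (3 * t / π ^ 2) * log n := by
    apply mul_le_mul_of_nonneg_right _ hlogn.le
    exact mul_le_mul_of_nonneg_right hrρ (by positivity)
  linarith

end Pool.Agent.H66.OneArm
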