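import Mathlib

/-!
# A maximum principle on the unit interval
-/

open Set Filter Topology

namespace Pool.Agent.H66.OneArm

/-- At an interior maximum the second derivative is not positive. -/
lemma second_deriv_nonpos {z z1 : ℝ → ℝ} {z2 t : ℝ} (hz : ∀ s ∈ Ioo (0 : ℝ) 1, HasDerivAt z (z1 s) s)
    (hz1 : HasDerivAt z1 z2 t) (ht : t ∈ Ioo (0 : ℝ) 1) (hmax : ∀ s ∈ Icc (0 : ℝ) 1, z s ≤ z t) :
    z1 t = 0 ∧ z2 ≤ 0 := by
  have hloc : IsLocalMax z t := by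
    filter_upwards [Ioo_mem_nhds ht.1 ht.2] with s hs
    exact hmax s ⟨hs.1.le, hs.2.le⟩
  have h0 : z1 t = 0 := hloc.hasDerivAt_eq_zero (hz t ht)
  refine ⟨h0, ?_⟩
  by_contra hcon
  push Not at hcon
  -- the first derivative is positive just after `t`
  have h1 : ∀ᶠ s in 𝓝[>] t, 0 < z1 s := by
    have h2 := hz1.tendsto_slope
    have h3 : ∀ᶠ s in 𝓝[≠] t, 0 < slope z1 t s := h2.eventually (lt_mem_nhds hcon)
    have h4 : ∀ᶠ s in 𝓝[>] t, 0 < slope z1 t s :=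
      h3.filter_mono (nhdsWithin_mono _ fun s hs => ne_of_gt hs)
    filter_upwards [h4, self_mem_nhdsWithin] with s hs hts
    rw [slope_def_field, h0, sub_zero] at hs
    have hts' : 0 < s - t := sub_pos.mpr hts
    have := mul_pos hs hts'
    rwa [div_mul_cancel₀ _ hts'.ne'] at this
  obtain ⟨u, hu, hu2⟩ := mem_nhdsGT_iff_exists_Ioo_subset.mp
    (inter_mem h1 (Ioo_mem_nhdsGT ht.2))
  set w := (t + u) / 2 with hw
  have htu : t < u := hu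
  have hwt : t < w := by rw [hw]; linarith
  have hwu : w < u := by rw [hw]; linarith
  have hw1 : w < 1 := (hu2 ⟨hwt, hwu⟩).2.2
  have hmono : StrictMonoOn z (Icc t w) := by
    apply strictMonoOn_of_deriv_pos (convex_Icc t w)
    · intro s hs
      exact (hz s ⟨lt_of_lt_of_le ht.1 hs.1, lt_of_le_of_lt hs.2 hw1⟩).continuousAt.continuousWithinAt
    · intro s hs
      rw [interior_Icc] at hs
      rw [(hz s ⟨ht.1.trans hs.1, hs.2.trans hw1⟩).deriv]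
      exact (hu2 ⟨hs.1, hs.2.trans hwu⟩).1
  have h5 := hmono ⟨le_rfl, hwt.le⟩ ⟨hwt.le, le_rfl⟩ hwt
  have h6 := hmax w ⟨(ht.1.trans hwt).le, hw1.le⟩
  linarith

/-- One-sided maximum principle. -/
lemma max_principle_aux {z z1 z2 q P A Bf F : ℝ → ℝ} {ε b f : ℝ}
    (hz : ∀ t ∈ Icc (0 : ℝ) 1, HasDerivAt z (z1 t) t)
    (hz1 : ∀ t ∈ Icc (0 : ℝ) 1, HasDerivAt z1 (z2 t) t)
    (hq : ∀ t ∈ Icc (0 : ℝ) 1, 3 / 4 ≤ q t) (hP : ∀ t ∈ Icc (0 : ℝ) 1, 0 ≤ P t)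
    (hP0 : P 0 = 0) (hP1 : P 1 = 0) (hA0 : A 0 = 0) (hA1 : A 1 = 0)
    (hB : ∀ t ∈ Icc (0 : ℝ) 1, |Bf t| ≤ b) (hF : ∀ t ∈ Icc (0 : ℝ) 1, |F t| ≤ f)
    (hε : 0 ≤ ε) (hεb : ε * b ≤ 1 / 4)
    (heq : ∀ t ∈ Icc (0 : ℝ) 1, q t * z t = ε * (P t * z2 t + A t * z1 t + Bf t * z t + F t)) :
    ∀ t ∈ Icc (0 : ℝ) 1, z t ≤ 2 * ε * f := by
  have hcont : ContinuousOn z (Icc 0 1) := fun t ht => (hz t ht).continuousAt.continuousWithinAt
  obtain ⟨t₀, ht₀, hmax⟩ := isCompact_Icc.exists_isMaxOn (nonempty_Icc.mpr zero_le_one) hcont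
  have hmax' : ∀ s ∈ Icc (0 : ℝ) 1, z s ≤ z t₀ := fun s hs => hmax hs
  have hf0 : 0 ≤ f := (abs_nonneg _).trans (hF 0 ⟨le_rfl, zero_le_one⟩)
  suffices h : z t₀ ≤ 2 * ε * f from fun t ht => (hmax' t ht).trans h
  by_contra hcon
  push Not at hcon
  have hpos : 0 < z t₀ := lt_of_le_of_lt (by positivity) hcon
  have key : q t₀ * z t₀ ≤ ε * (Bf t₀ * z t₀ + F t₀) := by
    rw [heq t₀ ht₀]
    refine mul_le_mul_of_nonneg_left ?_ hε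
    rcases eq_or_lt_of_le ht₀.1 with h0 | h0
    · rw [← h0, hP0, hA0]
      linarith
    rcases eq_or_lt_of_le ht₀.2 with h1 | h1
    · rw [h1, hP1, hA1]
      linarith
    obtain ⟨h2, h3⟩ := second_deriv_nonpos
      (fun s hs => hz s ⟨hs.1.le, hs.2.le⟩) (hz1 t₀ ht₀) ⟨h0, h1⟩ hmax'
    rw [h2]
    have := mul_nonpos_of_nonneg_of_nonpos (hP t₀ ht₀) h3
    linarith
  have h1 : Bf t₀ * z t₀ ≤ b * z t₀ :=
    mul_le_mul_of_nonneg_right ((le_abs_self _).trans (hB t₀ ht₀)) hpos.le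
  have h2 : F t₀ ≤ f := (le_abs_self _).trans (hF t₀ ht₀)
  have h3 : q t₀ * z t₀ ≤ ε * (b * z t₀ + f) :=
    key.trans (mul_le_mul_of_nonneg_left (add_le_add h1 h2) hε)
  have h4 := mul_le_mul_of_nonneg_right (hq t₀ ht₀) hpos.le
  have h5 : ε * (b * z t₀) ≤ 1 / 4 * z t₀ := by
    rw [← mul_assoc]
    exact mul_le_mul_of_nonneg_right hεb hpos.le
  nlinarith

/-- **Maximum principle.** -/
theorem max_principle {z z1 z2 q P A Bf F : ℝ → ℝ} {ε b f : ℝ}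
    (hz : ∀ t ∈ Icc (0 : ℝ) 1, HasDerivAt z (z1 t) t)
    (hz1 : ∀ t ∈ Icc (0 : ℝ) 1, HasDerivAt z1 (z2 t) t)
    (hq : ∀ t ∈ Icc (0 : ℝ) 1, 3 / 4 ≤ q t) (hP : ∀ t ∈ Icc (0 : ℝ) 1, 0 ≤ P t)
    (hP0 : P 0 = 0) (hP1 : P 1 = 0) (hA0 : A 0 = 0) (hA1 : A 1 = 0)
    (hB : ∀ t ∈ Icc (0 : ℝ) 1, |Bf t| ≤ b) (hF : ∀ t ∈ Icc (0 : ℝ) 1, |F t| ≤ f)
    (hε : 0 ≤ ε) (hεb : ε * b ≤ 1 / 4)
    (heq : ∀ t ∈ Icc (0 : ℝ) 1, q t * z t = ε * (P t * z2 t + A t * z1 t + Bf t * z t + F t)) :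
    ∀ t ∈ Icc (0 : ℝ) 1, |z t| ≤ 2 * ε * f := by
  intro t ht
  rw [abs_le]
  constructor
  · have h := max_principle_aux (z := fun s => -z s) (z1 := fun s => -z1 s) (z2 := fun s => -z2 s)
      (F := fun s => -F s) (fun s hs => (hz s hs).neg) (fun s hs => (hz1 s hs).neg) hq hP hP0 hP1
      hA0 hA1 hB (fun s hs => by rw [abs_neg]; exact hF s hs) hε hεb
      (fun s hs => by have := heq s hs; linear_combination -this) t ht
    linarith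
  · exact max_principle_aux hz hz1 hq hP hP0 hP1 hA0 hA1 hB hF hε hεb heq t ht

end Pool.Agent.H66.OneArm
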