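import Pool.Agent.H66.OneArm.Eigen

/-!
# The differential equation of the eigenvectors
-/

open Matrix Finset

namespace Pool.Agent.H66.OneArm

variable {n : ℕ}

/-- The generating polynomial of a vector and its derivatives. -/
noncomputable def V0 (v : Fin n → ℝ) (t : ℝ) : ℝ := ∑ i ∈ range n, ext v i * t ^ i
noncomputable def V1 (v : Fin n → ℝ) (t : ℝ) : ℝ := ∑ i ∈ range n, ext v i * (i * t ^ (i - 1))
noncomputable def V2 (v : Fin n → ℝ) (t : ℝ) : ℝ :=
  ∑ i ∈ range n, ext v i * (i * (i - 1) * t ^ (i - 2))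
noncomputable def V3 (v : Fin n → ℝ) (t : ℝ) : ℝ :=
  ∑ i ∈ range n, ext v i * (i * (i - 1) * (i - 2) * t ^ (i - 3))

lemma hasDerivAt_V0 (v : Fin n → ℝ) (t : ℝ) : HasDerivAt (V0 v) (V1 v t) t := by
  unfold V0 V1
  exact HasDerivAt.fun_sum fun i _ => (hasDerivAt_pow i t).const_mul _

lemma hasDerivAt_V1 (v : Fin n → ℝ) (t : ℝ) : HasDerivAt (V1 v) (V2 v t) t := by
  unfold V1 V2
  refine HasDerivAt.fun_sum fun i _ => ?_
  have h := ((hasDerivAt_pow (i - 1) t).const_mul (i : ℝ)).const_mul (ext v i)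
  refine h.congr_deriv ?_
  rcases Nat.eq_zero_or_pos i with h0 | h0
  · subst h0
    simp
  · rw [Nat.cast_sub h0, show i - 1 - 1 = i - 2 by omega]
    push_cast
    ring

lemma hasDerivAt_V2 (v : Fin n → ℝ) (t : ℝ) : HasDerivAt (V2 v) (V3 v t) t := by
  unfold V2 V3
  refine HasDerivAt.fun_sum fun i _ => ?_
  have h := ((hasDerivAt_pow (i - 2) t).const_mul ((i : ℝ) * (i - 1))).const_mul (ext v i)
  refine h.congr_deriv ?_
  rcases Nat.lt_or_ge i 2 with h0 | h0
  · interval_cases i <;> simp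
  · rw [Nat.cast_sub h0, show i - 2 - 1 = i - 3 by omega]
    push_cast
    ring

/-- The differential operator on monomials. -/
lemma monomial_ode (n : ℕ) (i : ℕ) (t : ℝ) :
    (n : ℝ) ^ 2 * ((t ^ 2 - t + 1) * (i * t ^ (i - 1)) + t * t ^ i)
      - t ^ 2 * (1 - t) ^ 2 * (i * (i - 1) * (i - 2) * t ^ (i - 3))
      - 3 * (t * (1 - t) * (1 - 2 * t)) * (i * (i - 1) * t ^ (i - 2))
      - (7 * t ^ 2 - 7 * t + 1) * (i * t ^ (i - 1)) - t * t ^ i =
    offd n i * t ^ (i + 1) + diag n i * t ^ i + (if i = 0 then 0 else offd n (i - 1) * t ^ (i - 1)) := by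
  rcases Nat.lt_or_ge i 3 with h0 | h0
  · interval_cases i <;> simp [offd, diag] <;> ring
  · obtain ⟨k, rfl⟩ : ∃ k, i = k + 3 := ⟨i - 3, by omega⟩
    rw [if_neg (by omega), show k + 3 - 1 = k + 2 by omega, show k + 3 - 2 = k + 1 by omega,
      show k + 3 - 3 = k by omega]
    unfold offd diag
    push_cast
    ring

/-- The differential equation. -/
lemma ode (v : Fin n → ℝ) {τ : ℝ} (hv : trid n *ᵥ v = τ • v) (t : ℝ) :
    (n : ℝ) ^ 2 * ((t ^ 2 - t + 1) * V1 v t + t * V0 v t) - t ^ 2 * (1 - t) ^ 2 * V3 v t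
      - 3 * (t * (1 - t) * (1 - 2 * t)) * V2 v t - (7 * t ^ 2 - 7 * t + 1) * V1 v t - t * V0 v t =
    τ * V0 v t := by
  have h1 : (n : ℝ) ^ 2 * ((t ^ 2 - t + 1) * V1 v t + t * V0 v t) - t ^ 2 * (1 - t) ^ 2 * V3 v t
      - 3 * (t * (1 - t) * (1 - 2 * t)) * V2 v t - (7 * t ^ 2 - 7 * t + 1) * V1 v t - t * V0 v t =
      ∑ i ∈ range n, ext v i * (offd n i * t ^ (i + 1) + diag n i * t ^ i +
        (if i = 0 then 0 else offd n (i - 1) * t ^ (i - 1))) := by
    unfold V0 V1 V2 V3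
    simp only [mul_sum, ← sum_add_distrib, ← sum_sub_distrib]
    refine sum_congr rfl fun i _ => ?_
    rw [← monomial_ode n i t]
    ring
  have hrow : ∀ i < n, (if i = 0 then 0 else offd n (i - 1) * ext v (i - 1)) +
      diag n i * ext v i + offd n i * ext v (i + 1) = τ * ext v i := by
    intro i hi
    have h := congrFun hv ⟨i, hi⟩
    rw [trid_mulVec] at h
    simp only [Pi.smul_apply, smul_eq_mul] at h
    rw [← ext_of_lt v hi] at h
    exact h
  rw [h1]
  rcases Nat.eq_zero_or_pos n with h0 | h0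
  · subst h0
    simp [V0]
  obtain ⟨m, rfl⟩ : ∃ m, n = m + 1 := ⟨n - 1, by omega⟩
  have h2 : τ * V0 v t = ∑ i ∈ range (m + 1), ((if i = 0 then 0 else offd (m + 1) (i - 1) *
      ext v (i - 1)) + diag (m + 1) i * ext v i + offd (m + 1) i * ext v (i + 1)) * t ^ i := by
    unfold V0
    rw [mul_sum]
    refine sum_congr rfl fun i hi => ?_
    rw [hrow i (mem_range.mp hi)]
    ring
  rw [h2]
  -- compare the two sums
  have hlast : offd (m + 1) m = 0 := by
    have := offd_last (n := m + 1) (by omega)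
    rwa [Nat.add_sub_cancel] at this
  have hext : ext v (m + 1) = 0 := ext_of_le v le_rfl
  have hA : ∑ i ∈ range (m + 1), ext v i * (offd (m + 1) i * t ^ (i + 1)) =
      ∑ i ∈ range (m + 1), (if i = 0 then 0 else offd (m + 1) (i - 1) * ext v (i - 1)) * t ^ i := by
    rw [sum_range_succ, sum_range_succ', hlast]
    simp only [if_true, zero_mul, mul_zero, add_zero]
    refine sum_congr rfl fun i _ => ?_
    rw [if_neg (by omega), Nat.add_sub_cancel]
    ring
  have hB : ∑ i ∈ range (m + 1), ext v i * (if i = 0 then 0 else offd (m + 1) (i - 1) * t ^ (i - 1)) =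
      ∑ i ∈ range (m + 1), offd (m + 1) i * ext v (i + 1) * t ^ i := by
    rw [sum_range_succ', sum_range_succ, hext]
    simp only [if_true, zero_mul, mul_zero, add_zero]
    refine sum_congr rfl fun i _ => ?_
    rw [if_neg (by omega), Nat.add_sub_cancel]
    ring
  simp only [mul_add, add_mul, sum_add_distrib]
  rw [hA, hB]
  congr 2
  exact sum_congr rfl fun i _ => by ring

lemma V0_zero (v : Fin n → ℝ) : V0 v 0 = ext v 0 := by
  unfold V0
  rcases Nat.eq_zero_or_pos n with h0 | h0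
  · subst h0
    simp [ext]
  · rw [sum_eq_single 0]
    · simp
    · intro i _ hi
      simp [hi]
    · intro h
      exact absurd (mem_range.mpr h0) h

lemma V0_one (v : Fin n → ℝ) : V0 v 1 = ∑ j, v j := by
  unfold V0
  rw [← Fin.sum_univ_eq_sum_range (fun i => ext v i * (1 : ℝ) ^ i) n]
  simp

end Pool.Agent.H66.OneArm
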