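import Pool.Agent.H66.OneArm.Defs

/-!
# The phases of the quasi-modes
-/

open Matrix Finset Real

namespace Pool.Agent.H66.OneArm

/-- Off-diagonal entries (divided by `n ^ 2`). -/
noncomputable def gg (n : ℕ) (b : ℝ) : ℝ := b * (1 - b ^ 2 / (n : ℝ) ^ 2)

/-- Minus the diagonal entries. -/
noncomputable def bet (n : ℕ) (b : ℝ) : ℝ := b - 2 * b ^ 3 / (n : ℝ) ^ 2

noncomputable def kap (n : ℕ) (b : ℝ) : ℝ := b * √(3 - 4 * (b ^ 2 / (n : ℝ) ^ 2))

/-- The local phase factor. -/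
noncomputable def phase (n : ℕ) (b : ℝ) : ℂ := ⟨bet n b / (2 * gg n b), kap n b / (2 * gg n b)⟩

/-- The phases. -/
noncomputable def cc (n : ℕ) (j : ℕ) : ℂ := ∏ b ∈ range j, phase n ((b : ℝ) + 1)

lemma cc_succ (n j : ℕ) : cc n (j + 1) = cc n j * phase n ((j : ℝ) + 1) := by
  unfold cc
  rw [prod_range_succ]

lemma sq_div_le {n : ℕ} {b : ℝ} (hb : 0 ≤ b) (hbn : b ≤ n / 2) : b ^ 2 / (n : ℝ) ^ 2 ≤ 1 / 4 := by
  rcases Nat.eq_zero_or_pos n with h | h
  · subst h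
    simp
  · have hn : (0 : ℝ) < n := by exact_mod_cast h
    rw [div_le_iff₀ (by positivity)]
    nlinarith

lemma gg_pos {n : ℕ} {b : ℝ} (hb : 0 < b) (hbn : b ≤ n / 2) : 0 < gg n b := by
  unfold gg
  have := sq_div_le hb.le hbn
  exact mul_pos hb (by linarith)

lemma bet_sq_add_kap_sq {n : ℕ} {b : ℝ} (hb : 0 ≤ b) (hbn : b ≤ n / 2) :
    bet n b ^ 2 + kap n b ^ 2 = (2 * gg n b) ^ 2 := by
  have h := sq_div_le hb hbn
  unfold bet kap gg
  rw [mul_pow b, Real.sq_sqrt (by linarith)]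
  ring

lemma normSq_phase {n : ℕ} {b : ℝ} (hb : 0 < b) (hbn : b ≤ n / 2) :
    Complex.normSq (phase n b) = 1 := by
  have hg := gg_pos hb hbn
  rw [Complex.normSq_apply]
  unfold phase
  simp only
  have h := bet_sq_add_kap_sq hb.le hbn
  field_simp
  linarith

lemma normSq_cc {n j : ℕ} (h : (j : ℝ) ≤ n / 2) : Complex.normSq (cc n j) = 1 := by
  induction j with
  | zero => simp [cc]
  | succ j ih =>
    push_cast at h
    rw [cc_succ, map_mul, ih (by linarith), normSq_phase (by positivity) h, one_mul]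

/-- `g(j+1) c_(j+1) = (β + i κ)/2 c_j`. -/
lemma gg_mul_cc_succ {n j : ℕ} (h : (j : ℝ) + 1 ≤ n / 2) :
    (gg n ((j : ℝ) + 1) : ℂ) * cc n (j + 1) =
      cc n j * ⟨bet n ((j : ℝ) + 1) / 2, kap n ((j : ℝ) + 1) / 2⟩ := by
  have hg := gg_pos (n := n) (b := (j : ℝ) + 1) (by positivity) h
  have e : (gg n ((j : ℝ) + 1) : ℂ) * phase n ((j : ℝ) + 1) =
      ⟨bet n ((j : ℝ) + 1) / 2, kap n ((j : ℝ) + 1) / 2⟩ := by
    unfold phase
    apply Complex.ext
    · simp only [Complex.mul_re, Complex.ofReal_re, Complex.ofReal_im, zero_mul, sub_zero]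
      field_simp
    · simp only [Complex.mul_im, Complex.ofReal_re, Complex.ofReal_im, zero_mul, add_zero]
      field_simp
  rw [cc_succ, ← e]
  ring

/-- `g(j+1) c_j = (β - i κ)/2 c_(j+1)`. -/
lemma gg_mul_cc {n j : ℕ} (h : (j : ℝ) + 1 ≤ n / 2) :
    (gg n ((j : ℝ) + 1) : ℂ) * cc n j =
      cc n (j + 1) * ⟨bet n ((j : ℝ) + 1) / 2, -(kap n ((j : ℝ) + 1) / 2)⟩ := by
  have hg := gg_pos (n := n) (b := (j : ℝ) + 1) (by positivity) h
  have e : phase n ((j : ℝ) + 1) * ⟨bet n ((j : ℝ) + 1) / 2, -(kap n ((j : ℝ) + 1) / 2)⟩ =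
      (gg n ((j : ℝ) + 1) : ℂ) := by
    have h1 := bet_sq_add_kap_sq (n := n) (b := (j : ℝ) + 1) (by positivity) h
    unfold phase
    apply Complex.ext
    · simp only [Complex.mul_re, Complex.ofReal_re]
      field_simp
      linarith
    · simp only [Complex.mul_im, Complex.ofReal_im]
      field_simp
      ring
  rw [cc_succ, mul_assoc, e]
  ring

lemma offd_eq {n : ℕ} (hn : 1 ≤ n) (j : ℕ) : offd n j = (n : ℝ) ^ 2 * gg n ((j : ℝ) + 1) := by
  have : (n : ℝ) ≠ 0 := by positivity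
  unfold offd gg
  field_simp

lemma diag_eq {n : ℕ} (hn : 1 ≤ n) (j : ℕ) : diag n j - (n : ℝ) ^ 2 * (1 / 2) = (n : ℝ) ^ 2 *
    (-bet n ((j : ℝ) + 1 / 2) + (((j : ℝ) + 1 / 2) / 2 - 1 / 2) / (n : ℝ) ^ 2) := by
  have : (n : ℝ) ≠ 0 := by positivity
  unfold diag bet
  field_simp
  ring

end Pool.Agent.H66.OneArm
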