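import Mathlib

/-!
# Sums of `cos (γ log s) / s`
-/

open Finset Real Set

namespace Pool.Agent.H66.OneArm

/-- `cos (γ (log s - y)) / s`. -/
noncomputable def cs (γ y s : ℝ) : ℝ := cos (γ * (log s - y)) / s

/-- Its derivative. -/
noncomputable def cs' (γ y s : ℝ) : ℝ :=
  (-(sin (γ * (log s - y)) * γ) - cos (γ * (log s - y))) / s ^ 2

lemma hasDerivAt_cs (γ y : ℝ) {s : ℝ} (hs : 0 < s) : HasDerivAt (cs γ y) (cs' γ y s) s := by
  have h1 : HasDerivAt (fun s => γ * (log s - y)) (γ * s⁻¹) s :=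
    ((Real.hasDerivAt_log hs.ne').sub_const y).const_mul γ
  have h := h1.cos.div (hasDerivAt_id' s) hs.ne'
  refine h.congr_deriv ?_
  unfold cs'
  field_simp

lemma abs_cs'_le (γ y : ℝ) {s a : ℝ} (ha : 0 < a) (has : a ≤ s) : |cs' γ y s| ≤ (1 + |γ|) / a ^ 2 := by
  unfold cs'
  have hs : 0 < s := lt_of_lt_of_le ha has
  rw [abs_div, abs_of_pos (show 0 < s ^ 2 by positivity)]
  have h1 : |-(sin (γ * (log s - y)) * γ) - cos (γ * (log s - y))| ≤ 1 + |γ| := by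
    refine (abs_sub _ _).trans ?_
    rw [abs_neg, abs_mul]
    have h2 := abs_sin_le_one (γ * (log s - y))
    have h3 := abs_cos_le_one (γ * (log s - y))
    have h4 := mul_le_mul_of_nonneg_right h2 (abs_nonneg γ)
    linarith
  have h5 : 0 ≤ 1 + |γ| := by positivity
  exact div_le_div₀ h5 h1 (by positivity) (pow_le_pow_left₀ ha.le has 2)

lemma abs_cs_sub_le (γ y : ℝ) {s t a : ℝ} (ha : 0 < a) (has : a ≤ s) (hat : a ≤ t) :
    |cs γ y s - cs γ y t| ≤ (1 + |γ|) / a ^ 2 * |s - t| := by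
  have h := (convex_Ici a).norm_image_sub_le_of_norm_hasDerivWithin_le (f := cs γ y)
    (f' := cs' γ y) (C := (1 + |γ|) / a ^ 2)
    (fun u hu => (hasDerivAt_cs γ y (lt_of_lt_of_le ha hu)).hasDerivWithinAt)
    (fun u hu => by rw [Real.norm_eq_abs]; exact abs_cs'_le γ y ha hu) hat has
  simpa only [Real.norm_eq_abs] using h

lemma abs_cs_le (γ y : ℝ) {s : ℝ} (hs : 0 < s) : |cs γ y s| ≤ 1 / s := by
  unfold cs
  rw [abs_div, abs_of_pos hs]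
  gcongr
  exact abs_cos_le_one _

lemma sum_inv_sq_le {N₀ N₁ : ℕ} (h0 : 1 ≤ N₀) (h : N₀ ≤ N₁) :
    ∑ j ∈ Finset.Ico N₀ N₁, 1 / (j : ℝ) ^ 2 ≤ 2 / (N₀ : ℝ) := by
  have key : ∀ N₁ : ℕ, N₀ ≤ N₁ →
      ∑ j ∈ Finset.Ico N₀ N₁, 1 / (j : ℝ) ^ 2 ≤ 2 / (N₀ : ℝ) - 2 / (N₁ : ℝ) := by
    intro N₁ h
    induction N₁, h using Nat.le_induction with
    | base => simp
    | succ k hk ih =>
      rw [Finset.sum_Ico_succ_top hk]
      have hk0 : (0 : ℝ) < k := by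
        have : 1 ≤ k := h0.trans hk
        exact_mod_cast this
      have h1 : 1 / (k : ℝ) ^ 2 ≤ 2 / (k : ℝ) - 2 / ((k + 1 : ℕ) : ℝ) := by
        push_cast
        rw [div_sub_div _ _ hk0.ne' (by positivity), div_le_div_iff₀ (by positivity) (by positivity)]
        have : (1 : ℝ) ≤ k := by
          have : 1 ≤ k := h0.trans hk
          exact_mod_cast this
        nlinarith [mul_pos hk0 hk0]
      linarith
  have h1 := key N₁ h
  have h2 : (0 : ℝ) ≤ 2 / (N₁ : ℝ) := by positivity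
  linarith

/-- Comparison of the sum with the integral. -/
lemma sum_cs {Φ : ℝ → ℝ} {γ y : ℝ} (hΦ : ∀ s, 0 < s → HasDerivAt Φ (cs γ y s) s) {N₀ N₁ : ℕ}
    (h0 : 1 ≤ N₀) (h : N₀ ≤ N₁) :
    |∑ j ∈ Finset.Ico N₀ N₁, cs γ y ((j : ℝ) + 1 / 2) - (Φ N₁ - Φ N₀)| ≤ 2 * (1 + |γ|) / N₀ := by
  have hstep : ∀ j : ℕ, 1 ≤ j →
      |cs γ y ((j : ℝ) + 1 / 2) - (Φ ((j : ℝ) + 1) - Φ j)| ≤ (1 + |γ|) * (1 / (j : ℝ) ^ 2) := by
    intro j hj
    have hj0 : (0 : ℝ) < j := by exact_mod_cast hj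
    have h1 := (convex_Icc (j : ℝ) ((j : ℝ) + 1)).norm_image_sub_le_of_norm_hasDerivWithin_le
      (f := fun s => Φ s - cs γ y ((j : ℝ) + 1 / 2) * s)
      (f' := fun s => cs γ y s - cs γ y ((j : ℝ) + 1 / 2) * 1) (C := (1 + |γ|) / (j : ℝ) ^ 2)
      (fun u hu => ((hΦ u (lt_of_lt_of_le hj0 hu.1)).sub
        ((hasDerivAt_id' u).const_mul _)).hasDerivWithinAt)
      (fun u hu => by
        rw [Real.norm_eq_abs, mul_one]
        refine (abs_cs_sub_le γ y hj0 hu.1 (by linarith)).trans ?_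
        have h2 : |u - ((j : ℝ) + 1 / 2)| ≤ 1 := by
          rw [abs_le]
          constructor <;> linarith [hu.1, hu.2]
        have h3 : 0 ≤ (1 + |γ|) / (j : ℝ) ^ 2 := by positivity
        nlinarith)
      (x := (j : ℝ)) (y := (j : ℝ) + 1) ⟨le_rfl, by linarith⟩ ⟨by linarith, le_rfl⟩
    rw [Real.norm_eq_abs, Real.norm_eq_abs, add_sub_cancel_left, abs_one, mul_one] at h1
    have h4 : Φ ((j : ℝ) + 1) - cs γ y ((j : ℝ) + 1 / 2) * ((j : ℝ) + 1) -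
        (Φ j - cs γ y ((j : ℝ) + 1 / 2) * j) =
        -(cs γ y ((j : ℝ) + 1 / 2) - (Φ ((j : ℝ) + 1) - Φ j)) := by ring
    rw [h4, abs_neg] at h1
    calc _ ≤ (1 + |γ|) / (j : ℝ) ^ 2 := h1
      _ = _ := by ring
  have htel : Φ N₁ - Φ N₀ = ∑ j ∈ Finset.Ico N₀ N₁, (Φ ((j : ℝ) + 1) - Φ j) := by
    rw [← Finset.sum_Ico_sub (fun j : ℕ => Φ j) h]
    exact Finset.sum_congr rfl fun j _ => by push_cast; rfl
  rw [htel, ← Finset.sum_sub_distrib]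
  refine (Finset.abs_sum_le_sum_abs _ _).trans ?_
  calc ∑ j ∈ Finset.Ico N₀ N₁, |cs γ y ((j : ℝ) + 1 / 2) - (Φ ((j : ℝ) + 1) - Φ j)|
      ≤ ∑ j ∈ Finset.Ico N₀ N₁, (1 + |γ|) * (1 / (j : ℝ) ^ 2) :=
        Finset.sum_le_sum fun j hj => hstep j (h0.trans (Finset.mem_Ico.mp hj).1)
    _ = (1 + |γ|) * ∑ j ∈ Finset.Ico N₀ N₁, 1 / (j : ℝ) ^ 2 := by rw [Finset.mul_sum]
    _ ≤ (1 + |γ|) * (2 / N₀) := mul_le_mul_of_nonneg_left (sum_inv_sq_le h0 h) (by positivity)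
    _ = 2 * (1 + |γ|) / N₀ := by ring

/-- Frequency zero. -/
lemma sum_cs_zero (y : ℝ) {N₀ N₁ : ℕ} (h0 : 1 ≤ N₀) (h : N₀ ≤ N₁) :
    |∑ j ∈ Finset.Ico N₀ N₁, cs 0 y ((j : ℝ) + 1 / 2) - (log N₁ - log N₀)| ≤ 2 / N₀ := by
  have h1 := sum_cs (Φ := log) (γ := 0) (y := y)
    (fun s hs => (Real.hasDerivAt_log hs.ne').congr_deriv (by simp [cs])) h0 h
  simpa using h1

/-- Nonzero frequency with vanishing boundary terms. -/
lemma sum_cs_of_ne {γ : ℝ} (hγ : γ ≠ 0) {N₀ N₁ : ℕ} (h0 : 1 ≤ N₀) (h : N₀ ≤ N₁)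
    (hs : sin (γ * (log N₁ - log N₀)) = 0) :
    |∑ j ∈ Finset.Ico N₀ N₁, cs γ (log N₀) ((j : ℝ) + 1 / 2)| ≤ 2 * (1 + |γ|) / N₀ := by
  have h1 := sum_cs (Φ := fun s => sin (γ * (log s - log N₀)) / γ) (γ := γ) (y := log N₀)
    (fun s hs => by
      have h1 : HasDerivAt (fun s => γ * (log s - log N₀)) (γ * s⁻¹) s :=
        ((Real.hasDerivAt_log hs.ne').sub_const _).const_mul γ
      refine (h1.sin.div_const γ).congr_deriv ?_
      unfold cs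
      field_simp) h0 h
  simp only [sub_self, mul_zero, sin_zero, zero_div, sub_zero, hs] at h1
  exact h1

end Pool.Agent.H66.OneArm
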