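import Pool.Agent.H66.OneArm.QuasiA
import Pool.Agent.H66.OneArm.QuasiB

/-!
# Oscillating sums: the phases average out
-/

open Finset Real

namespace Pool.Agent.H66.OneArm

/-- `√(3 - 4 b²/n²)`. -/
noncomputable def aa (n : ℕ) (b : ℝ) : ℝ := √(3 - 4 * (b ^ 2 / (n : ℝ) ^ 2))

/-- `(1 - 2x)/√(3-4x) = (a - 1/a)/2`. -/
noncomputable def rr (n : ℕ) (b : ℝ) : ℝ := (aa n b - 1 / aa n b) / 2

/-- `1/(ρ² - 1)`. -/
noncomputable def tau (n : ℕ) (b : ℝ) : ℂ := ⟨-(1 / 2), -(rr n b / 2)⟩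

lemma aa_sq {n : ℕ} {b : ℝ} (hb : 0 ≤ b) (hbn : b ≤ n / 2) :
    aa n b ^ 2 = 3 - 4 * (b ^ 2 / (n : ℝ) ^ 2) := by
  have h := sq_div_le hb hbn
  unfold aa
  rw [Real.sq_sqrt (by linarith)]

lemma one_le_aa {n : ℕ} {b : ℝ} (hb : 0 ≤ b) (hbn : b ≤ n / 2) : 1 ≤ aa n b := by
  have h := sq_div_le hb hbn
  unfold aa
  rw [Real.one_le_sqrt]
  linarith

lemma aa_le {n : ℕ} {b : ℝ} (hb : 0 ≤ b) (hbn : b ≤ n / 2) : aa n b ≤ 2 := by
  have h : (0 : ℝ) ≤ b ^ 2 / (n : ℝ) ^ 2 := by positivity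
  unfold aa
  rw [Real.sqrt_le_left (by norm_num)]
  linarith

lemma abs_rr_le {n : ℕ} {b : ℝ} (hb : 0 ≤ b) (hbn : b ≤ n / 2) : |rr n b| ≤ 1 := by
  have h1 := one_le_aa hb hbn
  have h2 := aa_le hb hbn
  have h3 : 1 / aa n b ≤ 1 := by
    rw [div_le_one (by linarith)]
    exact h1
  have h4 : 0 ≤ 1 / aa n b := by positivity
  unfold rr
  rw [abs_le]
  constructor <;> linarith

lemma norm_tau_le {n : ℕ} {b : ℝ} (hb : 0 ≤ b) (hbn : b ≤ n / 2) : ‖tau n b‖ ≤ 1 := by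
  have h1 := abs_rr_le hb hbn
  refine (Complex.norm_le_abs_re_add_abs_im _).trans ?_
  unfold tau
  simp only [abs_neg, abs_div]
  rw [abs_of_pos (show (0 : ℝ) < 2 by norm_num), abs_one]
  linarith

lemma abs_rr_sub_le {n : ℕ} {b b' : ℝ} (hb : 0 ≤ b) (hbn : b ≤ n / 2) (hb' : 0 ≤ b')
    (hbn' : b' ≤ n / 2) :
    |rr n b - rr n b'| ≤ 2 * |b ^ 2 / (n : ℝ) ^ 2 - b' ^ 2 / (n : ℝ) ^ 2| := by
  have h1 := one_le_aa hb hbn
  have h2 := one_le_aa hb' hbn'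
  have e1 : rr n b - rr n b' = (aa n b - aa n b') * ((1 + 1 / (aa n b * aa n b')) / 2) := by
    unfold rr
    field_simp
    ring
  have e2 : (aa n b - aa n b') * (aa n b + aa n b') =
      -4 * (b ^ 2 / (n : ℝ) ^ 2 - b' ^ 2 / (n : ℝ) ^ 2) := by
    have h3 := aa_sq hb hbn
    have h4 := aa_sq hb' hbn'
    linear_combination h3 - h4
  have h5 : |(1 + 1 / (aa n b * aa n b')) / 2| ≤ 1 := by
    have h6 : 1 / (aa n b * aa n b') ≤ 1 := by
      rw [div_le_one (by positivity)]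
      nlinarith
    have h7 : 0 ≤ 1 / (aa n b * aa n b') := by positivity
    rw [abs_le]
    constructor <;> linarith
  have h8 : |aa n b - aa n b'| * 2 ≤ 4 * |b ^ 2 / (n : ℝ) ^ 2 - b' ^ 2 / (n : ℝ) ^ 2| := by
    have h9 := congrArg abs e2
    rw [abs_mul, abs_mul, abs_neg, abs_of_pos (show (0 : ℝ) < 4 by norm_num),
      abs_of_pos (show 0 < aa n b + aa n b' by linarith)] at h9
    rw [← h9]
    exact mul_le_mul_of_nonneg_left (by linarith) (abs_nonneg _)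
  rw [e1, abs_mul]
  calc |aa n b - aa n b'| * |(1 + 1 / (aa n b * aa n b')) / 2|
      ≤ |aa n b - aa n b'| * 1 := mul_le_mul_of_nonneg_left h5 (abs_nonneg _)
    _ ≤ _ := by linarith

lemma norm_tau_sub_le {n : ℕ} {b b' : ℝ} (hb : 0 ≤ b) (hbn : b ≤ n / 2) (hb' : 0 ≤ b')
    (hbn' : b' ≤ n / 2) :
    ‖tau n b - tau n b'‖ ≤ |b ^ 2 / (n : ℝ) ^ 2 - b' ^ 2 / (n : ℝ) ^ 2| := by
  have h := abs_rr_sub_le hb hbn hb' hbn'
  refine (Complex.norm_le_abs_re_add_abs_im _).trans ?_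
  unfold tau
  simp only [Complex.sub_re, Complex.sub_im, sub_self, abs_zero, zero_add]
  have e : -(rr n b / 2) - -(rr n b' / 2) = -((rr n b - rr n b') / 2) := by ring
  rw [e, abs_neg, abs_div, abs_of_pos (show (0 : ℝ) < 2 by norm_num)]
  linarith

lemma tau_mul {n : ℕ} {b : ℝ} (hb : 0 < b) (hbn : b ≤ n / 2) :
    tau n b * (phase n b ^ 2 - 1) = 1 := by
  have h1 := one_le_aa hb.le hbn
  have h2 := aa_sq hb.le hbn
  have hx := sq_div_le hb.le hbn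
  have hn : n ≠ 0 := by
    rintro rfl
    simp at hbn
    linarith
  have hn' : (n : ℝ) ≠ 0 := by exact_mod_cast hn
  set x := b ^ 2 / (n : ℝ) ^ 2 with hxdef
  have hx' : x = (3 - aa n b ^ 2) / 4 := by linarith
  have h1x : 1 - x = (1 + aa n b ^ 2) / 4 := by rw [hx']; ring
  have e1 : bet n b / (2 * gg n b) = 2 * (rr n b * aa n b) / (1 + aa n b ^ 2) := by
    have e3 : bet n b = b * (1 - 2 * x) := by
      unfold bet
      rw [hxdef]
      ring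
    have e4 : gg n b = b * (1 - x) := rfl
    have e5 : 1 - 2 * x = rr n b * aa n b := by
      unfold rr
      rw [hx']
      field_simp
      ring
    rw [e3, e4, h1x, e5]
    field_simp
    ring
  have e2 : kap n b / (2 * gg n b) = 2 * aa n b / (1 + aa n b ^ 2) := by
    have e3 : kap n b = b * aa n b := rfl
    have e4 : gg n b = b * (1 - x) := rfl
    rw [e3, e4, h1x]
    field_simp
    ring
  have e6 : rr n b * aa n b = (aa n b ^ 2 - 1) / 2 := by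
    unfold rr
    field_simp
  have ha : aa n b ≠ 0 := by linarith
  have hr : rr n b = (aa n b ^ 2 - 1) / (2 * aa n b) := by
    field_simp
    linarith
  have hpos : 1 + aa n b ^ 2 ≠ 0 := by positivity
  unfold tau phase
  rw [e1, e2, e6, hr]
  apply Complex.ext
  · simp only [pow_two (⟨_, _⟩ : ℂ), Complex.mul_re, Complex.sub_re, Complex.sub_im, Complex.mul_im,
      Complex.one_re, Complex.one_im]
    field_simp
    ring
  · simp only [pow_two (⟨_, _⟩ : ℂ), Complex.mul_re, Complex.sub_re, Complex.sub_im, Complex.mul_im,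
      Complex.one_re, Complex.one_im]
    field_simp
    ring

lemma norm_cc {n j : ℕ} (h : (j : ℝ) ≤ n / 2) : ‖cc n j‖ = 1 := by
  have := normSq_cc h
  rw [Complex.normSq_eq_norm_sq] at this
  have h0 := norm_nonneg (cc n j)
  nlinarith

/-- Abel summation. -/
lemma abel {f : ℕ → ℂ} {C : ℕ → ℂ} {N₀ N₁ : ℕ} (h : N₀ ≤ N₁) :
    ∑ j ∈ Ico N₀ N₁, f j * (C (j + 1) - C j) =
      f N₁ * C N₁ - f N₀ * C N₀ - ∑ j ∈ Ico N₀ N₁, (f (j + 1) - f j) * C (j + 1) := by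
  induction N₁, h using Nat.le_induction with
  | base => simp
  | succ k hk ih =>
    rw [Finset.sum_Ico_succ_top hk, Finset.sum_Ico_succ_top hk, ih]
    ring

/-- The oscillating sums are small. -/
theorem norm_sum_cs_cc_le (γ y : ℝ) {n N₀ N₁ : ℕ} (h0 : 1 ≤ N₀) (h : N₀ ≤ N₁)
    (hn : (N₁ : ℝ) + 2 ≤ n / 2) :
    ‖∑ j ∈ Ico N₀ N₁, (cs γ y ((j : ℝ) + 1 / 2) : ℂ) * cc n j ^ 2‖ ≤ 6 * (1 + |γ|) / N₀ := by
  have hN0 : (0 : ℝ) < N₀ := by exact_mod_cast h0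
  have hcast : ∀ j : ℕ, j ≤ N₁ → (j : ℝ) ≤ N₁ := fun j hj => by exact_mod_cast hj
  have e1 : ∑ j ∈ Ico N₀ N₁, (cs γ y ((j : ℝ) + 1 / 2) : ℂ) * cc n j ^ 2 =
      ∑ j ∈ Ico N₀ N₁, ((cs γ y ((j : ℝ) + 1 / 2) : ℂ) * tau n ((j : ℝ) + 1)) *
        (cc n (j + 1) ^ 2 - cc n j ^ 2) := by
    refine Finset.sum_congr rfl fun j hj => ?_
    have hj' := hcast j (Finset.mem_Ico.mp hj).2.le
    have h1 := tau_mul (n := n) (b := (j : ℝ) + 1) (by positivity) (by linarith)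
    rw [cc_succ]
    linear_combination (-(cs γ y ((j : ℝ) + 1 / 2) : ℂ) * cc n j ^ 2) * h1
  have e2 := abel (f := fun j : ℕ => (cs γ y ((j : ℝ) + 1 / 2) : ℂ) * tau n ((j : ℝ) + 1))
    (C := fun j => cc n j ^ 2) h
  rw [e1]
  refine (le_of_eq (congrArg norm e2)).trans ?_
  have hb : ∀ j : ℕ, N₀ ≤ j → j ≤ N₁ →
      ‖(cs γ y ((j : ℝ) + 1 / 2) : ℂ) * tau n ((j : ℝ) + 1) * cc n j ^ 2‖ ≤ 1 / N₀ := by
    intro j hj0 hj1
    have hj := hcast j hj1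
    have hj0' : (N₀ : ℝ) ≤ j := by exact_mod_cast hj0
    rw [norm_mul, norm_mul, norm_pow, norm_cc (by linarith), one_pow, mul_one, Complex.norm_real,
      Real.norm_eq_abs]
    have h1 := abs_cs_le γ y (s := (j : ℝ) + 1 / 2) (by positivity)
    have h2 := norm_tau_le (n := n) (b := (j : ℝ) + 1) (by positivity) (by linarith)
    calc |cs γ y ((j : ℝ) + 1 / 2)| * ‖tau n ((j : ℝ) + 1)‖ ≤ 1 / ((j : ℝ) + 1 / 2) * 1 :=
          mul_le_mul h1 h2 (norm_nonneg _) (by positivity)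
      _ = 1 / ((j : ℝ) + 1 / 2) := mul_one _
      _ ≤ 1 / N₀ := one_div_le_one_div_of_le hN0 (by linarith)
  have hd : ∀ j ∈ Ico N₀ N₁,
      ‖((cs γ y (((j + 1 : ℕ) : ℝ) + 1 / 2) : ℂ) * tau n (((j + 1 : ℕ) : ℝ) + 1) -
        (cs γ y ((j : ℝ) + 1 / 2) : ℂ) * tau n ((j : ℝ) + 1)) * cc n (j + 1) ^ 2‖ ≤
        2 * (1 + |γ|) * (1 / (j : ℝ) ^ 2) := by
    intro j hj
    rw [Finset.mem_Ico] at hj
    have hj1 : ((j + 1 : ℕ) : ℝ) ≤ N₁ := hcast _ hj.2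
    have hj0 : (0 : ℝ) < j := by
      have : 1 ≤ j := h0.trans hj.1
      exact_mod_cast this
    have hj1' : (1 : ℝ) ≤ j := by
      have : 1 ≤ j := h0.trans hj.1
      exact_mod_cast this
    rw [norm_mul, norm_pow, norm_cc (by linarith), one_pow, mul_one]
    push_cast at hj1 ⊢
    have e3 : (cs γ y ((j : ℝ) + 1 + 1 / 2) : ℂ) * tau n ((j : ℝ) + 1 + 1) -
        (cs γ y ((j : ℝ) + 1 / 2) : ℂ) * tau n ((j : ℝ) + 1) =
        ((cs γ y ((j : ℝ) + 1 + 1 / 2) - cs γ y ((j : ℝ) + 1 / 2) : ℝ) : ℂ) * tau n ((j : ℝ) + 1 + 1) +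
        (cs γ y ((j : ℝ) + 1 / 2) : ℂ) * (tau n ((j : ℝ) + 1 + 1) - tau n ((j : ℝ) + 1)) := by
      push_cast
      ring
    rw [e3]
    refine (norm_add_le _ _).trans ?_
    rw [norm_mul, norm_mul, Complex.norm_real, Complex.norm_real, Real.norm_eq_abs, Real.norm_eq_abs]
    have h1 : |cs γ y ((j : ℝ) + 1 + 1 / 2) - cs γ y ((j : ℝ) + 1 / 2)| ≤ (1 + |γ|) / (j : ℝ) ^ 2 := by
      have := abs_cs_sub_le γ y hj0 (s := (j : ℝ) + 1 + 1 / 2) (t := (j : ℝ) + 1 / 2)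
        (by linarith) (by linarith)
      refine this.trans (le_of_eq ?_)
      have e4 : (j : ℝ) + 1 + 1 / 2 - ((j : ℝ) + 1 / 2) = 1 := by ring
      rw [e4, abs_one, mul_one]
    have h2 := norm_tau_le (n := n) (b := (j : ℝ) + 1 + 1) (by positivity) (by linarith)
    have h3 := abs_cs_le γ y (s := (j : ℝ) + 1 / 2) (by positivity)
    have h4 := norm_tau_sub_le (n := n) (b := (j : ℝ) + 1 + 1) (b' := (j : ℝ) + 1) (by positivity)
      (by linarith) (by positivity) (by linarith)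
    have hnpos : (0 : ℝ) < n := by
      have : (0 : ℝ) ≤ N₁ := by positivity
      linarith
    have h5 : |((j : ℝ) + 1 + 1) ^ 2 / (n : ℝ) ^ 2 - ((j : ℝ) + 1) ^ 2 / (n : ℝ) ^ 2| ≤
        (2 * j + 3) / (n : ℝ) ^ 2 := by
      rw [← sub_div, abs_div, abs_of_pos (show (0 : ℝ) < (n : ℝ) ^ 2 by positivity)]
      apply div_le_div_of_nonneg_right _ (by positivity)
      rw [abs_of_nonneg (by nlinarith)]
      nlinarith
    have h6 : 1 / ((j : ℝ) + 1 / 2) * ((2 * j + 3) / (n : ℝ) ^ 2) ≤ (1 + |γ|) / (j : ℝ) ^ 2 := by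
      have h7 : 1 / ((j : ℝ) + 1 / 2) * ((2 * j + 3) / (n : ℝ) ^ 2) ≤ 4 / (n : ℝ) ^ 2 := by
        rw [div_mul_div_comm, one_mul, div_le_div_iff₀ (by positivity) (by positivity)]
        have : (0 : ℝ) < (n : ℝ) ^ 2 := by positivity
        nlinarith
      have h8 : 4 / (n : ℝ) ^ 2 ≤ 1 / (j : ℝ) ^ 2 := by
        rw [div_le_div_iff₀ (by positivity) (by positivity)]
        nlinarith
      refine h7.trans (h8.trans ?_)
      apply div_le_div_of_nonneg_right _ (by positivity)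
      linarith [abs_nonneg γ]
    calc |cs γ y ((j : ℝ) + 1 + 1 / 2) - cs γ y ((j : ℝ) + 1 / 2)| * ‖tau n ((j : ℝ) + 1 + 1)‖ +
          |cs γ y ((j : ℝ) + 1 / 2)| * ‖tau n ((j : ℝ) + 1 + 1) - tau n ((j : ℝ) + 1)‖
        ≤ (1 + |γ|) / (j : ℝ) ^ 2 * 1 + 1 / ((j : ℝ) + 1 / 2) * ((2 * j + 3) / (n : ℝ) ^ 2) := by
          refine add_le_add (mul_le_mul h1 h2 (norm_nonneg _) (by positivity))
            (mul_le_mul h3 (h4.trans h5) (norm_nonneg _) (by positivity))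
      _ ≤ (1 + |γ|) / (j : ℝ) ^ 2 * 1 + (1 + |γ|) / (j : ℝ) ^ 2 := by linarith
      _ = 2 * (1 + |γ|) * (1 / (j : ℝ) ^ 2) := by ring
  have hsum := (norm_sum_le (Ico N₀ N₁) (fun j : ℕ =>
    ((cs γ y (((j + 1 : ℕ) : ℝ) + 1 / 2) : ℂ) * tau n (((j + 1 : ℕ) : ℝ) + 1) -
        (cs γ y ((j : ℝ) + 1 / 2) : ℂ) * tau n ((j : ℝ) + 1)) * cc n (j + 1) ^ 2)).trans
    (Finset.sum_le_sum hd)
  rw [← Finset.mul_sum] at hsum
  have h9 := mul_le_mul_of_nonneg_left (sum_inv_sq_le h0 h) (show 0 ≤ 2 * (1 + |γ|) by positivity)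
  refine (norm_sub_le _ _).trans ?_
  refine (add_le_add ((norm_sub_le _ _).trans (add_le_add (hb N₁ h le_rfl) (hb N₀ le_rfl h)))
    (hsum.trans h9)).trans ?_
  have h10 : (0 : ℝ) ≤ |γ| / N₀ := by positivity
  have e5 : 6 * (1 + |γ|) / (N₀ : ℝ) - (1 / N₀ + 1 / N₀ + 2 * (1 + |γ|) * (2 / (N₀ : ℝ))) =
      2 * (|γ| / N₀) := by ring
  linarith

end Pool.Agent.H66.OneArm
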