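import Pool.Agent.H66.OneArm.QuasiC

/-!
# Taylor expansions of the amplitudes
-/

open Finset Real

namespace Pool.Agent.H66.OneArm

/-- The amplitude. -/
noncomputable def am (α y u : ℝ) : ℝ := sin (α * (log u - y)) / √u

noncomputable def am' (α y u : ℝ) : ℝ :=
  (α * cos (α * (log u - y)) - sin (α * (log u - y)) / 2) / (u * √u)

noncomputable def am'' (α y u : ℝ) : ℝ :=
  ((3 / 4 - α ^ 2) * sin (α * (log u - y)) - 2 * α * cos (α * (log u - y))) / (u ^ 2 * √u)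

lemma hasDerivAt_phase (α y : ℝ) {u : ℝ} (hu : 0 < u) :
    HasDerivAt (fun u => α * (log u - y)) (α / u) u := by
  have := ((Real.hasDerivAt_log hu.ne').sub_const y).const_mul α
  exact this.congr_deriv (by ring)

lemma hasDerivAt_am (α y : ℝ) {u : ℝ} (hu : 0 < u) : HasDerivAt (am α y) (am' α y u) u := by
  have h1 := (hasDerivAt_phase α y hu).sin
  have h2 := h1.div (Real.hasDerivAt_sqrt hu.ne') (Real.sqrt_pos.mpr hu).ne'
  refine h2.congr_deriv ?_
  unfold am'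
  have h3 : 0 < √u := Real.sqrt_pos.mpr hu
  have h4 : √u ^ 2 = u := Real.sq_sqrt hu.le
  rw [div_eq_div_iff (by positivity) (by positivity)]
  field_simp
  rw [h4]
  ring

lemma hasDerivAt_am' (α y : ℝ) {u : ℝ} (hu : 0 < u) : HasDerivAt (am' α y) (am'' α y u) u := by
  have h1 := ((hasDerivAt_phase α y hu).cos.const_mul α).sub ((hasDerivAt_phase α y hu).sin.div_const 2)
  have h3 : 0 < √u := Real.sqrt_pos.mpr hu
  have h4 : √u ^ 2 = u := Real.sq_sqrt hu.le
  have h2 := h1.div ((hasDerivAt_id' u).mul (Real.hasDerivAt_sqrt hu.ne')) (mul_pos hu h3).ne'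
  refine h2.congr_deriv ?_
  unfold am''
  simp only [Pi.mul_apply, Pi.sub_apply]
  set S := √u with hS
  have hu' : u = S ^ 2 := h4.symm
  rw [hu']
  field_simp
  ring

lemma abs_am_le (α y : ℝ) {u : ℝ} (hu : 0 < u) : |am α y u| ≤ 1 / √u := by
  unfold am
  have h3 : 0 < √u := Real.sqrt_pos.mpr hu
  rw [abs_div, abs_of_pos h3]
  exact div_le_div_of_nonneg_right (abs_sin_le_one _) h3.le

lemma abs_am'_le {α : ℝ} (hα : 0 ≤ α) (y : ℝ) {u : ℝ} (hu : 0 < u) :
    |am' α y u| ≤ (1 + α) / (u * √u) := by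
  unfold am'
  have h3 : 0 < √u := Real.sqrt_pos.mpr hu
  rw [abs_div, abs_of_pos (show 0 < u * √u by positivity)]
  apply div_le_div_of_nonneg_right _ (by positivity)
  refine (abs_sub _ _).trans ?_
  rw [abs_mul, abs_div, abs_of_nonneg hα, abs_of_pos (show (0 : ℝ) < 2 by norm_num)]
  have h1 := abs_sin_le_one (α * (log u - y))
  have h2 := abs_cos_le_one (α * (log u - y))
  have h4 := mul_le_mul_of_nonneg_left h2 hα
  linarith

lemma abs_am''_le {α : ℝ} (hα : 0 ≤ α) (y : ℝ) {u : ℝ} (hu : 0 < u) :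
    |am'' α y u| ≤ (1 + α) ^ 2 / (u ^ 2 * √u) := by
  unfold am''
  have h3 : 0 < √u := Real.sqrt_pos.mpr hu
  rw [abs_div, abs_of_pos (show 0 < u ^ 2 * √u by positivity)]
  apply div_le_div_of_nonneg_right _ (by positivity)
  refine (abs_sub _ _).trans ?_
  rw [abs_mul, abs_mul, abs_of_nonneg (show 0 ≤ 2 * α by positivity)]
  have h1 := abs_sin_le_one (α * (log u - y))
  have h2 := abs_cos_le_one (α * (log u - y))
  have h4 := mul_le_mul_of_nonneg_left h2 (show 0 ≤ 2 * α by positivity)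
  have h5 : |3 / 4 - α ^ 2| ≤ 1 + α ^ 2 := by
    rw [abs_le]
    constructor <;> nlinarith [sq_nonneg α]
  have h6 : |3 / 4 - α ^ 2| * |sin (α * (log u - y))| ≤ (1 + α ^ 2) * 1 :=
    mul_le_mul h5 h1 (abs_nonneg _) (by positivity)
  nlinarith

lemma abs_am''_le_of_mem {α : ℝ} (hα : 0 ≤ α) (y : ℝ) {u s : ℝ} (hs : 3 / 2 ≤ s)
    (hu : u ∈ Set.Icc (s - 1) (s + 1)) :
    |am'' α y u| ≤ 18 * (1 + α) ^ 2 / (s ^ 2 * √s) := by
  have hu3 : s / 3 ≤ u := by linarith [hu.1]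
  have hu0 : 0 < u := by linarith
  have hs0 : 0 < s := by linarith
  refine (abs_am''_le hα y hu0).trans ?_
  have h1 : √(s / 4) ≤ √u := Real.sqrt_le_sqrt (by linarith)
  have h2 : √(s / 4) = √s / 2 := by
    rw [Real.sqrt_div' s (by norm_num), show (4 : ℝ) = 2 ^ 2 by norm_num,
      Real.sqrt_sq (by norm_num)]
  rw [h2] at h1
  have h3 : 0 < √s := Real.sqrt_pos.mpr hs0
  have h4 : (s / 3) ^ 2 ≤ u ^ 2 := pow_le_pow_left₀ (by positivity) hu3 2
  have h5 : (s / 3) ^ 2 * (√s / 2) ≤ u ^ 2 * √u := mul_le_mul h4 h1 (by positivity) (by positivity)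
  rw [div_le_div_iff₀ (by positivity) (by positivity)]
  have h6 : s ^ 2 * √s ≤ 18 * (u ^ 2 * √u) := by nlinarith
  have h7 := mul_le_mul_of_nonneg_left h6 (sq_nonneg (1 + α))
  nlinarith

/-- Taylor bounds. -/
lemma taylor_am {α : ℝ} (hα : 0 ≤ α) (y : ℝ) {s t : ℝ} (hs : 3 / 2 ≤ s)
    (ht : t ∈ Set.Icc (s - 1) (s + 1)) :
    |am α y t - am α y s - am' α y s * (t - s)| ≤ 18 * (1 + α) ^ 2 / (s ^ 2 * √s) := by
  have hs0 : 0 < s := by linarith
  have hsm : s ∈ Set.Icc (s - 1) (s + 1) := ⟨by linarith, by linarith⟩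
  have hM : 0 ≤ 18 * (1 + α) ^ 2 / (s ^ 2 * √s) := by positivity
  have hpos : ∀ u ∈ Set.Icc (s - 1) (s + 1), 0 < u := fun u hu => by linarith [hu.1]
  have h1 : ∀ u ∈ Set.Icc (s - 1) (s + 1), |am' α y u - am' α y s| ≤
      18 * (1 + α) ^ 2 / (s ^ 2 * √s) := by
    intro u hu
    have h := (convex_Icc (s - 1) (s + 1)).norm_image_sub_le_of_norm_hasDerivWithin_le
      (f := am' α y) (f' := am'' α y) (C := 18 * (1 + α) ^ 2 / (s ^ 2 * √s))
      (fun v hv => (hasDerivAt_am' α y (hpos v hv)).hasDerivWithinAt)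
      (fun v hv => by rw [Real.norm_eq_abs]; exact abs_am''_le_of_mem hα y hs hv) hsm hu
    rw [Real.norm_eq_abs, Real.norm_eq_abs] at h
    have h2 : |u - s| ≤ 1 := by
      rw [abs_le]
      constructor <;> linarith [hu.1, hu.2]
    nlinarith
  have h := (convex_Icc (s - 1) (s + 1)).norm_image_sub_le_of_norm_hasDerivWithin_le
    (f := fun v => am α y v - am' α y s * v) (f' := fun v => am' α y v - am' α y s * 1)
    (C := 18 * (1 + α) ^ 2 / (s ^ 2 * √s))
    (fun v hv => ((hasDerivAt_am α y (hpos v hv)).sub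
      ((hasDerivAt_id' v).const_mul _)).hasDerivWithinAt)
    (fun v hv => by rw [Real.norm_eq_abs, mul_one]; exact h1 v hv) hsm ht
  rw [Real.norm_eq_abs, Real.norm_eq_abs] at h
  have h2 : |t - s| ≤ 1 := by
    rw [abs_le]
    constructor <;> linarith [ht.1, ht.2]
  have e : am α y t - am' α y s * t - (am α y s - am' α y s * s) =
      am α y t - am α y s - am' α y s * (t - s) := by ring
  rw [e] at h
  nlinarith

/-- The size of the error. -/
lemma eta_le {n : ℕ} {b : ℝ} (hb : 0 ≤ b) (hbn : b ≤ n / 2) :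
    |aa n b - √3| ≤ 2 * (b ^ 2 / (n : ℝ) ^ 2) := by
  have h1 := one_le_aa hb hbn
  have h2 := aa_sq hb hbn
  have h3 : 1 ≤ √3 := by
    rw [Real.one_le_sqrt]
    norm_num
  have h4 : √3 ^ 2 = 3 := Real.sq_sqrt (by norm_num)
  have h5 : (aa n b - √3) * (aa n b + √3) = -(4 * (b ^ 2 / (n : ℝ) ^ 2)) := by
    linear_combination h2 - h4
  have h6 := congrArg abs h5
  rw [abs_mul, abs_neg, abs_of_pos (show 0 < aa n b + √3 by linarith),
    abs_of_nonneg (show 0 ≤ 4 * (b ^ 2 / (n : ℝ) ^ 2) by positivity)] at h6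
  nlinarith [abs_nonneg (aa n b - √3)]

lemma aa_sub_le {n : ℕ} {b b' : ℝ} (hb : 0 ≤ b) (hbn : b ≤ n / 2) (hb' : 0 ≤ b')
    (hbn' : b' ≤ n / 2) :
    |aa n b - aa n b'| ≤ 2 * |b ^ 2 / (n : ℝ) ^ 2 - b' ^ 2 / (n : ℝ) ^ 2| := by
  have h1 := one_le_aa hb hbn
  have h2 := one_le_aa hb' hbn'
  have e2 : (aa n b - aa n b') * (aa n b + aa n b') =
      -4 * (b ^ 2 / (n : ℝ) ^ 2 - b' ^ 2 / (n : ℝ) ^ 2) := by
    have h3 := aa_sq hb hbn
    have h4 := aa_sq hb' hbn'
    linear_combination h3 - h4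
  have h9 := congrArg abs e2
  rw [abs_mul, abs_mul, abs_neg, abs_of_pos (show (0 : ℝ) < 4 by norm_num),
    abs_of_pos (show 0 < aa n b + aa n b' by linarith)] at h9
  have : |aa n b - aa n b'| * 2 ≤ |aa n b - aa n b'| * (aa n b + aa n b') :=
    mul_le_mul_of_nonneg_left (by linarith) (abs_nonneg _)
  linarith

end Pool.Agent.H66.OneArm
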