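import Pool.Agent.H66.OneArm.QuasiD

/-!
# The local errors of the quasi-modes
-/

open Finset Real

namespace Pool.Agent.H66.OneArm

lemma abs_lin4 {c0 c1 c2 c3 a0 a1 a2 a3 C0 C1 C2 C3 A0 A1 A2 A3 : ℝ}
    (h0 : |c0| ≤ C0) (h1 : |c1| ≤ C1) (h2 : |c2| ≤ C2) (h3 : |c3| ≤ C3)
    (k0 : |a0| ≤ A0) (k1 : |a1| ≤ A1) (k2 : |a2| ≤ A2) (k3 : |a3| ≤ A3) :
    |c0 * a0 + c1 * a1 + c2 * a2 + c3 * a3| ≤ C0 * A0 + C1 * A1 + C2 * A2 + C3 * A3 := by
  have m : ∀ {c a C A : ℝ}, |c| ≤ C → |a| ≤ A → |c * a| ≤ C * A := by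
    intro c a C A h k
    rw [abs_mul]
    exact mul_le_mul h k (abs_nonneg _) ((abs_nonneg _).trans h)
  have e0 := m h0 k0
  have e1 := m h1 k1
  have e2 := m h2 k2
  have e3 := m h3 k3
  refine (abs_add_le _ _).trans (add_le_add ((abs_add_le _ _).trans
    (add_le_add ((abs_add_le _ _).trans (add_le_add e0 e1)) e2)) e3)

lemma cube_le {s : ℝ} (hs : 3 / 2 ≤ s) : (s + 1 / 2) ^ 3 ≤ 3 * s ^ 3 := by
  have h1 : s + 1 / 2 ≤ 4 / 3 * s := by linarith only [hs]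
  have h2 : (s + 1 / 2) ^ 3 ≤ (4 / 3 * s) ^ 3 := pow_le_pow_left₀ (by linarith) h1 3
  have h3 : 0 < s ^ 3 := by positivity
  nlinarith only [h2, h3]

lemma cube_le' {s : ℝ} (hs : 3 / 2 ≤ s) : (s - 1 / 2) ^ 3 ≤ s ^ 3 :=
  pow_le_pow_left₀ (by linarith only [hs]) (by linarith) 3

lemma P_bound {s ν q M a0 a1 dp dm : ℝ} (hs : 3 / 2 ≤ s) (hν : 0 ≤ ν) (hM : 1 ≤ M)
    (h0 : |a0| ≤ q) (h1 : |a1| ≤ M * q / s) (hdp : |dp| ≤ M * q / s ^ 2)
    (hdm : |dm| ≤ M * q / s ^ 2) :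
    |1 / 2 * ((s - 1 / 2) - 2 * (s - 1 / 2) ^ 3 * ν) * (a0 - a1 + dm) +
      1 / 2 * ((s + 1 / 2) - 2 * (s + 1 / 2) ^ 3 * ν) * (a0 + a1 + dp) +
      ((s / 2 - 1 / 2) * ν - (s - 2 * s ^ 3 * ν)) * a0| ≤ M * q * (3 / s + 12 * (s ^ 2 * ν)) := by
  have hq : 0 ≤ q := (abs_nonneg _).trans h0
  have hs0 : 0 < s := by linarith only [hs]
  have e : 1 / 2 * ((s - 1 / 2) - 2 * (s - 1 / 2) ^ 3 * ν) * (a0 - a1 + dm) +
      1 / 2 * ((s + 1 / 2) - 2 * (s + 1 / 2) ^ 3 * ν) * (a0 + a1 + dp) +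
      ((s / 2 - 1 / 2) * ν - (s - 2 * s ^ 3 * ν)) * a0 =
      (-(ν * (s + 1 / 2))) * a0 + (1 / 2 - ν * (3 * s ^ 2 + 1 / 4)) * a1 +
      (1 / 2 * (s + 1 / 2) - (s + 1 / 2) ^ 3 * ν) * dp +
      (1 / 2 * (s - 1 / 2) - (s - 1 / 2) ^ 3 * ν) * dm := by ring
  rw [e]
  have hc := mul_le_mul_of_nonneg_right (cube_le hs) hν
  have hc' := mul_le_mul_of_nonneg_right (cube_le' hs) hν
  have hs2 : 0 < s ^ 2 := by positivity
  have hs3 : 0 < s ^ 3 := by positivity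
  have n1 : 0 ≤ (s + 1 / 2) ^ 3 * ν := by positivity
  have n2 : 0 ≤ (s - 1 / 2) ^ 3 * ν := by
    have : 0 ≤ s - 1 / 2 := by linarith only [hs]
    positivity
  have n3 : 0 ≤ s ^ 3 * ν := by positivity
  have n4 : 0 ≤ s ^ 2 * ν := by positivity
  have n5 : 0 ≤ s * ν := by positivity
  have n6 : s * ν ≤ s ^ 2 * ν * (2 / 3) := by nlinarith only [hs, n1, n2]
  have n7 : ν ≤ s * ν := by nlinarith only [n2, n4, n6]
  refine (abs_lin4 (C0 := 2 * (s ^ 2 * ν)) (C1 := 1 / 2 + 4 * (s ^ 2 * ν))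
    (C2 := s + 3 * (s ^ 3 * ν)) (C3 := s + 3 * (s ^ 3 * ν)) ?_ ?_ ?_ ?_ h0 h1 hdp hdm).trans ?_
  · rw [abs_neg, abs_of_nonneg (by positivity)]
    nlinarith only [n4, n6, n7]
  · rw [abs_le]
    constructor <;> nlinarith only [n4, n7, hν]
  · rw [abs_le]
    constructor <;> nlinarith only [hs, hc, n1]
  · rw [abs_le]
    constructor <;> nlinarith only [hs, hc, n1, n2]
  · have e1 : 2 * (s ^ 2 * ν) * q + (1 / 2 + 4 * (s ^ 2 * ν)) * (M * q / s) +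
        (s + 3 * (s ^ 3 * ν)) * (M * q / s ^ 2) + (s + 3 * (s ^ 3 * ν)) * (M * q / s ^ 2) =
        q * (2 * (s ^ 2 * ν)) + M * q * ((5 / 2) / s + 10 * (s * ν)) := by
      field_simp
      ring
    rw [e1]
    have hMq : q ≤ M * q := by nlinarith only [hM, hq]
    have h5 : q * (2 * (s ^ 2 * ν)) ≤ M * q * (2 * (s ^ 2 * ν)) :=
      mul_le_mul_of_nonneg_right hMq (by positivity)
    have h6 : (5 / 2) / s + 10 * (s * ν) ≤ 3 / s + 10 * (s ^ 2 * ν) := by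
      have : (5 / 2) / s ≤ 3 / s := div_le_div_of_nonneg_right (by norm_num) hs0.le
      linarith only [n4, n6, this]
    have h7 := mul_le_mul_of_nonneg_left h6 (show 0 ≤ M * q by positivity)
    nlinarith only [h5, h7]

lemma Q_bound {s ν q M a0 a1 dp dm A B : ℝ} (hs : 3 / 2 ≤ s) (hν : 0 ≤ ν) (hM : 1 ≤ M)
    (h0 : |a0| ≤ q) (h1 : |a1| ≤ M * q / s) (hdp : |dp| ≤ M * q / s ^ 2)
    (hdm : |dm| ≤ M * q / s ^ 2) (hA : |A - √3| ≤ 2 * ((s + 1 / 2) ^ 2 * ν))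
    (hB : |B - √3| ≤ 2 * ((s - 1 / 2) ^ 2 * ν)) (hAB : |A - B| ≤ 2 * (2 * s * ν))
    (hA' : |A| ≤ 2) (hB' : |B| ≤ 2) :
    |1 / 2 * ((s + 1 / 2) * A * (a0 + a1 + dp) - (s - 1 / 2) * B * (a0 - a1 + dm)) -
      √3 * (s * a1 + a0 / 2)| ≤ M * q * (3 / s + 8 * (s ^ 2 * ν)) := by
  have hq : 0 ≤ q := (abs_nonneg _).trans h0
  have hs0 : 0 < s := by linarith only [hs]
  have e : 1 / 2 * ((s + 1 / 2) * A * (a0 + a1 + dp) - (s - 1 / 2) * B * (a0 - a1 + dm)) -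
      √3 * (s * a1 + a0 / 2) =
      (1 / 2 * ((s - 1 / 2) * (A - B) + (A - √3))) * a0 +
      (1 / 2 * ((s + 1 / 2) * (A - √3) + (s - 1 / 2) * (B - √3))) * a1 +
      (1 / 2 * (s + 1 / 2) * A) * dp + (-(1 / 2 * (s - 1 / 2) * B)) * dm := by ring
  rw [e]
  have hc := mul_le_mul_of_nonneg_right (cube_le hs) hν
  have hc' := mul_le_mul_of_nonneg_right (cube_le' hs) hν
  have hs2 : 0 < s ^ 2 := by positivity
  have hs3 : 0 < s ^ 3 := by positivity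
  have hsm : 0 ≤ s - 1 / 2 := by linarith only [hs]
  have hsp : 0 ≤ s + 1 / 2 := by linarith only [hs]
  have n3 : 0 ≤ s ^ 3 * ν := by positivity
  have n4 : 0 ≤ s ^ 2 * ν := by positivity
  have n5 : 0 ≤ s * ν := by positivity
  refine (abs_lin4 (C0 := 4 * (s ^ 2 * ν)) (C1 := 4 * (s ^ 3 * ν))
    (C2 := 2 * s) (C3 := s) ?_ ?_ ?_ ?_ h0 h1 hdp hdm).trans ?_
  · rw [abs_mul, abs_of_pos (show (0 : ℝ) < 1 / 2 by norm_num)]
    have h2 := abs_add_le ((s - 1 / 2) * (A - B)) (A - √3)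
    rw [abs_mul, abs_of_nonneg hsm] at h2
    have h3 := mul_le_mul_of_nonneg_left hAB hsm
    have h4 : (s + 1 / 2) ^ 2 ≤ 2 * s ^ 2 := by nlinarith only [hs]
    have h5 := mul_le_mul_of_nonneg_right h4 hν
    nlinarith only [hA, n5, h2, h3, h5]
  · rw [abs_mul, abs_of_pos (show (0 : ℝ) < 1 / 2 by norm_num)]
    have h2 := abs_add_le ((s + 1 / 2) * (A - √3)) ((s - 1 / 2) * (B - √3))
    rw [abs_mul, abs_of_nonneg hsp, abs_mul, abs_of_nonneg hsm] at h2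
    have h3 := mul_le_mul_of_nonneg_left hA hsp
    have h4 := mul_le_mul_of_nonneg_left hB hsm
    have e3 : (s + 1 / 2) * (2 * ((s + 1 / 2) ^ 2 * ν)) = 2 * ((s + 1 / 2) ^ 3 * ν) := by ring
    have e4 : (s - 1 / 2) * (2 * ((s - 1 / 2) ^ 2 * ν)) = 2 * ((s - 1 / 2) ^ 3 * ν) := by ring
    rw [e3] at h3
    rw [e4] at h4
    linarith only [hc, hc', h2, h3, h4]
  · rw [abs_mul, abs_of_nonneg (show 0 ≤ 1 / 2 * (s + 1 / 2) by positivity)]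
    have := mul_le_mul_of_nonneg_left hA' (show 0 ≤ 1 / 2 * (s + 1 / 2) by positivity)
    linarith only [hs, this]
  · rw [abs_neg, abs_mul, abs_of_nonneg (show 0 ≤ 1 / 2 * (s - 1 / 2) by positivity)]
    have := mul_le_mul_of_nonneg_left hB' (show 0 ≤ 1 / 2 * (s - 1 / 2) by positivity)
    linarith only [this]
  · have e1 : 4 * (s ^ 2 * ν) * q + 4 * (s ^ 3 * ν) * (M * q / s) + 2 * s * (M * q / s ^ 2) +
        s * (M * q / s ^ 2) = q * (4 * (s ^ 2 * ν)) + M * q * (3 / s + 4 * (s ^ 2 * ν)) := by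
      field_simp
      ring
    rw [e1]
    have hMq : q ≤ M * q := by nlinarith only [hM, hq]
    have h5 : q * (4 * (s ^ 2 * ν)) ≤ M * q * (4 * (s ^ 2 * ν)) :=
      mul_le_mul_of_nonneg_right hMq (by positivity)
    nlinarith only [h5]

/-- The main term. -/
noncomputable def mm (α y s : ℝ) : ℝ := √3 * (α * cos (α * (log s - y)) / √s)

/-- The local operator. -/
noncomputable def Rr (n j : ℕ) (a b c : ℝ) : ℂ :=
  ⟨1 / 2 * bet n j * a + 1 / 2 * bet n ((j : ℝ) + 1) * c +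
      (((((j : ℝ) + 1 / 2) / 2 - 1 / 2) / (n : ℝ) ^ 2) - bet n ((j : ℝ) + 1 / 2)) * b,
    1 / 2 * (kap n ((j : ℝ) + 1) * c - kap n j * a)⟩

/-- Interior error. -/
theorem interior {α : ℝ} (hα : 0 ≤ α) (y : ℝ) {n j : ℕ} (hj : 1 ≤ j) (hjn : (j : ℝ) + 1 ≤ n / 2) :
    ‖Rr n j (am α y ((j : ℝ) + 1 / 2 - 1)) (am α y ((j : ℝ) + 1 / 2)) (am α y ((j : ℝ) + 1 / 2 + 1)) -
      ⟨0, mm α y ((j : ℝ) + 1 / 2)⟩‖ ≤ 18 * (1 + α) ^ 2 * (1 / √((j : ℝ) + 1 / 2)) *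
        (6 / ((j : ℝ) + 1 / 2) + 20 * (((j : ℝ) + 1 / 2) ^ 2 / (n : ℝ) ^ 2)) := by
  have hj' : (1 : ℝ) ≤ j := by exact_mod_cast hj
  set s : ℝ := (j : ℝ) + 1 / 2 with hsdef
  have hs : 3 / 2 ≤ s := by rw [hsdef]; linarith only [hj']
  have hs0 : 0 < s := by linarith only [hsdef]
  have hS : 0 < √s := Real.sqrt_pos.mpr hs0
  set M : ℝ := 18 * (1 + α) ^ 2 with hM
  set q : ℝ := 1 / √s with hq
  set ν : ℝ := 1 / (n : ℝ) ^ 2 with hν
  have hν0 : 0 ≤ ν := by positivity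
  have hMpos : 1 ≤ M := by
    rw [hM]
    nlinarith only [hα]
  set a0 := am α y s with ha0
  set a1 := am' α y s with ha1
  have h0 : |a0| ≤ q := abs_am_le α y hs0
  have h1 : |a1| ≤ M * q / s := by
    refine (abs_am'_le hα y hs0).trans ?_
    have e : M * q / s = M / (s * √s) := by
      rw [hq]
      field_simp
    rw [e]
    apply div_le_div_of_nonneg_right _ (by positivity)
    rw [hM]
    nlinarith only [hMpos]
  have e2 : 18 * (1 + α) ^ 2 / (s ^ 2 * √s) = M * q / s ^ 2 := by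
    rw [hM, hq]
    field_simp
  have tp := taylor_am hα y hs (t := s + 1) ⟨by linarith only [], le_rfl⟩
  have tm := taylor_am hα y hs (t := s - 1) ⟨le_rfl, by linarith⟩
  rw [e2] at tp tm
  set dp := am α y (s + 1) - a0 - a1 * (s + 1 - s) with hdp
  set dm := am α y (s - 1) - a0 - a1 * (s - 1 - s) with hdm
  have ep : am α y (s + 1) = a0 + a1 + dp := by rw [hdp]; ring
  have em : am α y (s - 1) = a0 - a1 + dm := by rw [hdm]; ring
  have ebj : (j : ℝ) = s - 1 / 2 := by rw [hsdef]; ring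
  have ebj1 : (j : ℝ) + 1 = s + 1 / 2 := by rw [hsdef]; ring
  have ebet : ∀ b, bet n b = b - 2 * b ^ 3 * ν := by
    intro b
    unfold bet
    rw [hν]
    ring
  have ekap : ∀ b, kap n b = b * aa n b := fun b => rfl
  have hP := P_bound hs hν0 hMpos h0 h1 tp tm
  have hsn : s + 1 / 2 ≤ n / 2 := by rw [← ebj1]; exact hjn
  have hA := eta_le (n := n) (b := s + 1 / 2) (by linarith only [hsdef]) hsn
  have hB := eta_le (n := n) (b := s - 1 / 2) (by linarith only [hsdef]) (by linarith only [hjn, hsdef])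
  have hAB := aa_sub_le (n := n) (b := s + 1 / 2) (b' := s - 1 / 2) (by linarith only [hsdef]) hsn (by linarith only [hsdef])
    (by linarith only [hjn, hsdef])
  have hA2 : |aa n (s + 1 / 2)| ≤ 2 := by
    rw [abs_of_nonneg (by linarith only [one_le_aa (n := n) (b := s + 1 / 2) (by linarith) hsn])]
    exact aa_le (by linarith only [hsdef]) hsn
  have hB2 : |aa n (s - 1 / 2)| ≤ 2 := by
    rw [abs_of_nonneg (by linarith only [one_le_aa (n := n) (b := s - 1 / 2) (by linarith) (by linarith)])]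
    exact aa_le (by linarith only [hsdef]) (by linarith only [hjn, hsdef])
  have f1 : (s + 1 / 2) ^ 2 / (n : ℝ) ^ 2 = (s + 1 / 2) ^ 2 * ν := by rw [hν]; ring
  have f2 : (s - 1 / 2) ^ 2 / (n : ℝ) ^ 2 = (s - 1 / 2) ^ 2 * ν := by rw [hν]; ring
  rw [f1] at hA
  rw [f2] at hB
  have f3 : |(s + 1 / 2) ^ 2 / (n : ℝ) ^ 2 - (s - 1 / 2) ^ 2 / (n : ℝ) ^ 2| = 2 * s * ν := by
    rw [f1, f2, ← sub_mul, abs_mul, abs_of_nonneg hν0, abs_of_nonneg (by nlinarith only [hsdef])]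
    ring
  rw [f3] at hAB
  have hQ := Q_bound hs hν0 hMpos h0 h1 tp tm hA hB hAB hA2 hB2
  have emm : √3 * (s * a1 + a0 / 2) = mm α y s := by
    rw [ha1, ha0]
    unfold am am' mm
    field_simp
    ring
  rw [emm] at hQ
  refine (Complex.norm_le_abs_re_add_abs_im _).trans ?_
  unfold Rr
  simp only [Complex.sub_re, Complex.sub_im, sub_zero]
  rw [← hsdef, ebj1, ebj, ep, em, ebet, ebet, ebet, ekap, ekap]
  have g1 : 1 / 2 * (s - 1 / 2 - 2 * (s - 1 / 2) ^ 3 * ν) * (a0 - a1 + dm) +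
      1 / 2 * (s + 1 / 2 - 2 * (s + 1 / 2) ^ 3 * ν) * (a0 + a1 + dp) +
      ((s / 2 - 1 / 2) / (n : ℝ) ^ 2 - (s - 2 * s ^ 3 * ν)) * a0 =
      1 / 2 * ((s - 1 / 2) - 2 * (s - 1 / 2) ^ 3 * ν) * (a0 - a1 + dm) +
      1 / 2 * ((s + 1 / 2) - 2 * (s + 1 / 2) ^ 3 * ν) * (a0 + a1 + dp) +
      ((s / 2 - 1 / 2) * ν - (s - 2 * s ^ 3 * ν)) * a0 := by
    rw [hν]
    ring
  rw [g1]
  have g2 : s ^ 2 / (n : ℝ) ^ 2 = s ^ 2 * ν := by rw [hν]; ring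
  rw [g2]
  have g3 : M * q * (6 / s + 20 * (s ^ 2 * ν)) = M * q * (3 / s + 12 * (s ^ 2 * ν)) +
      M * q * (3 / s + 8 * (s ^ 2 * ν)) := by ring
  rw [g3]
  exact add_le_add hP hQ

end Pool.Agent.H66.OneArm
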