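import Pool.Agent.H66.OneArm.QuasiE

/-!
# The quasi-modes
-/

open Finset Real Matrix

namespace Pool.Agent.H66.OneArm

/-- Real or imaginary part. -/
def ph (b : Bool) (z : ℂ) : ℝ := if b then z.im else z.re

lemma ph_add (b : Bool) (z w : ℂ) : ph b (z + w) = ph b z + ph b w := by
  cases b <;> simp [ph]

lemma ph_smul (b : Bool) (r : ℝ) (z : ℂ) : ph b ((r : ℂ) * z) = r * ph b z := by
  cases b <;> simp [ph]

lemma abs_ph_le (b : Bool) (z : ℂ) : |ph b z| ≤ ‖z‖ := by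
  cases b
  · simpa [ph] using Complex.abs_re_le_norm z
  · simpa [ph] using Complex.abs_im_le_norm z

/-- The truncated amplitudes. -/
noncomputable def AA (α y : ℝ) (N₀ N₁ j : ℕ) : ℝ :=
  if N₀ ≤ j ∧ j < N₁ then am α y ((j : ℝ) + 1 / 2) else 0

/-- The real modes. -/
noncomputable def uu (c : ℝ) (A : ℕ → ℝ) (n : ℕ) (b : Bool) : Fin n → ℝ :=
  fun j => c * (A j * ph b (cc n j))

/-- The shifted rescaled operator. -/
noncomputable def opT (n : ℕ) (v : Fin n → ℝ) : Fin n → ℝ :=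
  ((n : ℝ) ^ 2)⁻¹ • (trid n *ᵥ v) - (1 / 2 : ℝ) • v

lemma opT_apply {n : ℕ} (c : ℝ) {A : ℕ → ℝ} (hA : ∀ j, n ≤ j → A j = 0) (b : Bool) (j : Fin n) :
    opT n (uu c A n b) j = c * ((if (j : ℕ) = 0 then 0 else
        gg n j * (A ((j : ℕ) - 1) * ph b (cc n ((j : ℕ) - 1)))) +
      (((((j : ℕ) : ℝ) + 1 / 2) / 2 - 1 / 2) / (n : ℝ) ^ 2 - bet n (((j : ℕ) : ℝ) + 1 / 2)) *
        (A j * ph b (cc n j)) +
      gg n (((j : ℕ) : ℝ) + 1) * (A ((j : ℕ) + 1) * ph b (cc n ((j : ℕ) + 1)))) := by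
  have hn : 1 ≤ n := by
    have := j.2
    omega
  have hn' : (n : ℝ) ≠ 0 := by positivity
  have hext : ∀ i : ℕ, ext (uu c A n b) i = c * (A i * ph b (cc n i)) := by
    intro i
    by_cases h : i < n
    · rw [ext_of_lt _ h]
      rfl
    · rw [ext_of_le _ (not_lt.mp h), hA i (not_lt.mp h)]
      ring
  have hd := diag_eq hn j
  have hd' : diag n j = (n : ℝ) ^ 2 * (1 / 2) + (n : ℝ) ^ 2 *
    (-bet n (((j : ℕ) : ℝ) + 1 / 2) + ((((j : ℕ) : ℝ) + 1 / 2) / 2 - 1 / 2) / (n : ℝ) ^ 2) := by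
    linarith
  unfold opT
  simp only [Pi.sub_apply, Pi.smul_apply, smul_eq_mul]
  rw [trid_mulVec, hext, hext, offd_eq hn, hd', offd_eq hn]
  have huj : uu c A n b j = c * (A j * ph b (cc n j)) := rfl
  rw [huj]
  by_cases hj : (j : ℕ) = 0
  · rw [if_pos hj, if_pos hj]
    field_simp
    ring
  · rw [if_neg hj, if_neg hj]
    have hc : ((((j : ℕ) - 1 : ℕ) : ℝ)) + 1 = ((j : ℕ) : ℝ) := by
      rw [Nat.cast_sub (by omega)]
      push_cast
      ring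
    rw [hc]
    field_simp
    ring

lemma opT_eq {n : ℕ} (c : ℝ) {A : ℕ → ℝ} (hA : ∀ j, n ≤ j → A j = 0) (b : Bool) (j : Fin n)
    (hj : ((j : ℕ) : ℝ) + 1 ≤ n / 2) :
    opT n (uu c A n b) j =
      c * ph b (cc n j * Rr n j (A ((j : ℕ) - 1)) (A j) (A ((j : ℕ) + 1))) := by
  rw [opT_apply c hA b j]
  have hR : Rr n j (A ((j : ℕ) - 1)) (A j) (A ((j : ℕ) + 1)) =
      (A ((j : ℕ) - 1) : ℂ) * ⟨bet n (j : ℕ) / 2, -(kap n (j : ℕ) / 2)⟩ +
      (((((((j : ℕ) : ℝ) + 1 / 2) / 2 - 1 / 2) / (n : ℝ) ^ 2 - bet n (((j : ℕ) : ℝ) + 1 / 2)) *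
        A j : ℝ) : ℂ) +
      (A ((j : ℕ) + 1) : ℂ) * ⟨bet n (((j : ℕ) : ℝ) + 1) / 2, kap n (((j : ℕ) : ℝ) + 1) / 2⟩ := by
    unfold Rr
    apply Complex.ext
    · simp only [Complex.add_re, Complex.mul_re, Complex.ofReal_re, Complex.ofReal_im]
      ring
    · simp only [Complex.add_im, Complex.mul_im, Complex.ofReal_re, Complex.ofReal_im]
      ring
  refine congrArg (c * ·) ?_
  have hexp : ∀ z a b c : ℂ, z * (a + b + c) = z * a + z * b + z * c := fun z a b c => by ring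
  rw [hR, hexp, ph_add, ph_add]
  have e1 : cc n j * ((A ((j : ℕ) - 1) : ℂ) * ⟨bet n (j : ℕ) / 2, -(kap n (j : ℕ) / 2)⟩) =
      (A ((j : ℕ) - 1) : ℂ) * (cc n j * ⟨bet n (j : ℕ) / 2, -(kap n (j : ℕ) / 2)⟩) := by ring
  have e3 : cc n j * ((A ((j : ℕ) + 1) : ℂ) *
      ⟨bet n (((j : ℕ) : ℝ) + 1) / 2, kap n (((j : ℕ) : ℝ) + 1) / 2⟩) =
      (A ((j : ℕ) + 1) : ℂ) * ((gg n (((j : ℕ) : ℝ) + 1) : ℂ) * cc n ((j : ℕ) + 1)) := by
    rw [gg_mul_cc_succ hj]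
    ring
  have e2 : cc n j * (((((((j : ℕ) : ℝ) + 1 / 2) / 2 - 1 / 2) / (n : ℝ) ^ 2 -
      bet n (((j : ℕ) : ℝ) + 1 / 2)) * A j : ℝ) : ℂ) =
      (((((((j : ℕ) : ℝ) + 1 / 2) / 2 - 1 / 2) / (n : ℝ) ^ 2 -
      bet n (((j : ℕ) : ℝ) + 1 / 2)) * A j : ℝ) : ℂ) * cc n j := by ring
  rw [e1, e2, e3, ph_smul, ph_smul, ph_smul, ph_smul]
  have e4 : (if (j : ℕ) = 0 then 0 else
        gg n j * (A ((j : ℕ) - 1) * ph b (cc n ((j : ℕ) - 1)))) =
      A ((j : ℕ) - 1) * ph b (cc n j * ⟨bet n (j : ℕ) / 2, -(kap n (j : ℕ) / 2)⟩) := by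
    by_cases h0 : (j : ℕ) = 0
    · rw [if_pos h0]
      have : (⟨bet n (j : ℕ) / 2, -(kap n (j : ℕ) / 2)⟩ : ℂ) = 0 := by
        rw [h0]
        apply Complex.ext
        · simp [bet]
        · simp [kap]
      rw [this, mul_zero]
      cases b <;> simp [ph]
    · rw [if_neg h0]
      have h1 := gg_mul_cc (n := n) (j := (j : ℕ) - 1) (by
        rw [Nat.cast_sub (by omega)]
        push_cast
        linarith)
      have h2 : (j : ℕ) - 1 + 1 = j := by omega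
      have hc : ((((j : ℕ) - 1 : ℕ) : ℝ)) + 1 = ((j : ℕ) : ℝ) := by
        rw [Nat.cast_sub (by omega)]
        push_cast
        ring
      rw [hc, h2] at h1
      rw [← h1, ph_smul]
      ring
  rw [e4]
  ring

lemma opT_zero {n : ℕ} (c : ℝ) {A : ℕ → ℝ} (hA : ∀ j, n ≤ j → A j = 0) (b : Bool) (j : Fin n)
    (h1 : A ((j : ℕ) - 1) = 0) (h2 : A j = 0) (h3 : A ((j : ℕ) + 1) = 0) :
    opT n (uu c A n b) j = 0 := by
  rw [opT_apply c hA b j, h1, h2, h3]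
  simp

/-! ### The boundary -/

lemma abs_log_sub_le {x t : ℝ} (hx : 1 ≤ x) (ht : |t - x| ≤ 1 / 2) : |log t - log x| ≤ 1 / x := by
  obtain ⟨h1, h2⟩ := abs_le.mp ht
  have hx0 : 0 < x := by linarith
  have ht0 : 0 < t := by linarith
  rw [abs_le]
  constructor
  · have := Real.log_le_sub_one_of_pos (show 0 < x / t by positivity)
    rw [Real.log_div hx0.ne' ht0.ne'] at this
    have h3 : x / t - 1 ≤ 1 / x := by
      rw [div_sub_one ht0.ne', div_le_div_iff₀ ht0 hx0]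
      nlinarith
    linarith
  · have := Real.log_le_sub_one_of_pos (show 0 < t / x by positivity)
    rw [Real.log_div ht0.ne' hx0.ne'] at this
    have h3 : t / x - 1 ≤ 1 / x := by
      rw [div_sub_one hx0.ne']
      apply div_le_div_of_nonneg_right _ hx0.le
      linarith
    linarith

lemma edge {α y : ℝ} (hα : 0 ≤ α) {x t : ℝ} (hx : 1 ≤ x) (ht : |t - x| ≤ 1 / 2)
    (hs : sin (α * (log x - y)) = 0) : x * |am α y t| ≤ 2 * α / √x := by
  obtain ⟨h1, h2⟩ := abs_le.mp ht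
  have hx0 : 0 < x := by linarith
  have ht0 : 0 < t := by linarith
  have hlog := abs_log_sub_le hx ht
  have e : α * (log t - y) = α * (log t - log x) + α * (log x - y) := by ring
  have h3 : |sin (α * (log t - y))| ≤ α * (1 / x) := by
    rw [e, sin_add, hs, mul_zero, add_zero, abs_mul]
    calc |sin (α * (log t - log x))| * |cos (α * (log x - y))| ≤ |α * (log t - log x)| * 1 :=
          mul_le_mul (abs_sin_le_abs (x := α * (log t - log x))) (abs_cos_le_one _) (abs_nonneg _) (abs_nonneg _)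
      _ = α * |log t - log x| := by rw [mul_one, abs_mul, abs_of_nonneg hα]
      _ ≤ _ := mul_le_mul_of_nonneg_left hlog hα
  have h4 : √x / 2 ≤ √t := by
    have h5 : √(x / 4) ≤ √t := Real.sqrt_le_sqrt (by linarith)
    rwa [Real.sqrt_div' x (by norm_num), show (4 : ℝ) = 2 ^ 2 by norm_num,
      Real.sqrt_sq (by norm_num)] at h5
  have hsx : 0 < √x := Real.sqrt_pos.mpr hx0
  have hst : 0 < √t := Real.sqrt_pos.mpr ht0
  unfold am
  rw [abs_div, abs_of_pos hst, mul_div_assoc', div_le_div_iff₀ hst hsx]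
  have h6 : x * |sin (α * (log t - y))| ≤ α := by
    calc x * |sin (α * (log t - y))| ≤ x * (α * (1 / x)) := mul_le_mul_of_nonneg_left h3 hx0.le
      _ = α := by field_simp
  calc x * |sin (α * (log t - y))| * √x ≤ α * √x := mul_le_mul_of_nonneg_right h6 hsx.le
    _ ≤ α * (2 * √t) := mul_le_mul_of_nonneg_left (by linarith) hα
    _ = 2 * α * √t := by ring

lemma norm_half {n : ℕ} {b : ℝ} (hb : 0 ≤ b) (hbn : b ≤ n / 2) (ε : ℝ) (hε : ε ^ 2 = 1) :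
    ‖(⟨bet n b / 2, ε * (kap n b / 2)⟩ : ℂ)‖ ≤ b := by
  have h1 := bet_sq_add_kap_sq hb hbn
  have h2 := sq_div_le hb hbn
  have h3 : 0 ≤ b ^ 2 / (n : ℝ) ^ 2 := by positivity
  have hg : gg n b ≤ b := by
    unfold gg
    nlinarith
  have hg0 : 0 ≤ gg n b := by
    unfold gg
    exact mul_nonneg hb (by linarith)
  have h4 : ‖(⟨bet n b / 2, ε * (kap n b / 2)⟩ : ℂ)‖ ^ 2 = gg n b ^ 2 := by
    rw [← Complex.normSq_eq_norm_sq, Complex.normSq_apply]
    simp only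
    have : ε * (kap n b / 2) * (ε * (kap n b / 2)) = ε ^ 2 * (kap n b ^ 2) / 4 := by ring
    rw [this, hε]
    linarith
  have h5 : ‖(⟨bet n b / 2, ε * (kap n b / 2)⟩ : ℂ)‖ = gg n b := by
    rwa [sq_eq_sq₀ (norm_nonneg _) hg0] at h4
  rw [h5]
  exact hg

end Pool.Agent.H66.OneArm
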