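import Pool.Agent.H66.OneArm.QuasiF

/-!
# Errors of the truncated quasi-modes
-/

open Finset Real Matrix

namespace Pool.Agent.H66.OneArm

lemma Rr_eq (n j : ℕ) (a b c : ℝ) : Rr n j a b c =
    (a : ℂ) * ⟨bet n (j : ℕ) / 2, -1 * (kap n (j : ℕ) / 2)⟩ +
      ((((((j : ℕ) : ℝ) + 1 / 2) / 2 - 1 / 2) / (n : ℝ) ^ 2 - bet n (((j : ℕ) : ℝ) + 1 / 2) : ℝ) : ℂ) * b +
      (c : ℂ) * ⟨bet n (((j : ℕ) : ℝ) + 1) / 2, 1 * (kap n (((j : ℕ) : ℝ) + 1) / 2)⟩ := by
  unfold Rr
  apply Complex.ext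
  · simp only [Complex.add_re, Complex.mul_re, Complex.ofReal_re, Complex.ofReal_im]
    ring
  · simp only [Complex.add_im, Complex.mul_im, Complex.ofReal_re, Complex.ofReal_im]
    ring

/-- Bound of interior errors. -/
noncomputable def Ib (n : ℕ) (α s : ℝ) : ℝ :=
  18 * (1 + α) ^ 2 * (1 / √s) * (6 / s + 20 * (s ^ 2 / (n : ℝ) ^ 2))

/-- Bound of all errors. -/
noncomputable def EE (n N₀ N₁ : ℕ) (α : ℝ) (j : ℕ) : ℝ :=
  (if N₀ ≤ j ∧ j < N₁ then Ib n α ((j : ℝ) + 1 / 2) else 0) +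
  (if j = N₀ then 2 * α / √N₀ else 0) + (if j + 1 = N₁ then 2 * α / √N₀ else 0) +
  (if j + 1 = N₀ then 2 * α / √N₀ else 0) + (if j = N₁ then 2 * α / √N₀ else 0)

noncomputable def mmT (N₀ N₁ : ℕ) (α y : ℝ) (j : ℕ) : ℝ :=
  if N₀ ≤ j ∧ j < N₁ then mm α y ((j : ℝ) + 1 / 2) else 0

lemma edge' {α y : ℝ} (hα : 0 ≤ α) {N₀ N : ℕ} (h0 : 1 ≤ N₀) (h : N₀ ≤ N) {t : ℝ}
    (ht : |t - N| ≤ 1 / 2) (hs : sin (α * (log N - y)) = 0) :
    N * |am α y t| ≤ 2 * α / √N₀ := by
  have h1 : (1 : ℝ) ≤ N₀ := by exact_mod_cast h0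
  have h2 : (N₀ : ℝ) ≤ N := by exact_mod_cast h
  refine (edge hα (h1.trans h2) ht hs).trans ?_
  have h3 : √(N₀ : ℝ) ≤ √(N : ℝ) := Real.sqrt_le_sqrt h2
  have h4 : 0 < √(N₀ : ℝ) := Real.sqrt_pos.mpr (by linarith)
  exact div_le_div_of_nonneg_left (by positivity) h4 h3

theorem err_le {α y : ℝ} (hα : 0 ≤ α) {n N₀ N₁ : ℕ} (h0 : 1 ≤ N₀) (h : N₀ < N₁)
    (hs0 : sin (α * (log N₀ - y)) = 0) (hs1 : sin (α * (log N₁ - y)) = 0) {j : ℕ}
    (hj : (j : ℝ) + 1 ≤ n / 2) :
    ‖Rr n j (AA α y N₀ N₁ (j - 1)) (AA α y N₀ N₁ j) (AA α y N₀ N₁ (j + 1)) -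
      ⟨0, mmT N₀ N₁ α y j⟩‖ ≤ EE n N₀ N₁ α j := by
  have hB : 0 ≤ 2 * α / √(N₀ : ℝ) := by positivity
  by_cases hin : N₀ ≤ j ∧ j < N₁
  · obtain ⟨hj0, hj1⟩ := hin
    have hint := interior hα y (h0.trans hj0) hj
    set s : ℝ := (j : ℝ) + 1 / 2 with hsdef
    have e1 : Rr n j (AA α y N₀ N₁ (j - 1)) (AA α y N₀ N₁ j) (AA α y N₀ N₁ (j + 1)) -
        ⟨0, mmT N₀ N₁ α y j⟩ = (Rr n j (am α y (s - 1)) (am α y s) (am α y (s + 1)) -
        ⟨0, mm α y s⟩) + ((AA α y N₀ N₁ (j - 1) - am α y (s - 1) : ℝ) : ℂ) *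
          ⟨bet n (j : ℕ) / 2, -1 * (kap n (j : ℕ) / 2)⟩ +
        ((AA α y N₀ N₁ (j + 1) - am α y (s + 1) : ℝ) : ℂ) *
          ⟨bet n (((j : ℕ) : ℝ) + 1) / 2, 1 * (kap n (((j : ℕ) : ℝ) + 1) / 2)⟩ := by
      have e2 : AA α y N₀ N₁ j = am α y s := by
        unfold AA
        rw [if_pos ⟨hj0, hj1⟩]
      have e3 : mmT N₀ N₁ α y j = mm α y s := by
        unfold mmT
        rw [if_pos ⟨hj0, hj1⟩]
      rw [e2, e3, Rr_eq, Rr_eq n j (am α y (s - 1))]
      push_cast
      ring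
    rw [e1]
    have hk0 : ‖((AA α y N₀ N₁ (j - 1) - am α y (s - 1) : ℝ) : ℂ) *
          ⟨bet n (j : ℕ) / 2, -1 * (kap n (j : ℕ) / 2)⟩‖ ≤
        (if j = N₀ then 2 * α / √N₀ else 0) := by
      by_cases hjN : j = N₀
      · rw [if_pos hjN]
        have e2 : AA α y N₀ N₁ (j - 1) = 0 := by
          unfold AA
          rw [if_neg (by omega)]
        rw [e2, zero_sub, norm_mul, Complex.norm_real, Real.norm_eq_abs, abs_neg]
        have h2 := norm_half (n := n) (b := (j : ℝ)) (by positivity) (by linarith) (-1) (by norm_num)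
        have h3 := edge' (y := y) hα h0 hj0 (t := s - 1) (by
          have : s - 1 - j = -(1 / 2) := by rw [hsdef]; ring
          rw [this, abs_neg, abs_of_pos (by norm_num)]) (by rw [hjN]; exact hs0)
        calc _ ≤ |am α y (s - 1)| * j := mul_le_mul_of_nonneg_left h2 (abs_nonneg _)
          _ = j * |am α y (s - 1)| := mul_comm _ _
          _ ≤ _ := h3
      · rw [if_neg hjN]
        have e2 : AA α y N₀ N₁ (j - 1) = am α y (s - 1) := by
          unfold AA
          rw [if_pos (by omega), Nat.cast_sub (by omega)]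
          congr 1
          rw [hsdef]
          push_cast
          ring
        rw [e2, sub_self]
        simp
    have hk1 : ‖((AA α y N₀ N₁ (j + 1) - am α y (s + 1) : ℝ) : ℂ) *
          ⟨bet n (((j : ℕ) : ℝ) + 1) / 2, 1 * (kap n (((j : ℕ) : ℝ) + 1) / 2)⟩‖ ≤
        (if j + 1 = N₁ then 2 * α / √N₀ else 0) := by
      by_cases hjN : j + 1 = N₁
      · rw [if_pos hjN]
        have e2 : AA α y N₀ N₁ (j + 1) = 0 := by
          unfold AA
          rw [if_neg (by omega)]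
        rw [e2, zero_sub, norm_mul, Complex.norm_real, Real.norm_eq_abs, abs_neg]
        have h2 := norm_half (n := n) (b := (j : ℝ) + 1) (by positivity) hj 1 (by norm_num)
        have hc : ((N₁ : ℕ) : ℝ) = (j : ℝ) + 1 := by rw [← hjN]; push_cast; ring
        have h3 := edge' (y := y) hα h0 h.le (t := s + 1) (by
          have : s + 1 - N₁ = 1 / 2 := by rw [hsdef, hc]; ring
          rw [this, abs_of_pos (by norm_num)]) hs1
        rw [hc] at h3
        calc _ ≤ |am α y (s + 1)| * ((j : ℝ) + 1) := mul_le_mul_of_nonneg_left h2 (abs_nonneg _)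
          _ = ((j : ℝ) + 1) * |am α y (s + 1)| := mul_comm _ _
          _ ≤ _ := h3
      · rw [if_neg hjN]
        have e2 : AA α y N₀ N₁ (j + 1) = am α y (s + 1) := by
          unfold AA
          rw [if_pos (by omega)]
          congr 1
          rw [hsdef]
          push_cast
          ring
        rw [e2, sub_self]
        simp
    refine (norm_add₃_le).trans ?_
    unfold EE
    rw [if_pos ⟨hj0, hj1⟩]
    have h5 : (0 : ℝ) ≤ (if j + 1 = N₀ then 2 * α / √(N₀ : ℝ) else 0) := by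
      split_ifs <;> positivity
    have h6 : (0 : ℝ) ≤ (if j = N₁ then 2 * α / √(N₀ : ℝ) else 0) := by
      split_ifs <;> positivity
    have h7 : ‖Rr n j (am α y (s - 1)) (am α y s) (am α y (s + 1)) - ⟨0, mm α y s⟩‖ ≤
        Ib n α ((j : ℝ) + 1 / 2) := hint
    linarith
  · have e0 : mmT N₀ N₁ α y j = 0 := by
      unfold mmT
      rw [if_neg hin]
    have e0' : AA α y N₀ N₁ j = 0 := by
      unfold AA
      rw [if_neg hin]
    have e00 : (⟨0, 0⟩ : ℂ) = 0 := rfl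
    rw [e0, e0', e00, sub_zero, Rr_eq]
    unfold EE
    rw [if_neg hin]
    have h2' : (0 : ℝ) ≤ (if j = N₀ then 2 * α / √(N₀ : ℝ) else 0) := by
      split_ifs <;> positivity
    have h3' : (0 : ℝ) ≤ (if j + 1 = N₁ then 2 * α / √(N₀ : ℝ) else 0) := by
      split_ifs <;> positivity
    have h4' : (0 : ℝ) ≤ (if j + 1 = N₀ then 2 * α / √(N₀ : ℝ) else 0) := by
      split_ifs <;> positivity
    have h5' : (0 : ℝ) ≤ (if j = N₁ then 2 * α / √(N₀ : ℝ) else 0) := by
      split_ifs <;> positivity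
    by_cases hA : j + 1 = N₀
    · have e1 : AA α y N₀ N₁ (j - 1) = 0 := by
        unfold AA
        rw [if_neg (by omega)]
      have hc : ((N₀ : ℕ) : ℝ) = (j : ℝ) + 1 := by rw [← hA]; push_cast; ring
      have e2 : AA α y N₀ N₁ (j + 1) = am α y ((j : ℝ) + 1 + 1 / 2) := by
        unfold AA
        rw [if_pos (by omega)]
        push_cast
        rfl
      rw [e1, e2, Complex.ofReal_zero, zero_mul, mul_zero, zero_add, zero_add, norm_mul,
        Complex.norm_real, Real.norm_eq_abs]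
      have h2 := norm_half (n := n) (b := (j : ℝ) + 1) (by positivity) hj 1 (by norm_num)
      have h3 := edge' (y := y) hα h0 le_rfl (t := (j : ℝ) + 1 + 1 / 2) (by
          have : (j : ℝ) + 1 + 1 / 2 - N₀ = 1 / 2 := by rw [hc]; ring
          rw [this, abs_of_pos (by norm_num)]) hs0
      rw [if_pos hA]
      have h4 : |am α y ((j : ℝ) + 1 + 1 / 2)| * ‖(⟨bet n ((j : ℝ) + 1) / 2,
          1 * (kap n ((j : ℝ) + 1) / 2)⟩ : ℂ)‖ ≤ 2 * α / √(N₀ : ℝ) := by
        calc _ ≤ |am α y ((j : ℝ) + 1 + 1 / 2)| * ((j : ℝ) + 1) :=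
              mul_le_mul_of_nonneg_left h2 (abs_nonneg _)
          _ = (N₀ : ℝ) * |am α y ((j : ℝ) + 1 + 1 / 2)| := by rw [mul_comm, hc]
          _ ≤ _ := h3
      linarith
    · by_cases hA1 : j = N₁
      · have e1 : AA α y N₀ N₁ (j + 1) = 0 := by
          unfold AA
          rw [if_neg (by omega)]
        have e2 : AA α y N₀ N₁ (j - 1) = am α y ((j : ℝ) - 1 / 2) := by
          unfold AA
          rw [if_pos (by omega), Nat.cast_sub (by omega)]
          congr 1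
          push_cast
          ring
        rw [e1, e2, Complex.ofReal_zero, zero_mul, mul_zero, add_zero, add_zero, norm_mul,
          Complex.norm_real, Real.norm_eq_abs]
        have h2 := norm_half (n := n) (b := (j : ℝ)) (by positivity) (by linarith) (-1) (by norm_num)
        have h3 := edge' (y := y) hα h0 h.le (t := (j : ℝ) - 1 / 2) (by
            have : (j : ℝ) - 1 / 2 - N₁ = -(1 / 2) := by rw [hA1]; ring
            rw [this, abs_neg, abs_of_pos (by norm_num)]) hs1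
        rw [if_pos hA1]
        have h4 : |am α y ((j : ℝ) - 1 / 2)| * ‖(⟨bet n (j : ℝ) / 2,
            -1 * (kap n (j : ℝ) / 2)⟩ : ℂ)‖ ≤ 2 * α / √(N₀ : ℝ) := by
          calc _ ≤ |am α y ((j : ℝ) - 1 / 2)| * (j : ℝ) :=
                mul_le_mul_of_nonneg_left h2 (abs_nonneg _)
            _ = (N₁ : ℝ) * |am α y ((j : ℝ) - 1 / 2)| := by rw [mul_comm, hA1]
            _ ≤ _ := h3
        linarith
      · have e1 : AA α y N₀ N₁ (j + 1) = 0 := by
          unfold AA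
          rw [if_neg (by omega)]
        have e2 : AA α y N₀ N₁ (j - 1) = 0 := by
          unfold AA
          rw [if_neg (by omega)]
        rw [e1, e2, Complex.ofReal_zero, zero_mul, mul_zero, zero_mul, add_zero, add_zero, norm_zero]
        linarith

end Pool.Agent.H66.OneArm
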