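import Pool.Agent.H66.OneArm.QuasiG

/-!
# Gram matrix and energies of the quasi-modes
-/

open Finset Real Matrix

namespace Pool.Agent.H66.OneArm

lemma Ib_sq_le {n N₀ N₁ j : ℕ} {α : ℝ} (h0 : 1 ≤ N₀) (hj0 : N₀ ≤ j) (hj1 : j < N₁) (hn : 1 ≤ n) :
    Ib n α ((j : ℝ) + 1 / 2) ^ 2 ≤ (18 * (1 + α) ^ 2) ^ 2 *
      (72 / N₀ * (1 / (j : ℝ) ^ 2) + 800 * ((N₁ : ℝ) ^ 3 / (n : ℝ) ^ 4)) := by
  have hN : (1 : ℝ) ≤ N₀ := by exact_mod_cast h0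
  have hjN : (N₀ : ℝ) ≤ j := by exact_mod_cast hj0
  have hjN1 : (j : ℝ) + 1 ≤ N₁ := by exact_mod_cast hj1
  have hn' : (0 : ℝ) < n := by exact_mod_cast hn
  have hj : (0 : ℝ) < j := by linarith
  set s : ℝ := (j : ℝ) + 1 / 2 with hs
  have hs0 : 0 < s := by positivity
  have hS : (√s) ^ 2 = s := Real.sq_sqrt hs0.le
  have hS0 : 0 < √s := Real.sqrt_pos.mpr hs0
  have e1 : Ib n α s ^ 2 = (18 * (1 + α) ^ 2) ^ 2 *
      (1 / s * (6 / s + 20 * (s ^ 2 / (n : ℝ) ^ 2)) ^ 2) := by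
    unfold Ib
    have : (1 / √s) ^ 2 = 1 / s := by rw [div_pow, one_pow, hS]
    rw [mul_pow, mul_pow, this]
    ring
  rw [e1]
  apply mul_le_mul_of_nonneg_left _ (by positivity)
  have e2 : (6 / s + 20 * (s ^ 2 / (n : ℝ) ^ 2)) ^ 2 ≤
      2 * ((6 / s) ^ 2 + (20 * (s ^ 2 / (n : ℝ) ^ 2)) ^ 2) := by
    nlinarith [sq_nonneg (6 / s - 20 * (s ^ 2 / (n : ℝ) ^ 2))]
  have e3 : 1 / s * (2 * ((6 / s) ^ 2 + (20 * (s ^ 2 / (n : ℝ) ^ 2)) ^ 2)) =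
      72 * (1 / s ^ 3) + 800 * (s ^ 3 / (n : ℝ) ^ 4) := by
    field_simp
    ring
  refine (mul_le_mul_of_nonneg_left e2 (by positivity)).trans ?_
  rw [e3]
  have e4 : 1 / s ^ 3 ≤ 1 / N₀ * (1 / (j : ℝ) ^ 2) := by
    rw [div_mul_div_comm, one_mul]
    apply div_le_div_of_nonneg_left (by norm_num) (by positivity)
    have h1 : (N₀ : ℝ) * (j : ℝ) ^ 2 ≤ s * s ^ 2 :=
      mul_le_mul (by linarith) (pow_le_pow_left₀ hj.le (by linarith) 2) (by positivity) hs0.le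
    linarith [show s * s ^ 2 = s ^ 3 by ring]
  have e5 : s ^ 3 / (n : ℝ) ^ 4 ≤ (N₁ : ℝ) ^ 3 / (n : ℝ) ^ 4 := by
    apply div_le_div_of_nonneg_right _ (by positivity)
    exact pow_le_pow_left₀ hs0.le (by linarith) 3
  have e6 : 72 / (N₀ : ℝ) * (1 / (j : ℝ) ^ 2) = 72 * (1 / N₀ * (1 / (j : ℝ) ^ 2)) := by ring
  rw [e6]
  linarith

lemma sq_add5 (a b c d e : ℝ) : (a + b + c + d + e) ^ 2 ≤ 5 * (a ^ 2 + b ^ 2 + c ^ 2 + d ^ 2 + e ^ 2) := by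
  nlinarith [sq_nonneg (a - b), sq_nonneg (a - c), sq_nonneg (a - d), sq_nonneg (a - e),
    sq_nonneg (b - c), sq_nonneg (b - d), sq_nonneg (b - e), sq_nonneg (c - d), sq_nonneg (c - e),
    sq_nonneg (d - e)]

lemma sum_ite_Ico {N₀ N₁ n : ℕ} (hn : N₁ ≤ n) (f : ℕ → ℝ) :
    ∑ j ∈ range n, (if N₀ ≤ j ∧ j < N₁ then f j else 0) = ∑ j ∈ Ico N₀ N₁, f j := by
  rw [← Finset.sum_filter]
  congr 1
  ext j
  simp only [Finset.mem_filter, Finset.mem_range, Finset.mem_Ico]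
  omega

lemma sum_ite_le (n a : ℕ) {B : ℝ} (hB : 0 ≤ B) {P : ℕ → Prop} [DecidablePred P]
    (hP : ∀ j, P j → j = a) : ∑ j ∈ range n, (if P j then B else 0) ≤ B := by
  have h1 : ∑ j ∈ range n, (if P j then B else 0) ≤ ∑ j ∈ range n, (if j = a then B else 0) := by
    refine Finset.sum_le_sum fun j _ => ?_
    by_cases h : P j
    · rw [if_pos h, if_pos (hP j h)]
    · rw [if_neg h]
      split_ifs <;> simp [hB]
  refine h1.trans ?_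
  rw [Finset.sum_ite_eq']
  split_ifs <;> simp [hB]

theorem sum_EE_sq_le {n N₀ N₁ : ℕ} {α : ℝ} (hα : 0 ≤ α) (h0 : 1 ≤ N₀) (h : N₀ < N₁) (hn : N₁ ≤ n) :
    ∑ j ∈ range n, EE n N₀ N₁ α j ^ 2 ≤
      4000 * (18 * (1 + α) ^ 2) ^ 2 * (1 / N₀ + ((N₁ : ℝ) / n) ^ 4) := by
  have hN : (1 : ℝ) ≤ N₀ := by exact_mod_cast h0
  have hN0 : (0 : ℝ) < N₀ := by linarith
  have hn1 : 1 ≤ n := by omega
  have hn' : (0 : ℝ) < n := by exact_mod_cast hn1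
  set M : ℝ := (18 * (1 + α) ^ 2) ^ 2 with hM
  have hB : 0 ≤ 2 * α / √(N₀ : ℝ) := by positivity
  have hB2 : (2 * α / √(N₀ : ℝ)) ^ 2 = 4 * α ^ 2 * (1 / N₀) := by
    rw [div_pow, Real.sq_sqrt hN0.le]
    ring
  have hstep : ∀ j ∈ range n, EE n N₀ N₁ α j ^ 2 ≤
      5 * ((if N₀ ≤ j ∧ j < N₁ then M *
        (72 / N₀ * (1 / (j : ℝ) ^ 2) + 800 * ((N₁ : ℝ) ^ 3 / (n : ℝ) ^ 4)) else 0) +
      (if j = N₀ then (2 * α / √N₀) ^ 2 else 0) + (if j + 1 = N₁ then (2 * α / √N₀) ^ 2 else 0) +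
      (if j + 1 = N₀ then (2 * α / √N₀) ^ 2 else 0) + (if j = N₁ then (2 * α / √N₀) ^ 2 else 0)) := by
    intro j _
    unfold EE
    refine (sq_add5 _ _ _ _ _).trans ?_
    have hsq : ∀ (P : Prop) [Decidable P] (x : ℝ), (if P then x else 0) ^ 2 = if P then x ^ 2 else 0 := by
      intro P _ x
      split_ifs <;> simp
    rw [hsq, hsq, hsq, hsq, hsq]
    apply mul_le_mul_of_nonneg_left _ (by norm_num)
    gcongr
    split_ifs with hc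
    · exact Ib_sq_le h0 hc.1 hc.2 hn1
    · exact le_rfl
  refine (Finset.sum_le_sum hstep).trans ?_
  rw [← Finset.mul_sum, Finset.sum_add_distrib, Finset.sum_add_distrib, Finset.sum_add_distrib,
    Finset.sum_add_distrib, sum_ite_Ico hn, ← Finset.mul_sum, Finset.sum_add_distrib, ← Finset.mul_sum,
    Finset.sum_const, nsmul_eq_mul, Nat.card_Ico]
  have s1 := sum_ite_le n N₀ (sq_nonneg (2 * α / √(N₀ : ℝ))) (P := fun j => j = N₀) (fun j h => h)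
  have s2 := sum_ite_le n (N₁ - 1) (sq_nonneg (2 * α / √(N₀ : ℝ))) (P := fun j => j + 1 = N₁)
    (fun j h => by omega)
  have s3 := sum_ite_le n (N₀ - 1) (sq_nonneg (2 * α / √(N₀ : ℝ))) (P := fun j => j + 1 = N₀)
    (fun j h => by omega)
  have s4 := sum_ite_le n N₁ (sq_nonneg (2 * α / √(N₀ : ℝ))) (P := fun j => j = N₁) (fun j h => h)
  have s5 := sum_inv_sq_le h0 h.le
  have s6 : 72 / (N₀ : ℝ) * ∑ j ∈ Ico N₀ N₁, 1 / (j : ℝ) ^ 2 ≤ 144 * (1 / N₀) := by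
    calc 72 / (N₀ : ℝ) * ∑ j ∈ Ico N₀ N₁, 1 / (j : ℝ) ^ 2 ≤ 72 / (N₀ : ℝ) * (2 / N₀) :=
          mul_le_mul_of_nonneg_left s5 (by positivity)
      _ = 144 * (1 / N₀) * (1 / N₀) := by ring
      _ ≤ 144 * (1 / N₀) * 1 := by
          apply mul_le_mul_of_nonneg_left _ (by positivity)
          rw [div_le_one hN0]
          exact hN
      _ = _ := mul_one _
  have s7 : ((N₁ - N₀ : ℕ) : ℝ) * (800 * ((N₁ : ℝ) ^ 3 / (n : ℝ) ^ 4)) ≤ 800 * ((N₁ : ℝ) / n) ^ 4 := by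
    have h1 : ((N₁ - N₀ : ℕ) : ℝ) ≤ N₁ := by exact_mod_cast Nat.sub_le _ _
    calc ((N₁ - N₀ : ℕ) : ℝ) * (800 * ((N₁ : ℝ) ^ 3 / (n : ℝ) ^ 4)) ≤
          N₁ * (800 * ((N₁ : ℝ) ^ 3 / (n : ℝ) ^ 4)) := mul_le_mul_of_nonneg_right h1 (by positivity)
      _ = _ := by rw [div_pow]; ring
  have hMα : α ^ 2 ≤ M := by
    rw [hM]
    nlinarith [sq_nonneg (α * (1 + α)), mul_nonneg hα hα, pow_nonneg hα 3, pow_nonneg hα 4]
  rw [hB2] at s1 s2 s3 s4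
  rw [hB2]
  have hr : 0 ≤ 1 / (N₀ : ℝ) := by positivity
  have hM0 : 0 ≤ M := by positivity
  have s8 := mul_le_mul_of_nonneg_left (add_le_add s6 s7) hM0
  have s9 := mul_le_mul_of_nonneg_right hMα hr
  have s10 : 0 ≤ ((N₁ : ℝ) / n) ^ 4 := by positivity
  have s11 : 0 ≤ M * (1 / (N₀ : ℝ)) := by positivity
  nlinarith

end Pool.Agent.H66.OneArm
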