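import Pool.Agent.H66.OneArm.QuasiH

/-!
# Gram matrix and energies of the quasi-modes
-/

open Finset Real Matrix

namespace Pool.Agent.H66.OneArm

/-- The oscillating factor. -/
def osc (b b' : Bool) (z : ℂ) : ℝ :=
  if b = b' then (if b then -z.re else z.re) else z.im

lemma abs_osc_le (b b' : Bool) (z : ℂ) : |osc b b' z| ≤ ‖z‖ := by
  unfold osc
  split_ifs
  · rw [abs_neg]; exact Complex.abs_re_le_norm z
  · exact Complex.abs_re_le_norm z
  · exact Complex.abs_im_le_norm z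

lemma osc_sum (b b' : Bool) {ι : Type*} (s : Finset ι) (f : ι → ℝ) (z : ι → ℂ) :
    ∑ j ∈ s, f j * osc b b' (z j) = osc b b' (∑ j ∈ s, (f j : ℂ) * z j) := by
  unfold osc
  split_ifs
  · rw [Complex.re_sum, ← Finset.sum_neg_distrib]
    exact Finset.sum_congr rfl fun j _ => by simp
  · rw [Complex.re_sum]
    exact Finset.sum_congr rfl fun j _ => by simp
  · rw [Complex.im_sum]
    exact Finset.sum_congr rfl fun j _ => by simp

lemma ph_mul_ph {z : ℂ} (hz : Complex.normSq z = 1) (b b' : Bool) :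
    2 * (ph b z * ph b' z) = (if b = b' then 1 else 0) + osc b b' (z ^ 2) := by
  rw [Complex.normSq_apply] at hz
  unfold ph osc
  cases b <;> cases b' <;> simp [pow_two] <;> linarith

lemma ph_I {z : ℂ} (hz : Complex.normSq z = 1) (b : Bool) (m : ℝ) :
    2 * ph b (z * ⟨0, m⟩) ^ 2 = m ^ 2 * (1 + osc (!b) (!b) (z ^ 2)) := by
  rw [Complex.normSq_apply] at hz
  unfold ph osc
  cases b
  · simp [pow_two]
    linear_combination (m * m) * hz
  · simp [pow_two]
    linear_combination (m * m) * hz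

lemma am_mul_am {α α' y s : ℝ} (hs : 0 < s) :
    2 * (am α y s * am α' y s) = cs (α - α') y s - cs (α + α') y s := by
  unfold am cs
  have h : √s * √s = s := Real.mul_self_sqrt hs.le
  have e1 : (α - α') * (log s - y) = α * (log s - y) - α' * (log s - y) := by ring
  have e2 : (α + α') * (log s - y) = α * (log s - y) + α' * (log s - y) := by ring
  rw [e1, e2, cos_sub, cos_add, div_mul_div_comm, h]
  ring

lemma mm_sq {α y s : ℝ} (hs : 0 < s) :
    2 * mm α y s ^ 2 = 3 * α ^ 2 * (cs 0 y s + cs (2 * α) y s) := by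
  unfold mm cs
  have h : √s ^ 2 = s := Real.sq_sqrt hs.le
  have h3 : √3 ^ 2 = 3 := Real.sq_sqrt (by norm_num)
  have e2 : 2 * α * (log s - y) = 2 * (α * (log s - y)) := by ring
  rw [e2, cos_two_mul, mul_pow, div_pow, h, h3, zero_mul, cos_zero]
  field_simp
  ring

/-- Bounded sums. -/
lemma sum_cs_osc_le (γ y : ℝ) {n N₀ N₁ : ℕ} (h0 : 1 ≤ N₀) (h : N₀ ≤ N₁)
    (hn : (N₁ : ℝ) + 2 ≤ n / 2) (b b' : Bool) :
    |∑ j ∈ Ico N₀ N₁, cs γ y ((j : ℝ) + 1 / 2) * osc b b' (cc n j ^ 2)| ≤ 6 * (1 + |γ|) / N₀ := by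
  rw [osc_sum]
  exact (abs_osc_le _ _ _).trans (norm_sum_cs_cc_le γ y h0 h hn)

lemma dot_uu {n N₀ N₁ : ℕ} (hn : N₁ ≤ n) (c α α' y : ℝ) (b b' : Bool) :
    uu c (AA α y N₀ N₁) n b ⬝ᵥ uu c (AA α' y N₀ N₁) n b' =
      ∑ j ∈ Ico N₀ N₁, c ^ 2 * (am α y ((j : ℝ) + 1 / 2) * am α' y ((j : ℝ) + 1 / 2) *
        (ph b (cc n j) * ph b' (cc n j))) := by
  rw [← sum_ite_Ico hn, dotProduct, ← Fin.sum_univ_eq_sum_range (fun j : ℕ => if N₀ ≤ j ∧ j < N₁ then
    c ^ 2 * (am α y ((j : ℝ) + 1 / 2) * am α' y ((j : ℝ) + 1 / 2) *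
        (ph b (cc n j) * ph b' (cc n j))) else 0) n]
  refine Finset.sum_congr rfl fun j _ => ?_
  unfold uu AA
  split_ifs
  · ring
  · ring

/-- The frequencies. -/
noncomputable def fr (N₀ N₁ k : ℕ) : ℝ := π * ((k : ℝ) + 1) / (log N₁ - log N₀)

lemma fr_nonneg {N₀ N₁ : ℕ} (h0 : 1 ≤ N₀) (h : N₀ < N₁) (k : ℕ) : 0 ≤ fr N₀ N₁ k := by
  have h1 : (0 : ℝ) < N₀ := by exact_mod_cast h0
  have h2 : (N₀ : ℝ) < N₁ := by exact_mod_cast h
  have h3 : 0 < log N₁ - log N₀ := sub_pos.mpr (Real.log_lt_log h1 h2)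
  unfold fr
  have := pi_pos
  positivity

theorem gram_bound {n N₀ N₁ : ℕ} (h0 : 1 ≤ N₀) (h : N₀ < N₁) (hn : (N₁ : ℝ) + 2 ≤ n / 2)
    (k k' : ℕ) (b b' : Bool) {X : ℝ} (hk : fr N₀ N₁ k ≤ X) (hk' : fr N₀ N₁ k' ≤ X) :
    |uu (2 / √(log N₁ - log N₀)) (AA (fr N₀ N₁ k) (log N₀) N₀ N₁) n b ⬝ᵥ
      uu (2 / √(log N₁ - log N₀)) (AA (fr N₀ N₁ k') (log N₀) N₀ N₁) n b' -
      (if k = k' ∧ b = b' then 1 else 0)| ≤ 16 * (1 + 2 * X) / ((log N₁ - log N₀) * N₀) := by
  have h1 : (0 : ℝ) < N₀ := by exact_mod_cast h0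
  have h2 : (N₀ : ℝ) < N₁ := by exact_mod_cast h
  have hl : 0 < log N₁ - log N₀ := sub_pos.mpr (Real.log_lt_log h1 h2)
  have hNn : N₁ ≤ n := by
    have h3 : (0 : ℝ) ≤ N₁ := by positivity
    have : (N₁ : ℝ) ≤ n := by linarith
    exact_mod_cast this
  have hα := fr_nonneg h0 h k
  have hα' := fr_nonneg h0 h k'
  set l := log N₁ - log N₀ with hldef
  set α := fr N₀ N₁ k with hαdef
  set α' := fr N₀ N₁ k' with hαdef'
  have hc2 : (2 / √l) ^ 2 = 4 / l := by
    rw [div_pow, Real.sq_sqrt hl.le]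
    norm_num
  rw [dot_uu hNn, hc2]
  have hjn : ∀ j ∈ Ico N₀ N₁, (j : ℝ) ≤ n / 2 := by
    intro j hj
    have : (j : ℝ) ≤ N₁ := by exact_mod_cast (Finset.mem_Ico.mp hj).2.le
    linarith
  have e1 : ∀ j ∈ Ico N₀ N₁, 4 / l * (am α (log N₀) ((j : ℝ) + 1 / 2) * am α' (log N₀) ((j : ℝ) + 1 / 2) *
        (ph b (cc n j) * ph b' (cc n j))) =
      1 / l * ((if b = b' then 1 else 0) * (cs (α - α') (log N₀) ((j : ℝ) + 1 / 2) -
        cs (α + α') (log N₀) ((j : ℝ) + 1 / 2)) +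
        (cs (α - α') (log N₀) ((j : ℝ) + 1 / 2) * osc b b' (cc n j ^ 2) -
        cs (α + α') (log N₀) ((j : ℝ) + 1 / 2) * osc b b' (cc n j ^ 2))) := by
    intro j hj
    have h3 := ph_mul_ph (normSq_cc (hjn j hj)) b b'
    have h4 := am_mul_am (α := α) (α' := α') (y := log N₀) (s := (j : ℝ) + 1 / 2) (by positivity)
    have h5 : 4 / l * (am α (log N₀) ((j : ℝ) + 1 / 2) * am α' (log N₀) ((j : ℝ) + 1 / 2) *
        (ph b (cc n j) * ph b' (cc n j))) =
        1 / l * ((2 * (am α (log N₀) ((j : ℝ) + 1 / 2) * am α' (log N₀) ((j : ℝ) + 1 / 2))) *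
        (2 * (ph b (cc n j) * ph b' (cc n j)))) := by ring
    rw [h5, h3, h4]
    ring
  rw [Finset.sum_congr rfl e1, ← Finset.mul_sum, Finset.sum_add_distrib, ← Finset.mul_sum,
    Finset.sum_sub_distrib, Finset.sum_sub_distrib]
  have hX : 0 ≤ X := hα.trans hk
  have hb1 : |α - α'| ≤ 2 * X := by
    rw [abs_le]
    constructor <;> linarith
  have hb2 : |α + α'| ≤ 2 * X := by
    rw [abs_le]
    constructor <;> linarith
  have hmono : ∀ (K : ℝ), 0 ≤ K → ∀ γ : ℝ, |γ| ≤ 2 * X → K * (1 + |γ|) / N₀ ≤ K * (1 + 2 * X) / N₀ := by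
    intro K hK γ hγ
    apply div_le_div_of_nonneg_right _ h1.le
    exact mul_le_mul_of_nonneg_left (by linarith) hK
  have o1 := (sum_cs_osc_le (α - α') (log N₀) h0 h.le hn b b').trans (hmono 6 (by norm_num) _ hb1)
  have o2 := (sum_cs_osc_le (α + α') (log N₀) h0 h.le hn b b').trans (hmono 6 (by norm_num) _ hb2)
  have sinp : ∀ m : ℤ, ∀ γ : ℝ, γ * l = π * m → sin (γ * (log N₁ - log N₀)) = 0 := by
    intro m γ hγ
    rw [← hldef, hγ, mul_comm]
    exact sin_int_mul_pi m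
  have hαl : α * l = π * ((k : ℝ) + 1) := by
    rw [hαdef]
    unfold fr
    rw [← hldef]
    field_simp
  have hαl' : α' * l = π * ((k' : ℝ) + 1) := by
    rw [hαdef']
    unfold fr
    rw [← hldef]
    field_simp
  have hsum_pos : 0 < α + α' := by
    have h3 : 0 < (α + α') * l := by
      rw [add_mul, hαl, hαl']
      have := pi_pos
      positivity
    exact pos_of_mul_pos_left h3 hl.le
  have s2 := (sum_cs_of_ne (γ := α + α') hsum_pos.ne' h0 h.le
    (sinp ((k : ℤ) + k' + 2) _ (by rw [add_mul, hαl, hαl']; push_cast; ring))).trans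
    (hmono 2 (by norm_num) _ hb2)
  have s1 : |∑ j ∈ Ico N₀ N₁, cs (α - α') (log N₀) ((j : ℝ) + 1 / 2) - (if k = k' then l else 0)| ≤
      2 * (1 + 2 * X) / N₀ := by
    by_cases hkk : k = k'
    · have h3 : α - α' = 0 := by
        rw [hαdef, hαdef', hkk]
        ring
      rw [if_pos hkk, h3]
      refine (sum_cs_zero (log N₀) h0 h.le).trans ?_
      apply div_le_div_of_nonneg_right _ h1.le
      linarith
    · rw [if_neg hkk, sub_zero]
      have h3 : α - α' ≠ 0 := by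
        intro h4
        have h5 : (α - α') * l = 0 := by rw [h4, zero_mul]
        rw [sub_mul, hαl, hαl', ← mul_sub] at h5
        have h6 := (mul_eq_zero.mp h5).resolve_left pi_pos.ne'
        apply hkk
        have : (k : ℝ) = k' := by linarith
        exact_mod_cast this
      exact (sum_cs_of_ne (γ := α - α') h3 h0 h.le
        (sinp ((k : ℤ) - k') _ (by rw [sub_mul, hαl, hαl']; push_cast; ring))).trans
        (hmono 2 (by norm_num) _ hb1)
  set S1 := ∑ j ∈ Ico N₀ N₁, cs (α - α') (log N₀) ((j : ℝ) + 1 / 2)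
  set S2 := ∑ j ∈ Ico N₀ N₁, cs (α + α') (log N₀) ((j : ℝ) + 1 / 2)
  set O1 := ∑ j ∈ Ico N₀ N₁, cs (α - α') (log N₀) ((j : ℝ) + 1 / 2) * osc b b' (cc n j ^ 2)
  set O2 := ∑ j ∈ Ico N₀ N₁, cs (α + α') (log N₀) ((j : ℝ) + 1 / 2) * osc b b' (cc n j ^ 2)
  have e2 : 1 / l * ((if b = b' then 1 else 0) * (S1 - S2) + (O1 - O2)) -
      (if k = k' ∧ b = b' then 1 else 0) =
      1 / l * ((if b = b' then 1 else 0) * ((S1 - (if k = k' then l else 0)) - S2) + (O1 - O2)) := by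
    by_cases hb : b = b'
    · by_cases hkk : k = k'
      · rw [if_pos hb, if_pos ⟨hkk, hb⟩, if_pos hkk]
        field_simp
        ring
      · rw [if_pos hb, if_neg (fun h => hkk h.1), if_neg hkk]
        ring
    · rw [if_neg hb, if_neg (fun h => hb h.2)]
      ring
  rw [e2, abs_mul, abs_of_pos (show 0 < 1 / l by positivity)]
  have e3 : |(if b = b' then (1 : ℝ) else 0) * ((S1 - (if k = k' then l else 0)) - S2) + (O1 - O2)| ≤
      16 * (1 + 2 * X) / N₀ := by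
    have h3 : |(if b = b' then (1 : ℝ) else 0) * ((S1 - (if k = k' then l else 0)) - S2)| ≤
        |S1 - (if k = k' then l else 0)| + |S2| := by
      rw [abs_mul]
      have h4 : |(if b = b' then (1 : ℝ) else 0)| ≤ 1 := by
        split_ifs <;> simp
      calc _ ≤ 1 * |(S1 - (if k = k' then l else 0)) - S2| :=
            mul_le_mul_of_nonneg_right h4 (abs_nonneg _)
        _ ≤ _ := by
            rw [one_mul]
            exact abs_sub _ _
    have h4 := abs_add_le ((if b = b' then (1 : ℝ) else 0) * ((S1 - (if k = k' then l else 0)) - S2))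
      (O1 - O2)
    have h5 := abs_sub O1 O2
    have h6 : 16 * (1 + 2 * X) / (N₀ : ℝ) = 2 * (1 + 2 * X) / N₀ + 2 * (1 + 2 * X) / N₀ +
      (6 * (1 + 2 * X) / N₀ + 6 * (1 + 2 * X) / N₀) := by ring
    rw [h6]
    linarith
  calc 1 / l * |(if b = b' then (1 : ℝ) else 0) * ((S1 - (if k = k' then l else 0)) - S2) + (O1 - O2)|
      ≤ 1 / l * (16 * (1 + 2 * X) / N₀) := mul_le_mul_of_nonneg_left e3 (by positivity)
    _ = _ := by
      field_simp

end Pool.Agent.H66.OneArm
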