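import Pool.Agent.H66.OneArm.QuasiI

/-!
# Energies of the quasi-modes
-/

open Finset Real Matrix

namespace Pool.Agent.H66.OneArm

lemma sq_add_le {x y E η : ℝ} (hη : 0 < η) (hy : |y| ≤ E) :
    (x + y) ^ 2 ≤ (1 + η) * x ^ 2 + (1 + 1 / η) * E ^ 2 := by
  have h1 : y ^ 2 ≤ E ^ 2 := by
    rw [← sq_abs y]
    exact pow_le_pow_left₀ (abs_nonneg _) hy 2
  have h2 : 2 * x * y ≤ η * x ^ 2 + 1 / η * y ^ 2 := by
    have h3 : 0 ≤ (η * x - y) ^ 2 / η := by positivity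
    have h4 : (η * x - y) ^ 2 / η = η * x ^ 2 + 1 / η * y ^ 2 - 2 * x * y := by
      field_simp
      ring
    linarith
  have h5 : (1 + 1 / η) * y ^ 2 ≤ (1 + 1 / η) * E ^ 2 :=
    mul_le_mul_of_nonneg_left h1 (by positivity)
  nlinarith

theorem energy_bound {n N₀ N₁ : ℕ} (h0 : 1 ≤ N₀) (h : N₀ < N₁) (hn : (N₁ : ℝ) + 2 ≤ n / 2)
    (k : ℕ) (b : Bool) {X η : ℝ} (hk : fr N₀ N₁ k ≤ X) (hη : 0 < η) (hl : 1 ≤ log N₁ - log N₀) :
    opT n (uu (2 / √(log N₁ - log N₀)) (AA (fr N₀ N₁ k) (log N₀) N₀ N₁) n b) ⬝ᵥ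
      opT n (uu (2 / √(log N₁ - log N₀)) (AA (fr N₀ N₁ k) (log N₀) N₀ N₁) n b) ≤
      (1 + η) * (3 * fr N₀ N₁ k ^ 2 + 48 * X ^ 2 * (1 + 2 * X) / N₀) +
      (1 + 1 / η) * (16000 * (18 * (1 + X) ^ 2) ^ 2 * (1 / N₀ + ((N₁ : ℝ) / n) ^ 4)) := by
  have h1 : (0 : ℝ) < N₀ := by exact_mod_cast h0
  have h2 : (N₀ : ℝ) < N₁ := by exact_mod_cast h
  have hNn : N₁ ≤ n := by
    have h3 : (0 : ℝ) ≤ N₁ := by positivity
    have : (N₁ : ℝ) ≤ n := by linarith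
    exact_mod_cast this
  have hα := fr_nonneg h0 h k
  have hlpos : 0 < log N₁ - log N₀ := by linarith
  set l := log N₁ - log N₀ with hldef
  set α := fr N₀ N₁ k with hαdef
  have hX : 0 ≤ X := hα.trans hk
  set c := 2 / √l with hc
  have hc2 : c ^ 2 = 4 / l := by
    rw [hc, div_pow, Real.sq_sqrt hlpos.le]
    norm_num
  have hA0 : ∀ j, n ≤ j → AA α (log N₀) N₀ N₁ j = 0 := by
    intro j hj
    unfold AA
    rw [if_neg (by omega)]
  have hαl : α * l = π * ((k : ℝ) + 1) := by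
    rw [hαdef]
    unfold fr
    rw [← hldef]
    field_simp
  have hs0 : sin (α * (log N₀ - log N₀)) = 0 := by simp
  have hs1 : sin (α * (log N₁ - log N₀)) = 0 := by
    rw [← hldef, hαl, mul_comm]
    have := sin_int_mul_pi ((k : ℤ) + 1)
    push_cast at this
    exact this
  have hα0 : 0 < α := by
    have h3 : 0 < α * l := by
      rw [hαl]
      have := pi_pos
      positivity
    exact pos_of_mul_pos_left h3 hlpos.le
  -- pointwise bound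
  have hpt : ∀ j : Fin n, opT n (uu c (AA α (log N₀) N₀ N₁) n b) j *
      opT n (uu c (AA α (log N₀) N₀ N₁) n b) j ≤
      c ^ 2 * ((1 + η) * (if N₀ ≤ (j : ℕ) ∧ (j : ℕ) < N₁ then
        ph b (cc n j * ⟨0, mm α (log N₀) ((j : ℕ) + 1 / 2)⟩) ^ 2 else 0) +
        (1 + 1 / η) * EE n N₀ N₁ α j ^ 2) := by
    intro j
    by_cases hj : ((j : ℕ) : ℝ) + 1 ≤ n / 2
    · rw [opT_eq c hA0 b j hj]
      have herr := err_le (y := log N₀) hα (n := n) h0 h hs0 hs1 hj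
      set R := Rr n j (AA α (log N₀) N₀ N₁ ((j : ℕ) - 1)) (AA α (log N₀) N₀ N₁ j)
        (AA α (log N₀) N₀ N₁ ((j : ℕ) + 1)) with hR
      have e1 : cc n j * R = cc n j * ⟨0, mmT N₀ N₁ α (log N₀) j⟩ +
          cc n j * (R - ⟨0, mmT N₀ N₁ α (log N₀) j⟩) := by ring
      have e2 : |ph b (cc n j * (R - ⟨0, mmT N₀ N₁ α (log N₀) j⟩))| ≤ EE n N₀ N₁ α j := by
        refine (abs_ph_le _ _).trans ?_
        rw [norm_mul, norm_cc (by linarith), one_mul]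
        exact herr
      have e3 := sq_add_le (x := ph b (cc n j * ⟨0, mmT N₀ N₁ α (log N₀) j⟩)) hη e2
      have e4 : ph b (cc n j * ⟨0, mmT N₀ N₁ α (log N₀) j⟩) ^ 2 =
          (if N₀ ≤ (j : ℕ) ∧ (j : ℕ) < N₁ then
            ph b (cc n j * ⟨0, mm α (log N₀) ((j : ℕ) + 1 / 2)⟩) ^ 2 else 0) := by
        unfold mmT
        split_ifs with hc
        · rfl
        · have : (⟨0, 0⟩ : ℂ) = 0 := rfl
          rw [this, mul_zero]
          cases b <;> simp [ph]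
      rw [e4] at e3
      rw [e1, ph_add]
      calc c * (ph b (cc n j * ⟨0, mmT N₀ N₁ α (log N₀) j⟩) +
            ph b (cc n j * (R - ⟨0, mmT N₀ N₁ α (log N₀) j⟩))) *
          (c * (ph b (cc n j * ⟨0, mmT N₀ N₁ α (log N₀) j⟩) +
            ph b (cc n j * (R - ⟨0, mmT N₀ N₁ α (log N₀) j⟩)))) =
          c ^ 2 * (ph b (cc n j * ⟨0, mmT N₀ N₁ α (log N₀) j⟩) +
            ph b (cc n j * (R - ⟨0, mmT N₀ N₁ α (log N₀) j⟩))) ^ 2 := by ring
        _ ≤ _ := mul_le_mul_of_nonneg_left e3 (sq_nonneg c)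
    · have hjN : N₁ + 1 < (j : ℕ) := by
        have : ((N₁ + 1 : ℕ) : ℝ) < ((j : ℕ) : ℝ) := by
          push_cast
          linarith [not_le.mp hj]
        exact_mod_cast this
      have hz : opT n (uu c (AA α (log N₀) N₀ N₁) n b) j = 0 := by
        apply opT_zero c hA0 b j
        · unfold AA
          rw [if_neg (by omega)]
        · unfold AA
          rw [if_neg (by omega)]
        · unfold AA
          rw [if_neg (by omega)]
      rw [hz, zero_mul]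
      rw [if_neg (by omega)]
      positivity
  rw [dotProduct]
  refine (Finset.sum_le_sum fun j _ => hpt j).trans ?_
  rw [Fin.sum_univ_eq_sum_range (fun j : ℕ => c ^ 2 * ((1 + η) * (if N₀ ≤ j ∧ j < N₁ then
        ph b (cc n j * ⟨0, mm α (log N₀) (j + 1 / 2)⟩) ^ 2 else 0) +
        (1 + 1 / η) * EE n N₀ N₁ α j ^ 2)) n, ← Finset.mul_sum, Finset.sum_add_distrib,
    ← Finset.mul_sum, ← Finset.mul_sum, sum_ite_Ico hNn]
  have hEE := sum_EE_sq_le hα h0 h hNn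
  have hjn : ∀ j ∈ Ico N₀ N₁, (j : ℝ) ≤ n / 2 := by
    intro j hj
    have : (j : ℝ) ≤ N₁ := by exact_mod_cast (Finset.mem_Ico.mp hj).2.le
    linarith
  have hmain : c ^ 2 * ∑ j ∈ Ico N₀ N₁, ph b (cc n j * ⟨0, mm α (log N₀) ((j : ℝ) + 1 / 2)⟩) ^ 2 ≤
      3 * α ^ 2 + 48 * X ^ 2 * (1 + 2 * X) / N₀ := by
    have e1 : ∀ j ∈ Ico N₀ N₁, ph b (cc n j * ⟨0, mm α (log N₀) ((j : ℝ) + 1 / 2)⟩) ^ 2 =
        3 / 4 * α ^ 2 * ((cs 0 (log N₀) ((j : ℝ) + 1 / 2) + cs (2 * α) (log N₀) ((j : ℝ) + 1 / 2)) +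
          (cs 0 (log N₀) ((j : ℝ) + 1 / 2) * osc (!b) (!b) (cc n j ^ 2) +
           cs (2 * α) (log N₀) ((j : ℝ) + 1 / 2) * osc (!b) (!b) (cc n j ^ 2))) := by
      intro j hj
      have h3 := ph_I (normSq_cc (hjn j hj)) b (mm α (log N₀) ((j : ℝ) + 1 / 2))
      have h4 := mm_sq (α := α) (y := log N₀) (s := (j : ℝ) + 1 / 2) (by positivity)
      linear_combination (1 / 2) * h3 + (1 / 4) * (1 + osc (!b) (!b) (cc n j ^ 2)) * h4
    rw [Finset.sum_congr rfl e1, ← Finset.mul_sum, Finset.sum_add_distrib, Finset.sum_add_distrib,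
      Finset.sum_add_distrib, hc2]
    have s1 := (abs_le.mp (sum_cs_zero (log N₀) h0 h.le)).2
    have s2 := (abs_le.mp (sum_cs_of_ne (γ := 2 * α) (by positivity) h0 h.le (by
      rw [mul_assoc, ← hldef, hαl]
      have := sin_int_mul_pi (2 * ((k : ℤ) + 1))
      push_cast at this
      rw [← this]
      congr 1
      ring))).2
    have s3 := (abs_le.mp (sum_cs_osc_le 0 (log N₀) h0 h.le hn (!b) (!b))).2
    have s4 := (abs_le.mp (sum_cs_osc_le (2 * α) (log N₀) h0 h.le hn (!b) (!b))).2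
    set S1 := ∑ j ∈ Ico N₀ N₁, cs 0 (log N₀) ((j : ℝ) + 1 / 2)
    set S2 := ∑ j ∈ Ico N₀ N₁, cs (2 * α) (log N₀) ((j : ℝ) + 1 / 2)
    set S3 := ∑ j ∈ Ico N₀ N₁, cs 0 (log N₀) ((j : ℝ) + 1 / 2) * osc (!b) (!b) (cc n j ^ 2)
    set S4 := ∑ j ∈ Ico N₀ N₁, cs (2 * α) (log N₀) ((j : ℝ) + 1 / 2) * osc (!b) (!b) (cc n j ^ 2)
    rw [← hldef] at s1
    rw [abs_zero] at s3
    rw [abs_of_pos (show 0 < 2 * α by positivity)] at s2 s4
    have hr : ∀ K : ℝ, 0 ≤ K → K * (1 + 2 * α) / N₀ ≤ K * (1 + 2 * X) / N₀ := by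
      intro K hK
      apply div_le_div_of_nonneg_right _ h1.le
      exact mul_le_mul_of_nonneg_left (by linarith) hK
    have hr0 : ∀ K : ℝ, 0 ≤ K → K / N₀ ≤ K * (1 + 2 * X) / N₀ := by
      intro K hK
      apply div_le_div_of_nonneg_right _ h1.le
      nlinarith
    have t1 := hr0 2 (by norm_num)
    have t2 := hr 2 (by norm_num)
    have t3 := hr0 6 (by norm_num)
    have t4 := hr 6 (by norm_num)
    have t3' : 6 * (1 + 0) / (N₀ : ℝ) = 6 / N₀ := by norm_num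
    have hsum : (S1 + S2) + (S3 + S4) ≤ l + 16 * (1 + 2 * X) / N₀ := by
      have : 16 * (1 + 2 * X) / (N₀ : ℝ) = 2 * (1 + 2 * X) / N₀ + 2 * (1 + 2 * X) / N₀ +
        (6 * (1 + 2 * X) / N₀ + 6 * (1 + 2 * X) / N₀) := by ring
      linarith
    have e5 : 4 / l * (3 / 4 * α ^ 2 * ((S1 + S2) + (S3 + S4))) =
        3 * α ^ 2 / l * ((S1 + S2) + (S3 + S4)) := by ring
    rw [e5]
    calc 3 * α ^ 2 / l * ((S1 + S2) + (S3 + S4)) ≤ 3 * α ^ 2 / l * (l + 16 * (1 + 2 * X) / N₀) :=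
          mul_le_mul_of_nonneg_left hsum (by positivity)
      _ = 3 * α ^ 2 + 48 * α ^ 2 * (1 + 2 * X) / N₀ * (1 / l) := by
          field_simp
          ring
      _ ≤ 3 * α ^ 2 + 48 * α ^ 2 * (1 + 2 * X) / N₀ * 1 := by
          have : 1 / l ≤ 1 := by
            rw [div_le_one hlpos]
            exact hl
          have := mul_le_mul_of_nonneg_left this (show 0 ≤ 48 * α ^ 2 * (1 + 2 * X) / N₀ by positivity)
          linarith
      _ ≤ 3 * α ^ 2 + 48 * X ^ 2 * (1 + 2 * X) / N₀ := by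
          rw [mul_one]
          have h5 : α ^ 2 ≤ X ^ 2 := pow_le_pow_left₀ hα hk 2
          have h6 : 48 * α ^ 2 * (1 + 2 * X) / (N₀ : ℝ) ≤ 48 * X ^ 2 * (1 + 2 * X) / N₀ := by
            apply div_le_div_of_nonneg_right _ h1.le
            apply mul_le_mul_of_nonneg_right _ (by linarith)
            linarith
          linarith
  have hc4 : c ^ 2 ≤ 4 := by
    rw [hc2, div_le_iff₀ hlpos]
    linarith
  have hMX : (18 * (1 + α) ^ 2) ^ 2 ≤ (18 * (1 + X) ^ 2) ^ 2 := by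
    have h3 : 1 + α ≤ 1 + X := by linarith
    gcongr
  have hr5 : 0 ≤ 1 / (N₀ : ℝ) + ((N₁ : ℝ) / n) ^ 4 := by positivity
  have hEE2 : c ^ 2 * ∑ j ∈ range n, EE n N₀ N₁ α j ^ 2 ≤
      16000 * (18 * (1 + X) ^ 2) ^ 2 * (1 / N₀ + ((N₁ : ℝ) / n) ^ 4) := by
    have h4 : 4000 * (18 * (1 + α) ^ 2) ^ 2 * (1 / (N₀ : ℝ) + ((N₁ : ℝ) / n) ^ 4) ≤
        4000 * (18 * (1 + X) ^ 2) ^ 2 * (1 / N₀ + ((N₁ : ℝ) / n) ^ 4) := by
      apply mul_le_mul_of_nonneg_right _ hr5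
      linarith
    have h5 : 0 ≤ ∑ j ∈ range n, EE n N₀ N₁ α j ^ 2 := Finset.sum_nonneg fun j _ => sq_nonneg _
    calc c ^ 2 * ∑ j ∈ range n, EE n N₀ N₁ α j ^ 2 ≤ 4 * ∑ j ∈ range n, EE n N₀ N₁ α j ^ 2 :=
          mul_le_mul_of_nonneg_right hc4 h5
      _ ≤ 4 * (4000 * (18 * (1 + X) ^ 2) ^ 2 * (1 / N₀ + ((N₁ : ℝ) / n) ^ 4)) :=
          mul_le_mul_of_nonneg_left (hEE.trans h4) (by norm_num)
      _ = _ := by ring
  have hη1 : 0 ≤ 1 + η := by linarith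
  have hη2 : 0 ≤ 1 + 1 / η := by positivity
  have f1 := mul_le_mul_of_nonneg_left hmain hη1
  have f2 := mul_le_mul_of_nonneg_left hEE2 hη2
  calc _ = (1 + η) * (c ^ 2 * ∑ j ∈ Ico N₀ N₁, ph b (cc n j * ⟨0, mm α (log N₀) ((j : ℝ) + 1 / 2)⟩) ^ 2) +
        (1 + 1 / η) * (c ^ 2 * ∑ j ∈ range n, EE n N₀ N₁ α j ^ 2) := by ring
    _ ≤ _ := add_le_add f1 f2

end Pool.Agent.H66.OneArm
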