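import Pool.Agent.H66.OneArm.Ode
import Pool.Agent.H66.OneArm.MaxPrin

/-!
# The eigenvalues of the Pascal matrix in terms of those of the tridiagonal matrix
-/

open Matrix Finset Real Set

namespace Pool.Agent.H66.OneArm

variable {n : ℕ}

noncomputable def qf (t : ℝ) : ℝ := t ^ 2 - t + 1
noncomputable def rho (c t : ℝ) : ℝ := (c - t) / qf t
noncomputable def rho1 (c t : ℝ) : ℝ := (-1 - rho c t * (2 * t - 1)) / qf t
noncomputable def rho2 (c t : ℝ) : ℝ := (-2 * rho1 c t * (2 * t - 1) - 2 * rho c t) / qf t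

lemma qf_ge (t : ℝ) : 3 / 4 ≤ qf t := by
  unfold qf
  nlinarith [sq_nonneg (t - 1 / 2)]

lemma qf_pos (t : ℝ) : 0 < qf t := lt_of_lt_of_le (by norm_num) (qf_ge t)

lemma hasDerivAt_qf (t : ℝ) : HasDerivAt qf (2 * t - 1) t := by
  unfold qf
  have h := (((hasDerivAt_pow 2 t).sub (hasDerivAt_id' t)).add_const 1)
  refine h.congr_deriv ?_
  simp

lemma hasDerivAt_rho (c t : ℝ) : HasDerivAt (rho c) (rho1 c t) t := by
  have hq := (qf_pos t).ne'
  have h := ((hasDerivAt_id' t).const_sub c).div (hasDerivAt_qf t) hq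
  refine h.congr_deriv ?_
  unfold rho1 rho
  field_simp

lemma hasDerivAt_rho1 (c t : ℝ) : HasDerivAt (rho1 c) (rho2 c t) t := by
  have hq := (qf_pos t).ne'
  have h1 : HasDerivAt (fun s => 2 * s - 1) 2 t := by
    simpa using ((hasDerivAt_id' t).const_mul 2).sub_const 1
  have h := (((hasDerivAt_rho c t).mul h1).const_sub (-1)).div (hasDerivAt_qf t) hq
  refine h.congr_deriv ?_
  have e : (-1 - rho c t * (2 * t - 1)) = rho1 c t * qf t := by
    unfold rho1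
    field_simp
  unfold rho2
  simp only [Pi.mul_apply]
  rw [e]
  field_simp
  ring

lemma abs_two_sub_one {t : ℝ} (ht : t ∈ Icc (0 : ℝ) 1) : |2 * t - 1| ≤ 1 := by
  rw [abs_le]
  constructor <;> linarith [ht.1, ht.2]

lemma abs_div_qf {a r : ℝ} (t : ℝ) (h : |a| ≤ r) : |a / qf t| ≤ 4 / 3 * r := by
  rw [abs_div, abs_of_pos (qf_pos t), div_le_iff₀ (qf_pos t)]
  have := qf_ge t
  have hr : 0 ≤ r := (abs_nonneg a).trans h
  nlinarith

lemma abs_rho_le {c K t : ℝ} (hc : |c| ≤ K) (ht : t ∈ Icc (0 : ℝ) 1) :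
    |rho c t| ≤ 4 / 3 * (K + 1) := by
  refine abs_div_qf t ?_
  refine (abs_sub _ _).trans ?_
  rw [abs_of_nonneg ht.1]
  linarith [ht.2]

lemma abs_rho1_le {c K t : ℝ} (hc : |c| ≤ K) (ht : t ∈ Icc (0 : ℝ) 1) :
    |rho1 c t| ≤ 4 / 3 * (1 + 4 / 3 * (K + 1)) := by
  refine abs_div_qf t ?_
  refine (abs_sub _ _).trans ?_
  rw [abs_neg, abs_one, abs_mul]
  have h1 := abs_rho_le hc ht
  have h2 := abs_two_sub_one ht
  have h3 : |rho c t| * |2 * t - 1| ≤ |rho c t| * 1 := mul_le_mul_of_nonneg_left h2 (abs_nonneg _)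
  linarith

lemma abs_rho2_le {c K t : ℝ} (hc : |c| ≤ K) (ht : t ∈ Icc (0 : ℝ) 1) :
    |rho2 c t| ≤ 4 / 3 * (2 * (4 / 3 * (1 + 4 / 3 * (K + 1))) + 2 * (4 / 3 * (K + 1))) := by
  refine abs_div_qf t ?_
  refine (abs_sub _ _).trans ?_
  rw [abs_mul, abs_mul, abs_mul, abs_neg, abs_two]
  have h1 := abs_rho_le hc ht
  have h2 := abs_two_sub_one ht
  have h4 := abs_rho1_le hc ht
  have h3 : |rho1 c t| * |2 * t - 1| ≤ |rho1 c t| * 1 :=
    mul_le_mul_of_nonneg_left h2 (abs_nonneg _)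
  nlinarith

/-- The coefficient of the solution in the reduced equation. -/
noncomputable def coefF (c t : ℝ) : ℝ :=
  t ^ 2 * (1 - t) ^ 2 * (rho2 c t + 3 * rho c t * rho1 c t + rho c t ^ 3) +
    3 * (t * (1 - t) * (1 - 2 * t)) * (rho1 c t + rho c t ^ 2) + (7 * t ^ 2 - 7 * t + 1) * rho c t + t

noncomputable def coefB (c t : ℝ) : ℝ :=
  t ^ 2 * (1 - t) ^ 2 * (2 * rho1 c t + rho c t ^ 2) + 3 * (t * (1 - t) * (1 - 2 * t)) * rho c t +
    (7 * t ^ 2 - 7 * t + 1)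

noncomputable def coefA (c t : ℝ) : ℝ :=
  t ^ 2 * (1 - t) ^ 2 * rho c t + 3 * (t * (1 - t) * (1 - 2 * t))

lemma coef_bounds {t : ℝ} (ht : t ∈ Icc (0 : ℝ) 1) : |t ^ 2 * (1 - t) ^ 2| ≤ 1 ∧
    |3 * (t * (1 - t) * (1 - 2 * t))| ≤ 1 ∧ |7 * t ^ 2 - 7 * t + 1| ≤ 1 := by
  obtain ⟨h0, h1⟩ := ht
  have h2 : 0 ≤ t * (1 - t) := mul_nonneg h0 (by linarith)
  have h3 : t * (1 - t) ≤ 1 / 4 := by nlinarith [sq_nonneg (t - 1 / 2)]
  refine ⟨?_, ?_, ?_⟩
  · rw [← mul_pow, abs_of_nonneg (sq_nonneg _)]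
    nlinarith
  · have h4 : |1 - 2 * t| ≤ 1 := by
      rw [abs_le]
      constructor <;> linarith
    rw [abs_mul, abs_mul, abs_of_nonneg h2, abs_of_pos (show (0 : ℝ) < 3 by norm_num)]
    nlinarith [abs_nonneg (1 - 2 * t)]
  · rw [abs_le]
    constructor <;> nlinarith

/-- For bounded parameters the coefficients are bounded. -/
lemma exists_coef_bound (K : ℝ) : ∃ b : ℝ, 0 < b ∧ ∀ c t : ℝ, |c| ≤ K → t ∈ Icc (0 : ℝ) 1 →
    |coefB c t| ≤ b ∧ |coefF c t| ≤ b := by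
  set r := 4 / 3 * (|K| + 1) with hr
  set r1 := 4 / 3 * (1 + 4 / 3 * (|K| + 1)) with hr1
  set r2 := 4 / 3 * (2 * (4 / 3 * (1 + 4 / 3 * (|K| + 1))) + 2 * (4 / 3 * (|K| + 1))) with hr2
  have hK := abs_nonneg K
  refine ⟨(2 * r1 + r ^ 2 + r + 1) + (r2 + 3 * r * r1 + r ^ 3 + (r1 + r ^ 2) + r + 1),
    by positivity, fun c t hc ht => ?_⟩
  have hc' : |c| ≤ |K| := hc.trans (le_abs_self K)
  have h0 : |rho c t| ≤ r := abs_rho_le hc' ht
  have h1 : |rho1 c t| ≤ r1 := abs_rho1_le hc' ht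
  have h2 : |rho2 c t| ≤ r2 := abs_rho2_le hc' ht
  obtain ⟨hP, hR, hQ⟩ := coef_bounds ht
  have hr0 : 0 ≤ r := (abs_nonneg _).trans h0
  have hr10 : 0 ≤ r1 := (abs_nonneg _).trans h1
  have hr20 : 0 ≤ r2 := (abs_nonneg _).trans h2
  have h00 : |rho c t ^ 2| ≤ r ^ 2 := by
    rw [abs_pow]
    exact pow_le_pow_left₀ (abs_nonneg _) h0 2
  have h000 : |rho c t ^ 3| ≤ r ^ 3 := by
    rw [abs_pow]
    exact pow_le_pow_left₀ (abs_nonneg _) h0 3
  have h01 : |3 * rho c t * rho1 c t| ≤ 3 * r * r1 := by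
    rw [abs_mul, abs_mul, abs_of_pos (show (0 : ℝ) < 3 by norm_num)]
    gcongr
  have mulle : ∀ a b s : ℝ, |a| ≤ 1 → |b| ≤ s → |a * b| ≤ s := by
    intro a b s ha hb
    rw [abs_mul]
    have := mul_le_mul ha hb (abs_nonneg _) zero_le_one
    linarith
  have ht1 : |t| ≤ 1 := by
    rw [abs_of_nonneg ht.1]
    exact ht.2
  constructor
  · have e1 : |2 * rho1 c t + rho c t ^ 2| ≤ 2 * r1 + r ^ 2 := by
      refine (abs_add_le _ _).trans (add_le_add ?_ h00)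
      rw [abs_mul, abs_two]
      linarith
    have e2 := mulle _ _ _ hP e1
    have e3 := mulle _ _ _ hR h0
    have e4 : |coefB c t| ≤ (2 * r1 + r ^ 2) + r + 1 := by
      unfold coefB
      exact (abs_add_le _ _).trans (add_le_add ((abs_add_le _ _).trans (add_le_add e2 e3)) hQ)
    have : 0 ≤ r2 + 3 * r * r1 + r ^ 3 + (r1 + r ^ 2) + r + 1 := by positivity
    linarith
  · have e1 : |rho2 c t + 3 * rho c t * rho1 c t + rho c t ^ 3| ≤ r2 + 3 * r * r1 + r ^ 3 :=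
      (abs_add_le _ _).trans (add_le_add ((abs_add_le _ _).trans (add_le_add h2 h01)) h000)
    have e2 : |rho1 c t + rho c t ^ 2| ≤ r1 + r ^ 2 := (abs_add_le _ _).trans (add_le_add h1 h00)
    have e3 := mulle _ _ _ hP e1
    have e4 := mulle _ _ _ hR e2
    have e5 := mulle _ _ _ hQ h0
    have e6 : |coefF c t| ≤ (r2 + 3 * r * r1 + r ^ 3) + (r1 + r ^ 2) + r + 1 := by
      unfold coefF
      exact (abs_add_le _ _).trans (add_le_add ((abs_add_le _ _).trans (add_le_add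
        ((abs_add_le _ _).trans (add_le_add e3 e4)) e5)) ht1)
    have : 0 ≤ 2 * r1 + r ^ 2 + r + 1 := by positivity
    linarith

/-- The defect `V' - ρ V` of an eigenvector is of size `1 / n ^ 2`. -/
lemma defect_bound {c K b M : ℝ} (hn : 1 ≤ n) (v : Fin n → ℝ)
    (hv : trid n *ᵥ v = ((n : ℝ) ^ 2 * c) • v) (hc : |c| ≤ K)
    (hb : ∀ c t : ℝ, |c| ≤ K → t ∈ Icc (0 : ℝ) 1 → |coefB c t| ≤ b ∧ |coefF c t| ≤ b)
    (hnb : b / (n : ℝ) ^ 2 ≤ 1 / 4) (hM : ∀ t ∈ Icc (0 : ℝ) 1, |V0 v t| ≤ M) :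
    ∀ t ∈ Icc (0 : ℝ) 1, |V1 v t - rho c t * V0 v t| ≤ 2 * b * M / (n : ℝ) ^ 2 := by
  have hn0 : (0 : ℝ) < (n : ℝ) ^ 2 := by positivity
  have hb0 : 0 ≤ b := (abs_nonneg _).trans (hb c 0 hc ⟨le_rfl, zero_le_one⟩).1
  have h := max_principle (z := fun t => V1 v t - rho c t * V0 v t)
    (z1 := fun t => V2 v t - (rho1 c t * V0 v t + rho c t * V1 v t))
    (z2 := fun t => V3 v t - ((rho2 c t * V0 v t + rho1 c t * V1 v t) +
      (rho1 c t * V1 v t + rho c t * V2 v t)))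
    (q := qf) (P := fun t => t ^ 2 * (1 - t) ^ 2) (A := coefA c) (Bf := coefB c)
    (F := fun t => coefF c t * V0 v t) (ε := 1 / (n : ℝ) ^ 2) (b := b) (f := b * M)
    (fun t _ => (hasDerivAt_V1 v t).sub ((hasDerivAt_rho c t).mul (hasDerivAt_V0 v t)))
    (fun t _ => (hasDerivAt_V2 v t).sub (((hasDerivAt_rho1 c t).mul (hasDerivAt_V0 v t)).add
      ((hasDerivAt_rho c t).mul (hasDerivAt_V1 v t))))
    (fun t _ => qf_ge t) (fun t _ => by positivity) (by simp) (by simp)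
    (by simp [coefA]) (by simp [coefA]) (fun t ht => (hb c t hc ht).1)
    (fun t ht => by
      rw [abs_mul]
      exact mul_le_mul (hb c t hc ht).2 (hM t ht) (abs_nonneg _) hb0)
    (by positivity) (by rw [one_div, inv_mul_eq_div]; exact hnb)
    (fun t _ => by
      have hode := ode v hv t
      have hq : rho c t * qf t = c - t := by
        unfold rho
        rw [div_mul_cancel₀ _ (qf_pos t).ne']
      have hqf : t ^ 2 - t + 1 = qf t := rfl
      rw [hqf] at hode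
      rw [one_div, eq_inv_mul_iff_mul_eq₀ hn0.ne']
      unfold coefA coefB coefF
      linear_combination hode - (n : ℝ) ^ 2 * V0 v t * hq)
  intro t ht
  have h1 := h t ht
  calc |V1 v t - rho c t * V0 v t| ≤ 2 * (1 / (n : ℝ) ^ 2) * (b * M) := h1
    _ = 2 * b * M / (n : ℝ) ^ 2 := by ring

/-- The phase. -/
noncomputable def psi (x t : ℝ) : ℝ :=
  -(1 / 2) * log (qf t) + 2 * x * arctan ((2 * t - 1) / √3)

lemma hasDerivAt_psi (x t : ℝ) : HasDerivAt (psi x) (rho (1 / 2 + √3 * x) t) t := by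
  have hq := (qf_pos t).ne'
  have h3 : √3 ≠ 0 := by positivity
  have h33 : √3 ^ 2 = 3 := Real.sq_sqrt (by norm_num)
  have h1 : HasDerivAt (fun s => (2 * s - 1) / √3) (2 / √3) t := by
    simpa using (((hasDerivAt_id' t).const_mul 2).sub_const 1).div_const (√3)
  have h := (((hasDerivAt_qf t).log hq).const_mul (-(1 / 2))).add (h1.arctan.const_mul (2 * x))
  refine h.congr_deriv ?_
  have e : 1 + ((2 * t - 1) / √3) ^ 2 = 4 / 3 * qf t := by
    rw [div_pow, h33]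
    unfold qf
    ring
  rw [e]
  unfold rho
  field_simp
  linear_combination (-8 * x) * h33

lemma psi_one_sub_zero (x : ℝ) : psi x 1 - psi x 0 = 2 * π * x / 3 := by
  have h6 : arctan (1 / √3) = π / 6 := by
    rw [← tan_pi_div_six]
    exact arctan_tan (by linarith [pi_pos]) (by linarith [pi_pos])
  unfold psi qf
  have e1 : (2 * (1 : ℝ) - 1) / √3 = 1 / √3 := by norm_num
  have e0 : (2 * (0 : ℝ) - 1) / √3 = -(1 / √3) := by rw [← neg_div]; norm_num
  rw [e1, e0, arctan_neg, h6]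
  norm_num
  ring

end Pool.Agent.H66.OneArm
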