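import Pool.Agent.H66.OneArm.Final
import Pool.Agent.H15.Exact.Final
import Pool.Agent.H93.EX.Asm
import Pool.Agent.H34.Hom.Final

/-!
# The one-arm exponent on the cylinder
-/

open Filter Topology Real Matrix

namespace Pool.Agent.H66.OneArm

open Pool.Agent.H34.Hom (asm aht asm_pos aht_pos p2_power_law)
open Pool.Agent.H15.Exact (vR vR_eq arm1 oneArm_formula sum_vR_pow)

lemma pascEX_eq (n : ℕ) : EX93.pasc ℝ n = pasc n := by
  ext i j
  simp [EX93.pasc, pasc]

/-- The sum of the components of the stationary vector. -/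
theorem sum_vR (n : ℕ) (hn : 1 ≤ n) :
    ∑ P : H56.EX.Pat (2 * n), vR (2 * n) P = aht n := by
  have h := Pool.Agent.H34.Hom.sum_vv Pool.Agent.H12.QKZ.psiProps (L := 2 * n) rfl hn
  have h2 : ((∑ P : H56.EX.Pat (2 * n), vR (2 * n) P : ℝ) : ℂ) = ((aht n : ℝ) : ℂ) := by
    rw [← h, Complex.ofReal_sum]
    refine Finset.sum_congr rfl fun P _ => ?_
    rw [vR_eq]
    rfl
  exact_mod_cast h2

theorem det_one (n : ℕ) (hn : 1 ≤ n) :
    (1 + pasc (2 * n) + pasc (2 * n) ^ 2).det = aht n ^ 4 := by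
  rw [← pascEX_eq, ← sum_vR_pow n hn, sum_vR n hn]

theorem det_neg_one (M : ℕ) :
    (1 - pasc M + pasc M ^ 2).det = asm M ^ 2 := by
  rw [← pascEX_eq]
  exact EX93.det_pasc_neg_one M

lemma tendsto_nu : Tendsto (fun m : ℕ => 2 * m) atTop atTop :=
  tendsto_atTop_mono (fun h => by simp only [id]; omega) tendsto_id

theorem htot : Tendsto (fun m : ℕ => log ((1 + pasc (2 * m) + pasc (2 * m) ^ 2).det /
      (1 - pasc (2 * m) + pasc (2 * m) ^ 2).det) / log ((2 * m : ℕ) : ℝ)) atTop (𝓝 (1 / 2)) := by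
  obtain ⟨c, C, hc, hC, h⟩ := p2_power_law
  have hν' : Tendsto (fun m : ℕ => ((2 * m : ℕ) : ℝ)) atTop atTop :=
    tendsto_natCast_atTop_atTop.comp tendsto_nu
  have hlog : Tendsto (fun m : ℕ => log ((2 * m : ℕ) : ℝ)) atTop atTop :=
    tendsto_log_atTop.comp hν'
  -- `log (ratio) - (1/2) log (2 m)` is bounded
  have key : ∀ m : ℕ, 1 ≤ m →
      -2 * log C - (1 / 2) * log 2 ≤ log ((1 + pasc (2 * m) + pasc (2 * m) ^ 2).det /
        (1 - pasc (2 * m) + pasc (2 * m) ^ 2).det) - (1 / 2) * log ((2 * m : ℕ) : ℝ) ∧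
      log ((1 + pasc (2 * m) + pasc (2 * m) ^ 2).det /
        (1 - pasc (2 * m) + pasc (2 * m) ^ 2).det) - (1 / 2) * log ((2 * m : ℕ) : ℝ) ≤
        -2 * log c - (1 / 2) * log 2 := by
    intro m hm
    have hm' : (0 : ℝ) < m := by exact_mod_cast hm
    have ha := asm_pos (2 * m)
    have hb := aht_pos m
    have hp : 0 < asm (2 * m) / aht m ^ 2 := by positivity
    obtain ⟨h1, h2⟩ := h m hm
    have e : (1 + pasc (2 * m) + pasc (2 * m) ^ 2).det /
        (1 - pasc (2 * m) + pasc (2 * m) ^ 2).det = ((asm (2 * m) / aht m ^ 2) ^ 2)⁻¹ := by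
      rw [det_one m hm, det_neg_one]
      field_simp
    rw [e, Real.log_inv, Real.log_pow]
    have e2 : log ((2 * m : ℕ) : ℝ) = log 2 + log m := by
      rw [Nat.cast_mul, Nat.cast_ofNat, Real.log_mul (by norm_num) hm'.ne']
    rw [e2]
    have hmp : 0 < (m : ℝ) ^ (-(1 / 4 : ℝ)) := rpow_pos_of_pos hm' _
    have l1 := Real.log_le_log (by positivity) h1
    have l2 := Real.log_le_log hp h2
    rw [Real.log_mul hc.ne' hmp.ne', Real.log_rpow hm'] at l1
    rw [Real.log_mul hC.ne' hmp.ne', Real.log_rpow hm'] at l2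
    push_cast
    constructor <;> linarith
  have h0 : Tendsto (fun m : ℕ => (log ((1 + pasc (2 * m) + pasc (2 * m) ^ 2).det /
        (1 - pasc (2 * m) + pasc (2 * m) ^ 2).det) - (1 / 2) * log ((2 * m : ℕ) : ℝ)) /
        log ((2 * m : ℕ) : ℝ)) atTop (𝓝 0) := by
    refine tendsto_of_tendsto_of_tendsto_of_le_of_le'
      (hlog.const_div_atTop (-2 * log C - (1 / 2) * log 2))
      (hlog.const_div_atTop (-2 * log c - (1 / 2) * log 2)) ?_ ?_
    · filter_upwards [eventually_ge_atTop 1, hlog.eventually_gt_atTop 0] with m hm hl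
      exact (div_le_div_iff_of_pos_right hl).mpr (key m hm).1
    · filter_upwards [eventually_ge_atTop 1, hlog.eventually_gt_atTop 0] with m hm hl
      exact (div_le_div_iff_of_pos_right hl).mpr (key m hm).2
  have h1 := h0.add_const (1 / 2 : ℝ)
  rw [zero_add] at h1
  refine h1.congr' ?_
  filter_upwards [hlog.eventually_gt_atTop 0] with m hl
  field_simp
  ring

/-- The one-arm number of the cylinder. -/
noncomputable def g1 (n : ℕ) : ℝ :=
  arm1 (2 * n) / (∑ P : H56.EX.Pat (2 * n), vR (2 * n) P) ^ 2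

theorem abs_g1 (n : ℕ) (hn : 1 ≤ n) : |g1 n| =
    √((1 + pasc (2 * n) ^ 2).det / (1 + pasc (2 * n) + pasc (2 * n) ^ 2).det) := by
  rw [← pascEX_eq, ← oneArm_formula n hn, Real.sqrt_sq_eq_abs]
  rfl

/-- **The one-arm exponent of the cylinder.** -/
theorem g1_bounds : ∀ ε : ℝ, ε > 0 → ∀ᶠ n : ℕ in atTop,
    ((2 * n : ℕ) : ℝ) ^ (-(5 / 48) - ε) ≤
      |arm1 (2 * n) / (∑ P : H56.EX.Pat (2 * n), vR (2 * n) P) ^ 2| ∧
    |arm1 (2 * n) / (∑ P : H56.EX.Pat (2 * n), vR (2 * n) P) ^ 2| ≤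
      ((2 * n : ℕ) : ℝ) ^ (-(5 / 48) + ε) := by
  intro ε hε
  filter_upwards [oneArm_bounds tendsto_nu htot hε, eventually_ge_atTop 1] with n h hn
  have := abs_g1 n hn
  unfold g1 at this
  rw [this]
  exact h

/-- The same as a limit. -/
theorem tendsto_g1 : Tendsto (fun n : ℕ =>
    log |arm1 (2 * n) / (∑ P : H56.EX.Pat (2 * n), vR (2 * n) P) ^ 2| / log ((2 * n : ℕ) : ℝ))
      atTop (𝓝 (-(5 / 48))) := by
  refine (oneArm_exponent tendsto_nu htot).congr' ?_
  filter_upwards [eventually_ge_atTop 1] with n hn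
  have := abs_g1 n hn
  unfold g1 at this
  rw [this]

end Pool.Agent.H66.OneArm
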